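import Pool.Agent.Work.MP_73831e_pr.Basic

/-!
MODULE Sup (first-moment tools for uniform `M`-subsets of a set with `N` elements).

`sup_count`: the number of `M`-sets containing a given `j`-set `S` is `C(N-j, M-j)` (0 if `j > M`)
and `C(N-j,M-j)/C(N,M) = M(M-1)..(M-j+1)/(N(N-1)..(N-j+1)) ≤ (M/N)^j`.
`sub_count`: the number of `M`-sets contained in a given set `T` is `C(|T|, M)`, and
`C(|T|,M)/C(N,M) = ∏_{i<M} (|T|-i)/(N-i) ≤ (|T|/N)^M`.
`fact_lower`: `(j/3)^j ≤ j!`, i.e. `j^j ≤ 3^j * j!` (induction: `(1+1/j)^j ≤ 3`).
`union_bound` : the number of `M`-sets `E` such that some `j`-subset `S` of `T` is contained in `E`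
(equivalently `|E ∩ T| ≥ j`), times `N^j j^j`, is at most `(3 |T| M)^j * C(N,M)`:
sum `sup_count` over the `C(|T|,j) ≤ |T|^j / j!` subsets and use `fact_lower`.
-/

open Finset
open scoped Classical Nat

namespace Pool.Agent.Work.MP_73831e_pr

theorem sup_arith (N M : ℕ) (hM : M ≤ N) (j : ℕ) (hj : j ≤ M) :
    (N - j).choose (M - j) * N ^ j ≤ M ^ j * N.choose M := by
  induction j with
  | zero => simp
  | succ j ih =>
    have ih' := ih (by omega)
    obtain ⟨a, ha⟩ : ∃ a, M - j = a + 1 := ⟨M - j - 1, by omega⟩
    obtain ⟨b, hb⟩ : ∃ b, N - j = b + 1 := ⟨N - j - 1, by omega⟩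
    have e1 : M - (j + 1) = a := by omega
    have e2 : N - (j + 1) = b := by omega
    rw [e1, e2]
    rw [ha, hb] at ih'
    have h1 : (b + 1) * b.choose a = (b + 1).choose (a + 1) * (a + 1) :=
      Nat.add_one_mul_choose_eq b a
    have h2 : (a + 1) * N ≤ (b + 1) * M := by
      have e3 : M = a + 1 + j := by omega
      have e4 : N = b + 1 + j := by omega
      have e5 : a ≤ b := by omega
      rw [e3, e4]
      nlinarith [Nat.mul_le_mul_right j e5]
    have h3 : (b + 1) * (b.choose a * N ^ (j + 1)) ≤ (b + 1) * (M ^ (j + 1) * N.choose M) := by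
      calc (b + 1) * (b.choose a * N ^ (j + 1)) = ((b + 1) * b.choose a) * (N ^ j * N) := by ring
        _ = ((b + 1).choose (a + 1) * N ^ j) * ((a + 1) * N) := by rw [h1]; ring
        _ ≤ (M ^ j * N.choose M) * ((b + 1) * M) := Nat.mul_le_mul ih' h2
        _ = (b + 1) * (M ^ (j + 1) * N.choose M) := by ring
    exact Nat.le_of_mul_le_mul_left h3 (Nat.succ_pos b)

theorem sup_count {P : Type} [Fintype P] (M : ℕ) (hM : M ≤ Fintype.card P) (S : Finset P) :
    (univ.filter (fun E : Finset P => E.card = M ∧ S ⊆ E)).card * (Fintype.card P) ^ S.card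
      ≤ M ^ S.card * (Fintype.card P).choose M := by
  rcases Nat.lt_or_ge M S.card with h | h
  · have : (univ.filter (fun E : Finset P => E.card = M ∧ S ⊆ E)) = ∅ := by
      apply Finset.filter_eq_empty_iff.mpr
      rintro E _ ⟨h1, h2⟩
      have := Finset.card_le_card h2
      omega
    rw [this]
    simp
  · have h1 : (univ.filter (fun E : Finset P => E.card = M ∧ S ⊆ E)).card ≤
        (powersetCard (M - S.card) Sᶜ).card := by
      apply Finset.card_le_card_of_injOn (fun E => E \ S)
      · intro E hE
        simp only [coe_filter, mem_univ, true_and, Set.mem_ofPred_eq] at hE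
        apply Finset.mem_coe.mpr
        rw [mem_powersetCard]
        refine ⟨?_, ?_⟩
        · intro x hx
          rw [Finset.mem_sdiff] at hx
          exact Finset.mem_compl.mpr hx.2
        · rw [Finset.card_sdiff_of_subset hE.2, hE.1]
      · intro E hE E' hE' hh
        simp only [coe_filter, mem_univ, true_and, Set.mem_ofPred_eq] at hE hE'
        have e1 : E \ S = E' \ S := hh
        calc E = E \ S ∪ S := (Finset.sdiff_union_of_subset hE.2).symm
          _ = E' \ S ∪ S := by rw [e1]
          _ = E' := Finset.sdiff_union_of_subset hE'.2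
    rw [card_powersetCard, card_compl] at h1
    calc _ ≤ (Fintype.card P - S.card).choose (M - S.card) * (Fintype.card P) ^ S.card :=
          Nat.mul_le_mul_right _ h1
      _ ≤ _ := sup_arith _ _ hM _ h

theorem sub_arith (N a : ℕ) (ha : a ≤ N) (M : ℕ) :
    a.choose M * N ^ M ≤ a ^ M * N.choose M := by
  induction M with
  | zero => simp
  | succ M ih =>
    have h1 := Nat.choose_succ_right_eq a M
    have h2 := Nat.choose_succ_right_eq N M
    have h3 : (a - M) * N ≤ a * (N - M) := by
      rcases Nat.lt_or_ge a M with h | h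
      · have : a - M = 0 := by omega
        rw [this]
        simp
      · obtain ⟨b, hb⟩ : ∃ b, a = M + b := ⟨a - M, by omega⟩
        obtain ⟨c, hc⟩ : ∃ c, N = M + c := ⟨N - M, by omega⟩
        subst hb
        subst hc
        rw [Nat.add_sub_cancel_left, Nat.add_sub_cancel_left]
        have : b ≤ c := by omega
        nlinarith [Nat.mul_le_mul_left M this]
    have h4 : (M + 1) * (a.choose (M + 1) * N ^ (M + 1)) ≤
        (M + 1) * (a ^ (M + 1) * N.choose (M + 1)) := by
      calc (M + 1) * (a.choose (M + 1) * N ^ (M + 1))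
          = (a.choose (M + 1) * (M + 1)) * (N ^ M * N) := by ring
        _ = (a.choose M * N ^ M) * ((a - M) * N) := by rw [h1]; ring
        _ ≤ (a ^ M * N.choose M) * (a * (N - M)) := Nat.mul_le_mul ih h3
        _ = a ^ (M + 1) * (N.choose M * (N - M)) := by ring
        _ = (M + 1) * (a ^ (M + 1) * N.choose (M + 1)) := by rw [← h2]; ring
    exact Nat.le_of_mul_le_mul_left h4 (Nat.succ_pos M)

theorem sub_count {P : Type} [Fintype P] (M : ℕ) (T : Finset P) :
    (univ.filter (fun E : Finset P => E.card = M ∧ E ⊆ T)).card * (Fintype.card P) ^ M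
      ≤ T.card ^ M * (Fintype.card P).choose M := by
  have h1 : (univ.filter (fun E : Finset P => E.card = M ∧ E ⊆ T)) = powersetCard M T := by
    ext E
    simp only [mem_filter, mem_univ, true_and, mem_powersetCard]
    tauto
  rw [h1, card_powersetCard]
  exact sub_arith _ _ (Finset.card_le_univ T) M

theorem fact_lower (j : ℕ) : j ^ j ≤ 3 ^ j * j ! := by
  induction j with
  | zero => simp
  | succ j ih =>
    have h1 : (j + 1) ^ j ≤ 3 * j ^ j := by
      rcases Nat.eq_zero_or_pos j with h0 | h0
      · subst h0; simp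
      · have hj : (0 : ℝ) < j := by exact_mod_cast h0
        have h2 : ((j : ℝ) + 1) ^ j ≤ 3 * (j : ℝ) ^ j := by
          have e1 : (j : ℝ) + 1 = j * (1 / j + 1) := by field_simp; ring
          have e2 : (1 / (j : ℝ) + 1) ^ j ≤ 3 := by
            calc (1 / (j : ℝ) + 1) ^ j ≤ (Real.exp (1 / j)) ^ j := by
                  apply pow_le_pow_left₀ (by positivity)
                  exact Real.add_one_le_exp _
              _ = Real.exp 1 := by
                  rw [← Real.exp_nat_mul]
                  congr 1
                  field_simp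
              _ ≤ 3 := by
                  have := Real.exp_one_lt_d9
                  linarith
          rw [e1, mul_pow]
          have e3 : (0 : ℝ) ≤ (j : ℝ) ^ j := by positivity
          nlinarith
        exact_mod_cast h2
    calc (j + 1) ^ (j + 1) = (j + 1) ^ j * (j + 1) := by ring
      _ ≤ 3 * j ^ j * (j + 1) := Nat.mul_le_mul_right _ h1
      _ ≤ 3 * (3 ^ j * j !) * (j + 1) :=
          Nat.mul_le_mul_right _ (Nat.mul_le_mul_left _ ih)
      _ = 3 ^ (j + 1) * (j + 1)! := by rw [Nat.factorial_succ]; ring

theorem union_bound {P : Type} [Fintype P] [DecidableEq P] (M : ℕ) (hM : M ≤ Fintype.card P) (T : Finset P)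
    (j : ℕ) :
    (univ.filter (fun E : Finset P => E.card = M ∧ j ≤ (E ∩ T).card)).card
        * ((Fintype.card P) ^ j * j ^ j)
      ≤ (3 * T.card * M) ^ j * (Fintype.card P).choose M := by
  have h1 : (univ.filter (fun E : Finset P => E.card = M ∧ j ≤ (E ∩ T).card)).card ≤
      ∑ S ∈ powersetCard j T, (univ.filter (fun E : Finset P => E.card = M ∧ S ⊆ E)).card := by
    refine le_trans (Finset.card_le_card ?_) Finset.card_biUnion_le
    intro E hE
    simp only [mem_filter, mem_univ, true_and] at hE
    obtain ⟨S, hS, hSc⟩ := Finset.exists_subset_card_eq hE.2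
    rw [Finset.mem_biUnion]
    refine ⟨S, mem_powersetCard.mpr ⟨fun x hx => ?_, hSc⟩, ?_⟩
    · exact (Finset.mem_inter.mp (hS hx)).2
    · simp only [mem_filter, mem_univ, true_and]
      exact ⟨hE.1, fun x hx => (Finset.mem_inter.mp (hS hx)).1⟩
  have h2 : (univ.filter (fun E : Finset P => E.card = M ∧ j ≤ (E ∩ T).card)).card *
      (Fintype.card P) ^ j ≤ T.card.choose j * (M ^ j * (Fintype.card P).choose M) := by
    calc _ ≤ (∑ S ∈ powersetCard j T,
          (univ.filter (fun E : Finset P => E.card = M ∧ S ⊆ E)).card) *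
            (Fintype.card P) ^ j := Nat.mul_le_mul_right _ h1
      _ = ∑ S ∈ powersetCard j T,
          (univ.filter (fun E : Finset P => E.card = M ∧ S ⊆ E)).card *
            (Fintype.card P) ^ j := Finset.sum_mul _ _ _
      _ ≤ ∑ S ∈ powersetCard j T, M ^ j * (Fintype.card P).choose M := by
          apply Finset.sum_le_sum
          intro S hS
          have hc := (mem_powersetCard.mp hS).2
          have := sup_count M hM S
          rw [hc] at this
          refine le_trans (le_of_eq ?_) this
          congr 2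
          ext E
          simp only [mem_filter, mem_univ, true_and]
      _ = _ := by rw [Finset.sum_const, card_powersetCard, smul_eq_mul]
  have h3 : T.card.choose j * j ^ j ≤ 3 ^ j * T.card ^ j := by
    calc T.card.choose j * j ^ j ≤ T.card.choose j * (3 ^ j * j !) :=
          Nat.mul_le_mul_left _ (fact_lower j)
      _ = 3 ^ j * (j ! * T.card.choose j) := by ring
      _ = 3 ^ j * T.card.descFactorial j := by rw [Nat.descFactorial_eq_factorial_mul_choose]
      _ ≤ 3 ^ j * T.card ^ j := Nat.mul_le_mul_left _ (Nat.descFactorial_le_pow _ _)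
  calc _ = ((univ.filter (fun E : Finset P => E.card = M ∧ j ≤ (E ∩ T).card)).card *
        (Fintype.card P) ^ j) * j ^ j := by ring
    _ ≤ (T.card.choose j * (M ^ j * (Fintype.card P).choose M)) * j ^ j :=
        Nat.mul_le_mul_right _ h2
    _ = (T.card.choose j * j ^ j) * (M ^ j * (Fintype.card P).choose M) := by ring
    _ ≤ (3 ^ j * T.card ^ j) * (M ^ j * (Fintype.card P).choose M) := Nat.mul_le_mul_right _ h3
    _ = _ := by rw [mul_pow, mul_pow]; ring

end Pool.Agent.Work.MP_73831e_pr
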