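import Pool.Agent.Work.MP_73831e_pr.Basic
import Pool.Agent.Work.MP_73831e_pr.Sup

/-!
MODULE B1.  For suitable `C`, few edge sets with `C n` edges are `k`-colourable.

Proof.  Union over the `k^n` maps `f : Fin n → Fin k`.  For fixed `f` the edge set must lie in
`T_f` = set of pairs `e = {u,v}` with `f u ≠ f v`.  If `n_i` are the sizes of the classes of `f`,
`|T_f| = N - ∑ n_i (n_i - 1)/2` and `∑ n_i² ≥ n²/k` (Cauchy–Schwarz, `inner_mul_le_norm_mul_norm`,
`sq_sum_le_card_mul_sum_sq`), so for `n ≥ 2k`: `2k |T_f| ≤ (2k-1) N`.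
(Check: need `(n²/k - n)/2 ≥ n(n-1)/(4k)`, i.e. `2n - 2k ≥ n - 1`.)
By `sub_count` the number of `M`-sets inside `T_f` is `≤ (|T_f|/N)^M C(N,M)
≤ ((2k-1)/(2k))^{C n} C(N,M)`.  Choose `C ≥ 1` with `k ((2k-1)/(2k))^C ≤ 1/2`.
-/

open Finset
open scoped Classical Nat

namespace Pool.Agent.Work.MP_73831e_pr

/-- The graph of the pairs with equal colours. -/
def monoG {n k : ℕ} (f : Fin n → Fin k) : SimpleGraph (Fin n) where
  Adj u v := u ≠ v ∧ f u = f v
  symm := ⟨fun _ _ h => ⟨h.1.symm, h.2.symm⟩⟩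
  loopless := ⟨fun _ h => h.1 rfl⟩

theorem mono_card {n k : ℕ} (f : Fin n → Fin k) :
    (univ.filter (fun e : Pr n => e.1 ∈ (monoG f).edgeSet)).card = (monoG f).edgeFinset.card := by
  apply Finset.card_bij (fun e _ => e.1)
  · intro e he
    simp only [mem_filter, mem_univ, true_and] at he
    rw [SimpleGraph.mem_edgeFinset]
    exact he
  · intro e _ e' _ h
    exact Subtype.ext h
  · intro e he
    rw [SimpleGraph.mem_edgeFinset] at he
    exact ⟨⟨e, (monoG f).not_isDiag_of_mem_edgeSet he⟩, by simpa using he, rfl⟩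

theorem mono_sum {n k : ℕ} (f : Fin n → Fin k) :
    2 * (monoG f).edgeFinset.card + n = ∑ c : Fin k, (univ.filter (fun v => f v = c)).card ^ 2 := by
  rw [← SimpleGraph.sum_degrees_eq_twice_card_edges]
  have h1 : ∀ v, (monoG f).degree v + 1 = (univ.filter (fun w => f w = f v)).card := by
    intro v
    rw [← SimpleGraph.card_neighborFinset_eq_degree]
    have : (univ.filter (fun w => f w = f v)) = insert v ((monoG f).neighborFinset v) := by
      ext w
      rw [Finset.mem_insert, SimpleGraph.mem_neighborFinset]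
      simp only [mem_filter, mem_univ, true_and]
      constructor
      · intro h
        by_cases hw : w = v
        · exact Or.inl hw
        · exact Or.inr ⟨fun h' => hw h'.symm, h.symm⟩
      · rintro (h | h)
        · rw [h]
        · exact h.2.symm
    rw [this, Finset.card_insert_of_notMem]
    rw [SimpleGraph.mem_neighborFinset]
    exact fun h => h.1 rfl
  calc ∑ v, (monoG f).degree v + n = ∑ v, ((monoG f).degree v + 1) := by
        rw [Finset.sum_add_distrib]; simp
    _ = ∑ v, (univ.filter (fun w => f w = f v)).card := Finset.sum_congr rfl fun v _ => h1 v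
    _ = ∑ c : Fin k, ∑ v ∈ univ.filter (fun v => f v = c),
          (univ.filter (fun w => f w = f v)).card := by
        rw [Finset.sum_fiberwise]
    _ = _ := by
        apply Finset.sum_congr rfl
        intro c _
        rw [Finset.sum_congr rfl (g := fun _ => (univ.filter (fun w => f w = c)).card)]
        · rw [Finset.sum_const, smul_eq_mul, sq]
        · intro v hv
          simp only [mem_filter, mem_univ, true_and] at hv
          rw [hv]

theorem mono_ge {n k : ℕ} (f : Fin n → Fin k) :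
    n ^ 2 ≤ k * (2 * (monoG f).edgeFinset.card + n) := by
  rw [mono_sum]
  have h1 : n = ∑ c : Fin k, (univ.filter (fun v => f v = c)).card := by
    have := Finset.card_eq_sum_card_fiberwise (s := (univ : Finset (Fin n)))
      (t := (univ : Finset (Fin k))) (f := f) (fun _ _ => Finset.mem_coe.mpr (mem_univ _))
    simpa using this
  have h2 := sq_sum_le_card_mul_sum_sq (s := (univ : Finset (Fin k)))
    (f := fun c => (univ.filter (fun v => f v = c)).card)
  rw [← h1, Finset.card_univ, Fintype.card_fin] at h2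
  exact h2

/-- The pairs with different colours. -/
noncomputable def Tf {n k : ℕ} (f : Fin n → Fin k) : Finset (Pr n) :=
  univ.filter (fun e : Pr n => e.1 ∉ (monoG f).edgeSet)

theorem Tf_card {n k : ℕ} (hk : 1 ≤ k) (hn : 2 * k ≤ n) (f : Fin n → Fin k) :
    2 * k * (Tf f).card ≤ (2 * k - 1) * NN n := by
  have h1 : (univ.filter (fun e : Pr n => e.1 ∈ (monoG f).edgeSet)).card + (Tf f).card = NN n := by
    have := Finset.card_filter_add_card_filter_not (s := (univ : Finset (Pr n)))
      (fun e : Pr n => e.1 ∈ (monoG f).edgeSet)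
    unfold Tf NN
    rw [this, Finset.card_univ]
  rw [mono_card] at h1
  have h2 := mono_ge f
  have h3 := two_NN n
  generalize (monoG f).edgeFinset.card = m at h1 h2
  generalize (Tf f).card = t at h1
  generalize NN n = N at h1 h3
  have h5 : 2 * N + n = n ^ 2 := by
    rw [h3]
    obtain ⟨i, rfl⟩ : ∃ i, n = i + 1 := ⟨n - 1, by omega⟩
    rw [Nat.add_sub_cancel]
    ring
  have h6 : 2 * (k * n) ≤ n ^ 2 := by
    calc 2 * (k * n) = (2 * k) * n := by ring
      _ ≤ n * n := Nat.mul_le_mul_right _ hn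
      _ = n ^ 2 := by ring
  have h7 : k * (2 * m + n) = 2 * (k * m) + k * n := by ring
  rw [h7] at h2
  have h4 : N ≤ 2 * (k * m) := by omega
  have h8 : k * N = k * m + k * t := by rw [← h1]; ring
  have h9 : 2 * k * t = 2 * (k * t) := by ring
  have h10 : (2 * k - 1) * N = 2 * (k * N) - N := by
    rw [Nat.sub_mul]
    congr 1 <;> ring
  rw [h9, h10]
  omega

theorem B1 (k : ℕ) (hk : 1 ≤ k) : ∃ C : ℕ, 1 ≤ C ∧ ∃ n₀ : ℕ, ∀ n ≥ n₀,
    (univ.filter (fun E : Finset (Pr n) => E.card = C * n ∧ Alive k (gr E))).card * 2 ^ n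
      ≤ (NN n).choose (C * n) := by
  obtain ⟨C, hC⟩ : ∃ C : ℕ, ((2 * (k : ℝ) - 1) / (2 * k)) ^ C < 1 / (2 * k) := by
    have hk' : (1 : ℝ) ≤ k := by exact_mod_cast hk
    apply exists_pow_lt_of_lt_one (by positivity)
    rw [div_lt_one (by positivity)]
    linarith
  have hk' : (1 : ℝ) ≤ k := by exact_mod_cast hk
  have hC1 : 1 ≤ C := by
    by_contra h
    have : C = 0 := by omega
    subst this
    rw [pow_zero, lt_div_iff₀ (by positivity)] at hC
    linarith
  have hC2 : 2 * k * (2 * k - 1) ^ C ≤ (2 * k) ^ C := by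
    have h1 : (2 * (k : ℝ)) * (2 * k - 1) ^ C ≤ (2 * (k : ℝ)) ^ C := by
      rw [div_pow, div_lt_div_iff₀ (by positivity) (by positivity)] at hC
      linarith
    have h2 : (((2 * k * (2 * k - 1) ^ C : ℕ)) : ℝ) ≤ (((2 * k) ^ C : ℕ) : ℝ) := by
      rw [Nat.cast_mul, Nat.cast_pow, Nat.cast_sub (by omega)]
      push_cast
      exact h1
    exact_mod_cast h2
  refine ⟨C, hC1, 2 * k, fun n hn => ?_⟩
  set M := C * n with hM
  have hNpos : 0 < NN n := by
    have h1 := two_NN n
    have : 0 < n * (n - 1) := Nat.mul_pos (by omega) (by omega)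
    omega
  -- one colouring
  have h1 : ∀ f : Fin n → Fin k,
      (univ.filter (fun E : Finset (Pr n) => E.card = M ∧ E ⊆ Tf f)).card * (2 * k) ^ M ≤
        (2 * k - 1) ^ M * (NN n).choose M := by
    intro f
    have a1 : (univ.filter (fun E : Finset (Pr n) => E.card = M ∧ E ⊆ Tf f)).card *
        (Fintype.card (Pr n)) ^ M ≤ (Tf f).card ^ M * (Fintype.card (Pr n)).choose M := by
      refine le_trans (le_of_eq ?_) (sub_count M (Tf f))
      congr 2
      ext E
      simp only [mem_filter, mem_univ, true_and]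
    have a2 := Tf_card hk hn f
    have a3 : (univ.filter (fun E : Finset (Pr n) => E.card = M ∧ E ⊆ Tf f)).card * (2 * k) ^ M *
        (NN n) ^ M ≤ (2 * k - 1) ^ M * (NN n).choose M * (NN n) ^ M := by
      calc _ = ((univ.filter (fun E : Finset (Pr n) => E.card = M ∧ E ⊆ Tf f)).card *
            (Fintype.card (Pr n)) ^ M) * (2 * k) ^ M := by
            unfold NN; ring
        _ ≤ ((Tf f).card ^ M * (Fintype.card (Pr n)).choose M) * (2 * k) ^ M :=
            Nat.mul_le_mul_right _ a1
        _ = (2 * k * (Tf f).card) ^ M * (NN n).choose M := by unfold NN; rw [mul_pow]; ring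
        _ ≤ ((2 * k - 1) * NN n) ^ M * (NN n).choose M :=
            Nat.mul_le_mul_right _ (Nat.pow_le_pow_left a2 M)
        _ = _ := by rw [mul_pow]; ring
    exact Nat.le_of_mul_le_mul_right a3 (Nat.pow_pos hNpos)
  have h2 : (univ.filter (fun E : Finset (Pr n) => E.card = M ∧ Alive k (gr E))).card ≤
      ∑ f : Fin n → Fin k,
        (univ.filter (fun E : Finset (Pr n) => E.card = M ∧ E ⊆ Tf f)).card := by
    refine le_trans (Finset.card_le_card ?_) Finset.card_biUnion_le
    intro E hE
    simp only [mem_filter, mem_univ, true_and] at hE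
    obtain ⟨hc, f, hf⟩ := hE
    rw [Finset.mem_biUnion]
    refine ⟨f, mem_univ _, ?_⟩
    simp only [mem_filter, mem_univ, true_and]
    refine ⟨hc, fun e he => ?_⟩
    unfold Tf
    simp only [mem_filter, mem_univ, true_and]
    obtain ⟨e, hd⟩ := e
    induction e using Sym2.ind with
    | _ u v =>
      intro h
      rw [SimpleGraph.mem_edgeSet] at h
      refine hf u v ?_ h.2
      unfold gr
      rw [SimpleGraph.fromEdgeSet_adj]
      exact ⟨⟨⟨s(u, v), hd⟩, he, rfl⟩, h.1⟩
  have h3 : (univ.filter (fun E : Finset (Pr n) => E.card = M ∧ Alive k (gr E))).card *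
      (2 * k) ^ M ≤ k ^ n * ((2 * k - 1) ^ M * (NN n).choose M) := by
    calc _ ≤ (∑ f : Fin n → Fin k,
        (univ.filter (fun E : Finset (Pr n) => E.card = M ∧ E ⊆ Tf f)).card) * (2 * k) ^ M :=
          Nat.mul_le_mul_right _ h2
      _ = ∑ f : Fin n → Fin k,
        (univ.filter (fun E : Finset (Pr n) => E.card = M ∧ E ⊆ Tf f)).card * (2 * k) ^ M :=
          Finset.sum_mul _ _ _
      _ ≤ ∑ f : Fin n → Fin k, (2 * k - 1) ^ M * (NN n).choose M :=
          Finset.sum_le_sum fun f _ => h1 f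
      _ = _ := by
          rw [Finset.sum_const, Finset.card_univ, Fintype.card_fun, Fintype.card_fin,
            Fintype.card_fin, smul_eq_mul]
  have h4 : 2 ^ n * (k ^ n * (2 * k - 1) ^ M) ≤ (2 * k) ^ M := by
    calc 2 ^ n * (k ^ n * (2 * k - 1) ^ M) = (2 * k * (2 * k - 1) ^ C) ^ n := by
          rw [hM, mul_pow, mul_pow, ← pow_mul]; ring
      _ ≤ ((2 * k) ^ C) ^ n := Nat.pow_le_pow_left hC2 n
      _ = (2 * k) ^ M := by rw [← pow_mul]
  have h5 : (univ.filter (fun E : Finset (Pr n) => E.card = M ∧ Alive k (gr E))).card * 2 ^ n *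
      (2 * k) ^ M ≤ (NN n).choose M * (2 * k) ^ M := by
    calc _ = 2 ^ n * ((univ.filter (fun E : Finset (Pr n) => E.card = M ∧ Alive k (gr E))).card *
          (2 * k) ^ M) := by ring
      _ ≤ 2 ^ n * (k ^ n * ((2 * k - 1) ^ M * (NN n).choose M)) := Nat.mul_le_mul_left _ h3
      _ = (2 ^ n * (k ^ n * (2 * k - 1) ^ M)) * (NN n).choose M := by ring
      _ ≤ (2 * k) ^ M * (NN n).choose M := Nat.mul_le_mul_right _ h4
      _ = _ := by ring
  exact Nat.le_of_mul_le_mul_right h5 (Nat.pow_pos (by omega))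

end Pool.Agent.Work.MP_73831e_pr
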