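import Pool.Agent.Work.MP_73831e_pr.Basic
import Pool.Agent.Work.MP_73831e_pr.Sup

/-!
MODULE B2.  Random graphs with `C n` edges are locally sparse.

Proof.  `M = C n`.  If `gr E` is not `Sparse L`, there is `S` with `s = |S|`, `4 ≤ s ≤ L+1` and at
least `r = ⌈5s/4⌉` of the `|T| = s(s-1)/2` pairs inside `S` are in `E`.  By `union_bound` (with
`T` = pairs inside `S`, `j = r`) the proportion of such `E` is at most
`(3 |T| M / (N r))^r ≤ (3 (s²/2) C n / ((n(n-1)/2) r))^r ≤ (6 C s / n)^r` for `n ≥ 2`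
(`r ≥ s`, `n - 1 ≥ n/2`).  As `6 C s/n ≤ 1` (if `K₁` is large) and `4r ≥ 5s`, the fourth power of
this is `≤ (6 C s/n)^{5s}`.  The number of `S` of size `s` is `C(n,s) ≤ n^s/s! ≤ (3n/s)^s`
(`fact_lower`).  So the expected number of bad `S` of size `s` is at most
`(3n/s)^s (6Cs/n)^{5s/4} = (A s/n)^{s/4}` with `A = 81 (6C)^5`.
For `4 ≤ s ≤ n/(16 A)`: `(A s/n)^{s/4} ≤ (A s/n) (1/16)^{s/4 - 1} = (16 A/n) s 2^{-s}`,
(in fourth powers: `(A s/n)^s ≤ (A s/n)^4 16^{-(s-4)}`), and `∑ s 2^{-s} ≤ 2`.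
So the proportion of bad `E` is `≤ 32 A/n`.  Choose `K₁` with `s ≤ n/K₁ + 1 ≤ n/(16A)` for
`n ≥ n₀` (e.g. `K₁ = 32 A`, `n₀ = 32 A`), `K = 32 A`.
-/

open Finset
open scoped Classical Nat

namespace Pool.Agent.Work.MP_73831e_pr

/-- pairs inside `S` -/
private def SP {n : ℕ} (S : Finset (Fin n)) : Finset (Pr n) :=
  univ.filter (fun e : Pr n => ∀ v ∈ e.1, v ∈ S)

private theorem spn_gr {n : ℕ} (E : Finset (Pr n)) (S : Finset (Fin n)) :
    spn (gr E) S = (E ∩ SP S).card := by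
  unfold spn
  have h : {e ∈ (gr E).edgeSet | ∀ v ∈ e, v ∈ S} = Subtype.val '' ((E ∩ SP S : Finset (Pr n)) : Set (Pr n)) := by
    ext e
    simp only [Set.mem_ofPred_eq, mem_edgeSet_gr, Set.mem_image, Finset.mem_coe, Finset.mem_inter, SP,
      Finset.mem_filter, Finset.mem_univ, true_and]
    constructor
    · rintro ⟨⟨x, hx, rfl⟩, h⟩
      exact ⟨x, ⟨hx, h⟩, rfl⟩
    · rintro ⟨x, ⟨hx, h⟩, rfl⟩
      exact ⟨⟨x, hx, rfl⟩, h⟩
  rw [h, Set.ncard_image_of_injective _ Subtype.val_injective, Set.ncard_coe_finset]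

private theorem SP_card {n : ℕ} (S : Finset (Fin n)) : 2 * (SP S).card ≤ S.card * S.card := by
  have h1 : ((SP S).image Subtype.val) ⊆ S.offDiag.image (fun p => s(p.1, p.2)) := by
    intro e he
    simp only [Finset.mem_image, SP, Finset.mem_filter, Finset.mem_univ, true_and] at he
    obtain ⟨x, hx, rfl⟩ := he
    obtain ⟨⟨u, v⟩, huv⟩ := Quot.exists_rep x.1
    have huv' : x.1 = s(u, v) := huv.symm
    have h2 := x.2
    rw [huv'] at h2 hx
    simp only [Finset.mem_image, Finset.mem_offDiag]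
    refine ⟨(u, v), ⟨hx u (Sym2.mem_mk_left u v), hx v (Sym2.mem_mk_right u v), ?_⟩, huv'.symm⟩
    intro h
    exact h2 (Sym2.mk_isDiag_iff.2 h)
  have h2 := Finset.card_le_card h1
  rw [Finset.card_image_of_injective _ Subtype.val_injective] at h2
  have h3 : (S.offDiag.image (fun p => s(p.1, p.2))).card = S.card.choose 2 := Sym2.card_image_offDiag S
  rw [h3] at h2
  have h4 := Nat.choose_two_right S.card
  have h5 : 2 * (S.card * (S.card - 1) / 2) ≤ S.card * (S.card - 1) := Nat.mul_div_le _ _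
  calc 2 * (SP S).card ≤ 2 * (S.card * (S.card - 1) / 2) := by rw [← h4]; omega
    _ ≤ S.card * (S.card - 1) := h5
    _ ≤ S.card * S.card := Nat.mul_le_mul_left _ (Nat.sub_le _ _)

/-- number of `E` with many edges inside `S` -/
private def cnt (C n : ℕ) (S : Finset (Fin n)) : ℕ :=
  (univ.filter (fun E : Finset (Pr n) => E.card = C * n ∧ 5 * S.card ≤ 4 * (E ∩ SP S).card)).card

private theorem cnt_bound (C n : ℕ) (hC : 1 ≤ C) (hn : 2 * C + 2 ≤ n) (S : Finset (Fin n)) (hs : 1 ≤ S.card)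
    (hsn : 6 * C * S.card ≤ n) :
    (cnt C n S) ^ 4 * n ^ (5 * S.card) ≤ (6 * C * S.card) ^ (5 * S.card) * ((NN n).choose (C * n)) ^ 4 := by
  have hN2 : 2 * NN n = n * (n - 1) := two_NN n
  have hMN : C * n ≤ NN n := by
    have h1 : 2 * (C * n) ≤ n * (n - 1) := by
      calc 2 * (C * n) = n * (2 * C) := by ring
        _ ≤ n * (n - 1) := Nat.mul_le_mul_left _ (by omega)
    omega
  have hn2 : n * n ≤ 4 * NN n := by
    have h1 : n * n ≤ 2 * (n * (n - 1)) := by
      calc n * n ≤ n * (2 * (n - 1)) := Nat.mul_le_mul_left _ (by omega)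
        _ = 2 * (n * (n - 1)) := by ring
    omega
  have hN0 : 0 < NN n := by
    have : 0 < C * n := Nat.mul_pos (by omega) (by omega)
    omega
  set s := S.card with hsdef
  obtain ⟨r, hr1, hr2⟩ : ∃ r, 5 * s ≤ 4 * r ∧ ∀ t, 5 * s ≤ 4 * t → r ≤ t :=
    ⟨(5 * s + 3) / 4, by omega, fun t ht => by omega⟩
  have hrs : s ≤ r := by omega
  have hub := union_bound (P := Pr n) (C * n) hMN (SP S) r
  change _ * (NN n ^ r * r ^ r) ≤ _ * (NN n).choose (C * n) at hub
  have hcnt : cnt C n S ≤ (univ.filter (fun E : Finset (Pr n) => E.card = C * n ∧ r ≤ (E ∩ SP S).card)).card := by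
    refine Finset.card_le_card fun E hE => ?_
    rw [Finset.mem_filter] at hE ⊢
    exact ⟨hE.1, hE.2.1, hr2 _ hE.2.2⟩
  have hSP := SP_card S
  have hb : 3 * (SP S).card * (C * n) * n ≤ (6 * C * s) * (NN n * r) := by
    have e2 : 2 * (3 * (SP S).card * (C * n) * n) ≤ 2 * ((6 * C * s) * (NN n * r)) := by
      calc 2 * (3 * (SP S).card * (C * n) * n) = 3 * C * (2 * (SP S).card) * (n * n) := by ring
        _ ≤ 3 * C * (s * s) * (4 * NN n) := by gcongr
        _ = 12 * C * s * NN n * s := by ring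
        _ ≤ 12 * C * s * NN n * r := by gcongr
        _ = 2 * ((6 * C * s) * (NN n * r)) := by ring
    omega
  have h1 : cnt C n S * n ^ r ≤ (6 * C * s) ^ r * (NN n).choose (C * n) := by
    have hpos : 0 < NN n ^ r * r ^ r := by
      have : 0 < r := by omega
      positivity
    refine Nat.le_of_mul_le_mul_left ?_ hpos
    calc (NN n ^ r * r ^ r) * (cnt C n S * n ^ r) = (cnt C n S * (NN n ^ r * r ^ r)) * n ^ r := by ring
      _ ≤ ((univ.filter (fun E : Finset (Pr n) => E.card = C * n ∧ r ≤ (E ∩ SP S).card)).card *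
          (NN n ^ r * r ^ r)) * n ^ r := by gcongr
      _ ≤ ((3 * (SP S).card * (C * n)) ^ r * (NN n).choose (C * n)) * n ^ r := Nat.mul_le_mul_right _ hub
      _ = (3 * (SP S).card * (C * n) * n) ^ r * (NN n).choose (C * n) := by rw [mul_pow _ n r]; ring
      _ ≤ ((6 * C * s) * (NN n * r)) ^ r * (NN n).choose (C * n) :=
          Nat.mul_le_mul_right _ (Nat.pow_le_pow_left hb r)
      _ = (NN n ^ r * r ^ r) * ((6 * C * s) ^ r * (NN n).choose (C * n)) := by
          rw [mul_pow (6 * C * s) (NN n * r) r, mul_pow (NN n) r r]; ring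
  have h2 : cnt C n S ^ 4 * n ^ (4 * r) ≤ (6 * C * s) ^ (4 * r) * ((NN n).choose (C * n)) ^ 4 := by
    calc cnt C n S ^ 4 * n ^ (4 * r) = (cnt C n S * n ^ r) ^ 4 := by rw [mul_pow, ← pow_mul, mul_comm r 4]
      _ ≤ ((6 * C * s) ^ r * (NN n).choose (C * n)) ^ 4 := Nat.pow_le_pow_left h1 4
      _ = _ := by rw [mul_pow, ← pow_mul, mul_comm r 4]
  obtain ⟨d, hd⟩ := Nat.exists_eq_add_of_le hr1
  rw [hd, pow_add, pow_add] at h2
  have hnd : 0 < n ^ d := Nat.pow_pos (by omega)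
  refine Nat.le_of_mul_le_mul_left ?_ hnd
  calc n ^ d * (cnt C n S ^ 4 * n ^ (5 * s)) = cnt C n S ^ 4 * (n ^ (5 * s) * n ^ d) := by ring
    _ ≤ (6 * C * s) ^ (5 * s) * (6 * C * s) ^ d * (NN n).choose (C * n) ^ 4 := h2
    _ ≤ (6 * C * s) ^ (5 * s) * n ^ d * (NN n).choose (C * n) ^ 4 :=
        Nat.mul_le_mul_right _ (Nat.mul_le_mul_left _ (Nat.pow_le_pow_left hsn d))
    _ = n ^ d * ((6 * C * s) ^ (5 * s) * (NN n).choose (C * n) ^ 4) := by ring

private def tot (C n s : ℕ) : ℕ := ∑ S ∈ (univ : Finset (Fin n)).powersetCard s, cnt C n S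

private theorem tot_bound (C n s : ℕ) (hC : 1 ≤ C) (hn : 2 * C + 2 ≤ n) (hs : 1 ≤ s)
    (hsn : 6 * C * s ≤ n) :
    (tot C n s) ^ 4 * n ^ s ≤ (81 * (6 * C) ^ 5 * s) ^ s * ((NN n).choose (C * n)) ^ 4 := by
  have hsn' : s ≤ n := le_trans (by nlinarith) hsn
  have hne : ((univ : Finset (Fin n)).powersetCard s).Nonempty := by
    rw [Finset.powersetCard_nonempty, Finset.card_univ, Fintype.card_fin]
    exact hsn'
  obtain ⟨S0, hS0, hmax⟩ := Finset.exists_max_image _ (cnt C n) hne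
  have hS0c : S0.card = s := (Finset.mem_powersetCard.1 hS0).2
  have h1 : tot C n s ≤ n.choose s * cnt C n S0 := by
    unfold tot
    calc ∑ S ∈ (univ : Finset (Fin n)).powersetCard s, cnt C n S ≤
        ∑ S ∈ (univ : Finset (Fin n)).powersetCard s, cnt C n S0 := Finset.sum_le_sum hmax
      _ = n.choose s * cnt C n S0 := by
        rw [Finset.sum_const, Finset.card_powersetCard, Finset.card_univ, Fintype.card_fin, smul_eq_mul]
  have h2 := cnt_bound C n hC hn S0 (by omega) (by rw [hS0c]; exact hsn)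
  rw [hS0c] at h2
  have h3 : n.choose s * s ^ s ≤ (3 * n) ^ s := by
    have e1 := fact_lower s
    have e2 : n.choose s * s ! ≤ n ^ s := by
      have := Nat.descFactorial_le_pow n s
      rw [Nat.descFactorial_eq_factorial_mul_choose] at this
      rw [mul_comm]
      exact this
    calc n.choose s * s ^ s ≤ n.choose s * (3 ^ s * s !) := Nat.mul_le_mul_left _ e1
      _ = 3 ^ s * (n.choose s * s !) := by ring
      _ ≤ 3 ^ s * n ^ s := Nat.mul_le_mul_left _ e2
      _ = (3 * n) ^ s := (mul_pow _ _ _).symm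
  have hpos : 0 < n ^ (4 * s) * s ^ (4 * s) := by
    have : 0 < n := by omega
    positivity
  refine Nat.le_of_mul_le_mul_left ?_ hpos
  calc n ^ (4 * s) * s ^ (4 * s) * (tot C n s ^ 4 * n ^ s)
      = tot C n s ^ 4 * (n ^ (5 * s) * s ^ (4 * s)) := by
        have : n ^ (5 * s) = n ^ (4 * s) * n ^ s := by rw [← pow_add]; congr 1; ring
        rw [this]; ring
    _ ≤ (n.choose s * cnt C n S0) ^ 4 * (n ^ (5 * s) * s ^ (4 * s)) :=
        Nat.mul_le_mul_right _ (Nat.pow_le_pow_left h1 4)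
    _ = (n.choose s * s ^ s) ^ 4 * (cnt C n S0 ^ 4 * n ^ (5 * s)) := by
        rw [mul_pow, mul_pow, ← pow_mul, mul_comm s 4]; ring
    _ ≤ ((3 * n) ^ s) ^ 4 * ((6 * C * s) ^ (5 * s) * ((NN n).choose (C * n)) ^ 4) :=
        Nat.mul_le_mul (Nat.pow_le_pow_left h3 4) h2
    _ = n ^ (4 * s) * s ^ (4 * s) * ((81 * (6 * C) ^ 5 * s) ^ s * ((NN n).choose (C * n)) ^ 4) := by
        have e1 : ((3 * n) ^ s) ^ 4 = 81 ^ s * n ^ (4 * s) := by
          rw [← pow_mul, mul_comm s 4, mul_pow, pow_mul 3 4 s]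
          norm_num
        have e2 : (6 * C * s) ^ (5 * s) = ((6 * C) ^ 5) ^ s * s ^ s * s ^ (4 * s) := by
          rw [mul_pow (6 * C) s (5 * s), ← pow_mul, mul_assoc, ← pow_add]
          congr 2
          ring
        rw [e1, e2, mul_pow _ s s, mul_pow 81 _ s]
        generalize ((6 * C) ^ 5) ^ s = Z
        ring

private theorem tot_bound' (C n s : ℕ) (hC : 1 ≤ C) (hn : 2 * C + 2 ≤ n) (hs : 4 ≤ s)
    (hsn : 16 * (81 * (6 * C) ^ 5) * s ≤ n) :
    tot C n s * n * 2 ^ s ≤ 16 * (81 * (6 * C) ^ 5) * s * (NN n).choose (C * n) := by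
  set A := 81 * (6 * C) ^ 5 with hA
  have h6 : 6 * C ≤ A := by
    have : (6 * C) ≤ (6 * C) ^ 5 := Nat.le_self_pow (by norm_num) _
    omega
  have h1 := tot_bound C n s hC hn (by omega) (by
    refine le_trans ?_ hsn
    exact Nat.mul_le_mul_right _ (by omega))
  rw [← hA] at h1
  obtain ⟨t, ht⟩ := Nat.exists_eq_add_of_le hs
  have h2 : (tot C n s * n * 2 ^ s) ^ 4 ≤ (16 * A * s * (NN n).choose (C * n)) ^ 4 := by
    have hpos : 0 < n ^ t := Nat.pow_pos (by omega)
    refine Nat.le_of_mul_le_mul_left ?_ hpos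
    have e16 : (2 ^ s) ^ 4 = 16 ^ s := by
      rw [← pow_mul, mul_comm s 4, pow_mul]
      norm_num
    calc n ^ t * (tot C n s * n * 2 ^ s) ^ 4 = (tot C n s ^ 4 * (n ^ 4 * n ^ t)) * 16 ^ s := by
          rw [mul_pow, mul_pow, e16]; ring
      _ = (tot C n s ^ 4 * n ^ s) * 16 ^ s := by rw [← pow_add, ← ht]
      _ ≤ ((A * s) ^ s * (NN n).choose (C * n) ^ 4) * 16 ^ s := Nat.mul_le_mul_right _ h1
      _ = (16 * A * s) ^ s * (NN n).choose (C * n) ^ 4 := by
          rw [mul_assoc 16 A s, mul_pow 16 (A * s) s]; ring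
      _ = (16 * A * s) ^ t * ((16 * A * s) ^ 4 * (NN n).choose (C * n) ^ 4) := by
          have e5 : (16 * A * s) ^ s = (16 * A * s) ^ (4 + t) := congrArg (fun x => (16 * A * s) ^ x) ht
          rw [e5, pow_add]
          generalize 16 * A * s = Y
          ring
      _ ≤ n ^ t * ((16 * A * s) ^ 4 * (NN n).choose (C * n) ^ 4) :=
          Nat.mul_le_mul_right _ (Nat.pow_le_pow_left hsn t)
      _ = n ^ t * (16 * A * s * (NN n).choose (C * n)) ^ 4 := by rw [mul_pow _ ((NN n).choose _) 4]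
  exact (Nat.pow_le_pow_iff_left (by norm_num)).1 h2

private theorem geo (m : ℕ) : ∑ s ∈ Finset.range m, (s : ℝ) / 2 ^ s = 2 - (m + 1) * 2 / 2 ^ m := by
  induction m with
  | zero => norm_num
  | succ m ih =>
    rw [Finset.sum_range_succ, ih, pow_succ]
    push_cast
    field_simp
    ring

theorem B2 (C : ℕ) (hC : 1 ≤ C) : ∃ K₁ : ℕ, 1 ≤ K₁ ∧ ∃ K n₀ : ℕ, ∀ n ≥ n₀,
    (univ.filter (fun E : Finset (Pr n) => E.card = C * n ∧ ¬ Sparse (n / K₁) (gr E))).card * n
      ≤ K * (NN n).choose (C * n) := by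
  set A := 81 * (6 * C) ^ 5 with hA
  have hA1 : 1 ≤ A := by
    have : 0 < (6 * C) ^ 5 := by positivity
    omega
  refine ⟨32 * A, by omega, 32 * A, 32 * A + (2 * C + 2), fun n hn => ?_⟩
  have hsmall : ∀ s, s ≤ n / (32 * A) + 1 → 16 * A * s ≤ n := by
    intro s hs
    have h1 : 32 * A * (n / (32 * A)) ≤ n := Nat.mul_div_le _ _
    have h2 : 16 * A * s ≤ 16 * A * (n / (32 * A) + 1) := Nat.mul_le_mul_left _ hs
    have h3 : 2 * (16 * A * (n / (32 * A) + 1)) = 32 * A * (n / (32 * A)) + 32 * A := by ring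
    omega
  have hsub : univ.filter (fun E : Finset (Pr n) => E.card = C * n ∧ ¬ Sparse (n / (32 * A)) (gr E)) ⊆
      ((Finset.range (n / (32 * A) + 2)).filter (fun s => 4 ≤ s)).biUnion (fun s =>
        ((univ : Finset (Fin n)).powersetCard s).biUnion (fun S =>
          univ.filter (fun E : Finset (Pr n) => E.card = C * n ∧ 5 * S.card ≤ 4 * (E ∩ SP S).card))) := by
    intro E hE
    rw [Finset.mem_filter] at hE
    obtain ⟨-, hE1, hE2⟩ := hE
    unfold Sparse at hE2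
    push Not at hE2
    obtain ⟨S, h1, h2, h3⟩ := hE2
    rw [Finset.mem_biUnion]
    refine ⟨S.card, Finset.mem_filter.2 ⟨Finset.mem_range.2 (by omega), h1⟩, ?_⟩
    rw [Finset.mem_biUnion]
    refine ⟨S, Finset.mem_powersetCard.2 ⟨Finset.subset_univ _, rfl⟩, ?_⟩
    rw [Finset.mem_filter]
    rw [spn_gr] at h3
    exact ⟨Finset.mem_univ _, hE1, h3⟩
  have hle : (univ.filter (fun E : Finset (Pr n) => E.card = C * n ∧ ¬ Sparse (n / (32 * A)) (gr E))).card ≤
      ∑ s ∈ (Finset.range (n / (32 * A) + 2)).filter (fun s => 4 ≤ s), tot C n s :=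
    (Finset.card_le_card hsub).trans (Finset.card_biUnion_le.trans
      (Finset.sum_le_sum fun s _ => Finset.card_biUnion_le))
  have hreal : (∑ s ∈ (Finset.range (n / (32 * A) + 2)).filter (fun s => 4 ≤ s), (tot C n s : ℝ)) * n ≤
      32 * A * (NN n).choose (C * n) := by
    rw [Finset.sum_mul]
    calc ∑ s ∈ (Finset.range (n / (32 * A) + 2)).filter (fun s => 4 ≤ s), (tot C n s : ℝ) * n
        ≤ ∑ s ∈ (Finset.range (n / (32 * A) + 2)).filter (fun s => 4 ≤ s),
          (16 * A * (NN n).choose (C * n) : ℝ) * ((s : ℝ) / 2 ^ s) := by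
          refine Finset.sum_le_sum fun s hs => ?_
          rw [Finset.mem_filter, Finset.mem_range] at hs
          have h1 := tot_bound' C n s hC (by omega) hs.2 (hsmall s (by omega))
          rw [← hA] at h1
          have h2 : (tot C n s : ℝ) * n * 2 ^ s ≤ 16 * A * s * (NN n).choose (C * n) := by exact_mod_cast h1
          rw [← mul_div_assoc, le_div_iff₀ (by positivity)]
          linarith
      _ ≤ ∑ s ∈ Finset.range (n / (32 * A) + 2), (16 * A * (NN n).choose (C * n) : ℝ) * ((s : ℝ) / 2 ^ s) :=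
          Finset.sum_le_sum_of_subset_of_nonneg (Finset.filter_subset _ _) fun _ _ _ => by positivity
      _ = (16 * A * (NN n).choose (C * n) : ℝ) * ∑ s ∈ Finset.range (n / (32 * A) + 2), ((s : ℝ) / 2 ^ s) :=
          (Finset.mul_sum _ _ _).symm
      _ ≤ (16 * A * (NN n).choose (C * n) : ℝ) * 2 := by
          refine mul_le_mul_of_nonneg_left ?_ (by positivity)
          rw [geo]
          have : (0 : ℝ) ≤ (((n / (32 * A) + 2 : ℕ) : ℝ) + 1) * 2 / 2 ^ (n / (32 * A) + 2) := by positivity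
          linarith
      _ = 32 * A * (NN n).choose (C * n) := by ring
  have hnat : (∑ s ∈ (Finset.range (n / (32 * A) + 2)).filter (fun s => 4 ≤ s), tot C n s) * n ≤
      32 * A * (NN n).choose (C * n) := by exact_mod_cast hreal
  exact (Nat.mul_le_mul_right _ hle).trans hnat

end Pool.Agent.Work.MP_73831e_pr
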