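import Pool.Agent.Work.MP_73831e_pr.Basic
import Pool.Agent.Work.MP_73831e_pr.Sup

/-!
MODULE B3.  In random graphs with `C n` edges small vertex sets touch few edges.

Proof.  `M = C n`.  If `gr E` is not `DegOK K₂ K₃` there is `T` with `K₃ |T| ≤ n` and at least
`j = ⌈n/K₂⌉` edges touching `T`.  The number of pairs touching `T` is `≤ |T| n ≤ n²/K₃`.
`union_bound` (with the set of pairs touching `T`): the proportion of such `E` is at most
`(3 (n²/K₃) C n / (N j))^j ≤ (12 C K₂/K₃)^j` for `n ≥ 2` (`N ≥ n²/4`, `j ≥ n/K₂`).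
With `K₃ = K₀ + 12 C K₂ 4^{K₂}` this is `≤ (4^{-K₂})^j ≤ 4^{-n}`; union over the `≤ 2^n` sets `T`.
-/

open Finset
open scoped Classical Nat

namespace Pool.Agent.Work.MP_73831e_pr

/-- pairs touching `T` -/
private def TT {n : ℕ} (T : Finset (Fin n)) : Finset (Pr n) :=
  univ.filter (fun e : Pr n => ∃ v ∈ e.1, v ∈ T)

private theorem tch_gr {n : ℕ} (E : Finset (Pr n)) (T : Finset (Fin n)) :
    tch (gr E) T = (E ∩ TT T).card := by
  unfold tch
  have h : {e ∈ (gr E).edgeSet | ∃ v ∈ e, v ∈ T} = Subtype.val '' ((E ∩ TT T : Finset (Pr n)) : Set (Pr n)) := by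
    ext e
    simp only [Set.mem_ofPred_eq, mem_edgeSet_gr, Set.mem_image, Finset.mem_coe, Finset.mem_inter, TT,
      Finset.mem_filter, Finset.mem_univ, true_and]
    constructor
    · rintro ⟨⟨x, hx, rfl⟩, h⟩
      exact ⟨x, ⟨hx, h⟩, rfl⟩
    · rintro ⟨x, ⟨hx, h⟩, rfl⟩
      exact ⟨⟨x, hx, rfl⟩, h⟩
  rw [h, Set.ncard_image_of_injective _ Subtype.val_injective, Set.ncard_coe_finset]

private theorem TT_card {n : ℕ} (T : Finset (Fin n)) : (TT T).card ≤ T.card * n := by
  have h1 : ((TT T).image Subtype.val) ⊆ (T ×ˢ (univ : Finset (Fin n))).image (fun p => s(p.1, p.2)) := by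
    intro e he
    simp only [Finset.mem_image, TT, Finset.mem_filter, Finset.mem_univ, true_and] at he
    obtain ⟨x, ⟨v, hv, hvT⟩, rfl⟩ := he
    obtain ⟨w, hw⟩ := hv
    simp only [Finset.mem_image, Finset.mem_product, Finset.mem_univ, and_true]
    exact ⟨(v, w), hvT, hw.symm⟩
  have h2 := Finset.card_le_card h1
  rw [Finset.card_image_of_injective _ Subtype.val_injective] at h2
  refine h2.trans (Finset.card_image_le.trans ?_)
  rw [Finset.card_product, Finset.card_univ, Fintype.card_fin]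

theorem B3 (C K₂ K₀ : ℕ) (hC : 1 ≤ C) (hK : 1 ≤ K₂) : ∃ K₃ : ℕ, K₀ ≤ K₃ ∧ ∃ n₀ : ℕ, ∀ n ≥ n₀,
    (univ.filter (fun E : Finset (Pr n) => E.card = C * n ∧ ¬ DegOK K₂ K₃ (gr E))).card * 2 ^ n
      ≤ (NN n).choose (C * n) := by
  refine ⟨K₀ + 12 * C * K₂ * 4 ^ K₂, by omega, 2 * C + 2, fun n hn => ?_⟩
  set K₃ := K₀ + 12 * C * K₂ * 4 ^ K₂ with hK₃
  have hN2 : 2 * NN n = n * (n - 1) := two_NN n
  obtain ⟨m, rfl⟩ : ∃ m, n = m + 1 := ⟨n - 1, by omega⟩
  rw [Nat.add_sub_cancel] at hN2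
  set n := m + 1 with hnm
  have hMN : C * n ≤ NN n := by
    have h1 : 2 * (C * n) ≤ n * m := by
      calc 2 * (C * n) = n * (2 * C) := by ring
        _ ≤ n * m := Nat.mul_le_mul_left _ (by omega)
    omega
  have hn2 : n * n ≤ 4 * NN n := by
    have h1 : n * n ≤ 2 * (n * m) := by
      calc n * n ≤ n * (2 * m) := Nat.mul_le_mul_left _ (by omega)
        _ = 2 * (n * m) := by ring
    omega
  obtain ⟨j, hj1, hj2⟩ : ∃ j, n ≤ K₂ * j ∧ ∀ t, n ≤ K₂ * t → j ≤ t := by
    have hex : ∃ j, n ≤ K₂ * j := ⟨n, by nlinarith⟩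
    exact ⟨Nat.find hex, Nat.find_spec hex, fun t ht => Nat.find_min' hex ht⟩
  have hj0 : 0 < j := by
    rcases Nat.eq_zero_or_pos j with h | h
    · rw [h] at hj1; omega
    · exact h
  have hN0 : 0 < NN n := by
    have : 0 < C * n := Nat.mul_pos (by omega) (by omega)
    omega
  have hone : ∀ T : Finset (Fin n), K₃ * T.card ≤ n →
      (univ.filter (fun E : Finset (Pr n) => E.card = C * n ∧ j ≤ (E ∩ TT T).card)).card * 4 ^ n
        ≤ (NN n).choose (C * n) := by
    intro T hT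
    have hub := union_bound (P := Pr n) (C * n) hMN (TT T) j
    change _ * (NN n ^ j * j ^ j) ≤ _ * (NN n).choose (C * n) at hub
    have hTT := TT_card T
    have hb : 3 * (TT T).card * (C * n) * 4 ^ K₂ ≤ NN n * j := by
      have e1 : 12 * C * K₂ * 4 ^ K₂ * T.card ≤ n := by
        refine le_trans ?_ hT
        exact Nat.mul_le_mul_right _ (by omega)
      have e2 : (12 * C * K₂) * (3 * (TT T).card * (C * n) * 4 ^ K₂) ≤ (12 * C * K₂) * (NN n * j) := by
        calc (12 * C * K₂) * (3 * (TT T).card * (C * n) * 4 ^ K₂)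
            ≤ (12 * C * K₂) * (3 * (T.card * n) * (C * n) * 4 ^ K₂) := by gcongr
          _ = 3 * C * n * n * (12 * C * K₂ * 4 ^ K₂ * T.card) := by ring
          _ ≤ 3 * C * n * n * n := by gcongr
          _ = 3 * C * (n * n) * n := by ring
          _ ≤ 3 * C * (4 * NN n) * (K₂ * j) := by gcongr
          _ = (12 * C * K₂) * (NN n * j) := by ring
      exact Nat.le_of_mul_le_mul_left e2 (by positivity)
    have hb2 : (3 * (TT T).card * (C * n)) ^ j * 4 ^ n ≤ NN n ^ j * j ^ j := by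
      calc (3 * (TT T).card * (C * n)) ^ j * 4 ^ n ≤ (3 * (TT T).card * (C * n)) ^ j * 4 ^ (K₂ * j) := by
            gcongr
            norm_num
        _ = (3 * (TT T).card * (C * n) * 4 ^ K₂) ^ j := by rw [mul_pow _ (4 ^ K₂) j, pow_mul]
        _ ≤ (NN n * j) ^ j := Nat.pow_le_pow_left hb j
        _ = NN n ^ j * j ^ j := mul_pow _ _ _
    have hpos : 0 < NN n ^ j * j ^ j := by positivity
    refine Nat.le_of_mul_le_mul_left ?_ hpos
    calc (NN n ^ j * j ^ j) * ((univ.filter (fun E : Finset (Pr n) => E.card = C * n ∧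
          j ≤ (E ∩ TT T).card)).card * 4 ^ n)
        = ((univ.filter (fun E : Finset (Pr n) => E.card = C * n ∧
          j ≤ (E ∩ TT T).card)).card * (NN n ^ j * j ^ j)) * 4 ^ n := by ring
      _ ≤ ((3 * (TT T).card * (C * n)) ^ j * (NN n).choose (C * n)) * 4 ^ n :=
          Nat.mul_le_mul_right _ hub
      _ = ((3 * (TT T).card * (C * n)) ^ j * 4 ^ n) * (NN n).choose (C * n) := by ring
      _ ≤ (NN n ^ j * j ^ j) * (NN n).choose (C * n) := Nat.mul_le_mul_right _ hb2
  have hsub : univ.filter (fun E : Finset (Pr n) => E.card = C * n ∧ ¬ DegOK K₂ K₃ (gr E)) ⊆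
      (univ.filter (fun T : Finset (Fin n) => K₃ * T.card ≤ n)).biUnion (fun T =>
        univ.filter (fun E : Finset (Pr n) => E.card = C * n ∧ j ≤ (E ∩ TT T).card)) := by
    intro E hE
    rw [Finset.mem_filter] at hE
    obtain ⟨-, hE1, hE2⟩ := hE
    unfold DegOK at hE2
    push Not at hE2
    obtain ⟨T, hT1, hT2⟩ := hE2
    rw [Nat.card_eq_fintype_card, Fintype.card_fin] at hT1 hT2
    rw [Finset.mem_biUnion]
    refine ⟨T, Finset.mem_filter.2 ⟨Finset.mem_univ _, hT1⟩, Finset.mem_filter.2 ⟨Finset.mem_univ _, hE1, ?_⟩⟩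
    apply hj2
    rwa [tch_gr] at hT2
  have htot : (univ.filter (fun E : Finset (Pr n) => E.card = C * n ∧ ¬ DegOK K₂ K₃ (gr E))).card * 4 ^ n ≤
      2 ^ n * (NN n).choose (C * n) := by
    calc (univ.filter (fun E : Finset (Pr n) => E.card = C * n ∧ ¬ DegOK K₂ K₃ (gr E))).card * 4 ^ n
        ≤ (∑ T ∈ univ.filter (fun T : Finset (Fin n) => K₃ * T.card ≤ n),
          (univ.filter (fun E : Finset (Pr n) => E.card = C * n ∧ j ≤ (E ∩ TT T).card)).card) * 4 ^ n :=
          Nat.mul_le_mul_right _ ((Finset.card_le_card hsub).trans Finset.card_biUnion_le)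
      _ = ∑ T ∈ univ.filter (fun T : Finset (Fin n) => K₃ * T.card ≤ n),
          (univ.filter (fun E : Finset (Pr n) => E.card = C * n ∧ j ≤ (E ∩ TT T).card)).card * 4 ^ n :=
          Finset.sum_mul _ _ _
      _ ≤ ∑ T ∈ univ.filter (fun T : Finset (Fin n) => K₃ * T.card ≤ n), (NN n).choose (C * n) :=
          Finset.sum_le_sum fun T hT => hone T (Finset.mem_filter.1 hT).2
      _ = (univ.filter (fun T : Finset (Fin n) => K₃ * T.card ≤ n)).card * (NN n).choose (C * n) := by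
          rw [Finset.sum_const, smul_eq_mul]
      _ ≤ 2 ^ n * (NN n).choose (C * n) := by
          refine Nat.mul_le_mul_right _ ((Finset.card_le_univ _).trans ?_)
          rw [Fintype.card_finset, Fintype.card_fin]
  have h4 : (4 : ℕ) ^ n = 2 ^ n * 2 ^ n := by
    rw [← mul_pow]
    norm_num
  rw [h4] at htot
  refine Nat.le_of_mul_le_mul_left ?_ (show 0 < 2 ^ n by positivity)
  calc 2 ^ n * ((univ.filter (fun E : Finset (Pr n) => E.card = C * n ∧ ¬ DegOK K₂ K₃ (gr E))).card * 2 ^ n)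
      = (univ.filter (fun E : Finset (Pr n) => E.card = C * n ∧ ¬ DegOK K₂ K₃ (gr E))).card * (2 ^ n * 2 ^ n) := by
        ring
    _ ≤ _ := htot

end Pool.Agent.Work.MP_73831e_pr
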