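import Pool.Agent.Work.MP_73831e_pr.Basic

/-!
MODULE B4a (numerics for the second moment of the number of isolated vertices).
`N = n(n-1)/2 = NN n`, `M = C n`.

`ratio_one`: `C(N-(n-1), M)/C(N,M) = ∏_{i<M} (N-n+1-i)/(N-i) ≥ (1 - (n-1)/(N-M))^M ≥ (1-4/n)^{Cn}`
for `n ≥ n₀` (`N - M ≥ N/2 ≥ n(n-1)/4`), and `(1-4/n)^{n} ≥ 4^{-4}` for `n ≥ 8`
(`1-x ≥ 4^{-x}` for `0 ≤ x ≤ 1/2`; or group/Bernoulli; any constant would do, only the shape
`∃ K` matters).
`ratio_two`: with descending factorials it is enough that for every `i`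
`(N-(2n-3)-i) (N-i) ≤ (N-(n-1)-i)²`; with `a = N - i ≤ N ≤ (n-1)²` (as `n ≥ 2`) and
`a ≥ 2n-3`: `(a-2n+3) a - (a-n+1)² = a - (n-1)² ≤ 0`; if `N - i < 2n-3` the left side is `0`.
(`Nat.choose_eq_descFactorial_div_factorial`, `Nat.descFactorial_eq_prod_range`,
`Nat.descFactorial_eq_factorial_mul_choose`.)
-/

open Finset
open scoped Classical Nat

namespace Pool.Agent.Work.MP_73831e_pr

theorem ratio_one (C : ℕ) (hC : 1 ≤ C) : ∃ K n₀ : ℕ, 1 ≤ K ∧ ∀ n ≥ n₀,
    (NN n).choose (C * n) ≤ K * (NN n - (n - 1)).choose (C * n) := by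
  refine ⟨⌈Real.exp (4 * C)⌉₊, 4 * C + 5, Nat.one_le_ceil_iff.mpr (Real.exp_pos _), ?_⟩
  intro n hn
  have h2 : 2 * NN n = n * (n - 1) := two_NN n
  set N := NN n with hN
  set M := C * n with hM
  have hbig : 2 * (n - 1 + M) ≤ N := by
    obtain ⟨m, rfl⟩ : ∃ m, n = m + 1 := ⟨n - 1, by omega⟩
    simp only [Nat.add_sub_cancel] at h2 ⊢
    have : 4 * C + 4 ≤ m := by omega
    have h3 : (m + 1) * (4 * C + 4) ≤ (m + 1) * m := Nat.mul_le_mul_left _ this
    nlinarith
  have hnpos : (0 : ℝ) < n := by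
    have : 0 < n := by omega
    exact_mod_cast this
  have key : ((N.descFactorial M : ℕ) : ℝ) ≤
      (1 + 4 / n) ^ M * (((N - (n - 1)).descFactorial M : ℕ) : ℝ) := by
    rw [Nat.descFactorial_eq_prod_range, Nat.descFactorial_eq_prod_range]
    push_cast
    rw [← Finset.card_range M, ← Finset.prod_const, Finset.card_range, ← Finset.prod_mul_distrib]
    apply Finset.prod_le_prod
    · intro i _
      exact Nat.cast_nonneg _
    · intro i hi
      rw [Finset.mem_range] at hi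
      have e1 : N - i = (N - (n - 1) - i) + (n - 1) := by omega
      have e2 : n * (n - 1) ≤ 4 * (N - (n - 1) - i) := by omega
      have e2' : (n : ℝ) * ((n - 1 : ℕ) : ℝ) ≤ 4 * ((N - (n - 1) - i : ℕ) : ℝ) := by
        exact_mod_cast e2
      rw [e1]
      push_cast
      have e3 : ((n - 1 : ℕ) : ℝ) ≤ 4 / n * ((N - (n - 1) - i : ℕ) : ℝ) := by
        rw [div_mul_eq_mul_div, le_div_iff₀ hnpos]
        linarith
      linarith
  have hexp : (1 + 4 / (n : ℝ)) ^ M ≤ Real.exp (4 * C) := by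
    have h1 : 1 + 4 / (n : ℝ) ≤ Real.exp (4 / n) := by
      have := Real.add_one_le_exp (4 / (n : ℝ))
      linarith
    have h3 : (1 + 4 / (n : ℝ)) ^ M ≤ Real.exp (4 / n) ^ M :=
      pow_le_pow_left₀ (by positivity) h1 _
    rw [← Real.exp_nat_mul] at h3
    have h4 : (M : ℝ) * (4 / n) = 4 * C := by
      rw [hM]; push_cast
      field_simp
    rwa [h4] at h3
  have key2 : (N.descFactorial M : ℕ) ≤
      ⌈Real.exp (4 * C)⌉₊ * (N - (n - 1)).descFactorial M := by
    have : ((N.descFactorial M : ℕ) : ℝ) ≤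
      ((⌈Real.exp (4 * C)⌉₊ * (N - (n - 1)).descFactorial M : ℕ) : ℝ) := by
      push_cast
      refine key.trans ?_
      apply mul_le_mul_of_nonneg_right _ (Nat.cast_nonneg _)
      exact hexp.trans (Nat.le_ceil _)
    exact_mod_cast this
  rw [Nat.descFactorial_eq_factorial_mul_choose, Nat.descFactorial_eq_factorial_mul_choose] at key2
  have hf : 0 < M ! := Nat.factorial_pos _
  apply Nat.le_of_mul_le_mul_left _ hf
  calc M ! * N.choose M ≤ ⌈Real.exp (4 * C)⌉₊ * (M ! * (N - (n - 1)).choose M) := key2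
    _ = M ! * (⌈Real.exp (4 * C)⌉₊ * (N - (n - 1)).choose M) := by ring

theorem ratio_two (n M : ℕ) (hn : 2 ≤ n) :
    (NN n - (2 * n - 3)).choose M * (NN n).choose M ≤ ((NN n - (n - 1)).choose M) ^ 2 := by
  have h2 : 2 * NN n = n * (n - 1) := two_NN n
  set N := NN n with hN
  have key : (N - (2 * n - 3)).descFactorial M * N.descFactorial M ≤
      ((N - (n - 1)).descFactorial M) ^ 2 := by
    rw [Nat.descFactorial_eq_prod_range, Nat.descFactorial_eq_prod_range,
      Nat.descFactorial_eq_prod_range, ← Finset.prod_mul_distrib, ← Finset.prod_pow]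
    apply Finset.prod_le_prod'
    intro i _
    rcases Nat.lt_or_ge (N - i) (2 * n - 3) with h | h
    · have : N - (2 * n - 3) - i = 0 := by omega
      rw [this]; simp
    · obtain ⟨m, rfl⟩ : ∃ m, n = m + 2 := ⟨n - 2, by omega⟩
      have e0 : 2 * (m + 2) - 3 = 2 * m + 1 := by omega
      have e1 : m + 2 - 1 = m + 1 := by omega
      rw [e0] at h ⊢
      rw [e1] at h2 ⊢
      obtain ⟨b, hb⟩ : ∃ b, N - i = 2 * m + 1 + b := ⟨N - i - (2 * m + 1), by omega⟩
      have e2 : N - (2 * m + 1) - i = b := by omega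
      have e3 : N - (m + 1) - i = m + b := by omega
      rw [e2, e3, hb]
      have e4 : 2 * (2 * m + 1 + b) ≤ (m + 2) * (m + 1) := by omega
      nlinarith
  rw [Nat.descFactorial_eq_factorial_mul_choose, Nat.descFactorial_eq_factorial_mul_choose,
    Nat.descFactorial_eq_factorial_mul_choose] at key
  have hf : 0 < M ! ^ 2 := pow_pos (Nat.factorial_pos _) _
  apply Nat.le_of_mul_le_mul_left _ hf
  calc M ! ^ 2 * ((N - (2 * n - 3)).choose M * N.choose M)
      = M ! * (N - (2 * n - 3)).choose M * (M ! * N.choose M) := by ring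
    _ ≤ (M ! * (N - (n - 1)).choose M) ^ 2 := key
    _ = M ! ^ 2 * ((N - (n - 1)).choose M) ^ 2 := by ring

end Pool.Agent.Work.MP_73831e_pr
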