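import Pool.Agent.Work.MP_73831e_pr.Basic
import Pool.Agent.Work.MP_73831e_pr.B4a

/-!
MODULE B4.  Random graphs with `C n` edges have linearly many isolated vertices (Chebyshev).

Proof.  `M = C n`, `N = NN n`, `T` = total number `C(N,M)` of `M`-sets, `X(E)` = number of isolated
vertices.  `∑_E X = n c₁` with `c₁ = C(N-(n-1), M)` (the `M`-sets avoiding the `n-1` pairs at a
vertex) and `∑_E X² = n c₁ + n(n-1) c₂` with `c₂ = C(N-(2n-3), M)` (avoiding the `2n-3` pairs at
`u` or `v`, `u ≠ v`), and `c₂ T ≤ c₁²` by `ratio_two`.  With `μ = n c₁/T` the mean: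
`#{E : X(E) < μ/2} μ²/4 ≤ ∑_E (X - μ)² = n c₁ + n(n-1) c₂ - n² c₁²/T ≤ n c₁`, hence
`#{..}/T ≤ 4T/(n c₁) ≤ 4 K/n` by `ratio_one`.
And `μ/2 ≥ n/(2K)`, so with `K₄ = 2K` the failure of `ManyIso K₄` implies `X < μ/2`
(`ManyIso K₄` is `n ≤ K₄ X`).
-/

open Finset
open scoped Classical Nat

namespace Pool.Agent.Work.MP_73831e_pr

/-- pairs containing the vertex `v` -/
noncomputable def starP {n : ℕ} (v : Fin n) : Finset (Pr n) := univ.filter (fun e : Pr n => v ∈ e.1)

theorem iso_iff_star {n : ℕ} (E : Finset (Pr n)) (v : Fin n) :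
    iso (gr E) v ↔ E ⊆ (starP v)ᶜ := by
  constructor
  · intro h x hx
    rw [Finset.mem_compl]
    intro hs
    simp only [starP, mem_filter, mem_univ, true_and] at hs
    obtain ⟨w, hw⟩ := Sym2.mem_iff_exists.mp hs
    exact h w (gr_adj'.mpr ⟨x, hx, hw⟩)
  · intro h w hw
    obtain ⟨x, hx, he⟩ := gr_adj'.mp hw
    have := h hx
    rw [Finset.mem_compl] at this
    apply this
    simp only [starP, mem_filter, mem_univ, true_and]
    rw [he]; exact Sym2.mem_mk_left _ _

theorem star_card {n : ℕ} (v : Fin n) : (starP v).card = n - 1 := by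
  have h1 : (starP v).card = (univ.filter (fun w : Fin n => w ≠ v)).card := by
    symm
    apply Finset.card_bij
      (fun (w : Fin n) (hw : w ∈ univ.filter (fun w : Fin n => w ≠ v)) =>
        (⟨s(v, w), fun h => (by simpa using (mem_filter.mp hw).2 : w ≠ v)
          (Sym2.mk_isDiag_iff.mp h).symm⟩ : Pr n))
    · intro w hw
      simp only [starP, mem_filter, mem_univ, true_and]
      exact Sym2.mem_mk_left _ _
    · intro a ha b hb hab
      have : s(v, a) = s(v, b) := congrArg Subtype.val hab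
      exact Sym2.congr_right.mp this
    · intro e he
      simp only [starP, mem_filter, mem_univ, true_and] at he
      obtain ⟨w, hw⟩ := Sym2.mem_iff_exists.mp he
      refine ⟨w, ?_, ?_⟩
      · simp only [mem_filter, mem_univ, true_and]
        rintro rfl
        apply e.2
        rw [hw]; exact Sym2.mk_isDiag_iff.mpr rfl
      · exact Subtype.ext hw.symm
  rw [h1, Finset.filter_ne' univ v, Finset.card_erase_of_mem (mem_univ _), Finset.card_univ,
    Fintype.card_fin]

theorem star_inter_card {n : ℕ} {u v : Fin n} (h : u ≠ v) : (starP u ∩ starP v).card = 1 := by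
  rw [Finset.card_eq_one]
  refine ⟨⟨s(u, v), fun hd => h (Sym2.mk_isDiag_iff.mp hd)⟩, ?_⟩
  ext x
  simp only [starP, mem_inter, mem_filter, mem_univ, true_and, mem_singleton]
  constructor
  · rintro ⟨hu, hv⟩
    apply Subtype.ext
    exact (Sym2.mem_and_mem_iff h).mp ⟨hu, hv⟩
  · rintro rfl
    exact ⟨Sym2.mem_mk_left _ _, Sym2.mem_mk_right _ _⟩

theorem star_union_card {n : ℕ} {u v : Fin n} (h : u ≠ v) :
    (starP u ∪ starP v).card = 2 * n - 3 := by
  have h1 := Finset.card_union_add_card_inter (starP u) (starP v)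
  rw [star_card, star_card, star_inter_card h] at h1
  omega

theorem count_sub {n : ℕ} (M : ℕ) (S : Finset (Pr n)) :
    (univ.filter (fun E : Finset (Pr n) => E.card = M ∧ E ⊆ Sᶜ)).card =
      (NN n - S.card).choose M := by
  have : (univ.filter (fun E : Finset (Pr n) => E.card = M ∧ E ⊆ Sᶜ)) = powersetCard M Sᶜ := by
    ext E
    rw [mem_powersetCard, mem_filter]
    simp only [mem_univ, true_and]
    exact And.comm
  rw [this, card_powersetCard, card_compl]
  rfl

theorem B4 (C : ℕ) (hC : 1 ≤ C) : ∃ K₄ : ℕ, 1 ≤ K₄ ∧ ∃ K n₀ : ℕ, ∀ n ≥ n₀,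
    (univ.filter (fun E : Finset (Pr n) => E.card = C * n ∧ ¬ ManyIso K₄ (gr E))).card * n
      ≤ K * (NN n).choose (C * n) := by
  obtain ⟨K, n₀, hK, hr⟩ := ratio_one C hC
  refine ⟨2 * K, by omega, 4 * K, max n₀ 2, ?_⟩
  intro n hn
  have hn0 : n₀ ≤ n := le_trans (le_max_left _ _) hn
  have hn2 : 2 ≤ n := le_trans (le_max_right _ _) hn
  have hrn := hr n hn0
  have hr2 := ratio_two n (C * n) hn2
  set M := C * n with hM
  set T := (NN n).choose M with hT
  set c₁ := (NN n - (n - 1)).choose M with hc1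
  set c₂ := (NN n - (2 * n - 3)).choose M with hc2
  set U : Finset (Finset (Pr n)) := univ.filter (fun E => E.card = M) with hU
  have hUc : U.card = T := by
    have : U = powersetCard M (univ : Finset (Pr n)) := by
      ext E; rw [mem_powersetCard, hU, mem_filter]; simp
    rw [this, card_powersetCard, Finset.card_univ]; rfl
  set B := univ.filter (fun E : Finset (Pr n) => E.card = M ∧ ¬ ManyIso (2 * K) (gr E)) with hB
  have hBU : B ⊆ U := by
    intro E hE
    rw [hB, mem_filter] at hE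
    rw [hU, mem_filter]; exact ⟨mem_univ _, hE.2.1⟩
  rcases Nat.eq_zero_or_pos c₁ with h0 | hcpos
  · have hT0 : T = 0 := by
      have : T ≤ K * 0 := by rw [← h0]; exact hrn
      omega
    have hB0 : B.card = 0 := by
      have := Finset.card_le_card hBU
      omega
    rw [hB0]; simp
  -- indicator
  let I : Fin n → Finset (Pr n) → ℝ := fun v E => if iso (gr E) v then 1 else 0
  let X : Finset (Pr n) → ℝ := fun E => ∑ v, I v E
  have hX : ∀ E : Finset (Pr n), X E = ((Set.ncard {v | iso (gr E) v} : ℕ) : ℝ) := by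
    intro E
    simp only [X, I]
    rw [Finset.sum_boole]
    congr 1
    rw [← Set.ncard_coe_finset]
    congr 1
    ext v; simp
  have hI1 : ∀ v : Fin n, ∑ E ∈ U, I v E = c₁ := by
    intro v
    simp only [I]
    rw [Finset.sum_boole, hU, Finset.filter_filter, hc1, ← star_card v, ← count_sub M (starP v)]
    congr 2
    ext E
    simp only [mem_filter, mem_univ, true_and, iso_iff_star]
  have hI2 : ∀ u v : Fin n, u ≠ v → ∑ E ∈ U, I u E * I v E = c₂ := by
    intro u v huv
    have : ∀ E, I u E * I v E = if (iso (gr E) u ∧ iso (gr E) v) then (1 : ℝ) else 0 := by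
      intro E
      simp only [I]
      by_cases h1 : iso (gr E) u <;> by_cases h2 : iso (gr E) v <;> simp [h1, h2]
    simp only [this]
    rw [Finset.sum_boole, hU, Finset.filter_filter, hc2, ← star_union_card huv,
      ← count_sub M (starP u ∪ starP v)]
    congr 2
    ext E
    simp only [mem_filter, mem_univ, true_and, iso_iff_star, Finset.compl_union,
      Finset.subset_inter_iff]
  have hI0 : ∀ v : Fin n, ∑ E ∈ U, I v E * I v E = c₁ := by
    intro v
    rw [← hI1 v]
    apply Finset.sum_congr rfl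
    intro E _
    simp only [I]
    by_cases h1 : iso (gr E) v <;> simp [h1]
  have hS1 : ∑ E ∈ U, X E = n * c₁ := by
    simp only [X]
    rw [Finset.sum_comm]
    simp only [hI1]
    simp
  have hS2 : ∑ E ∈ U, (X E) ^ 2 = n * c₁ + n * (n - 1) * c₂ := by
    have e1 : ∀ E, (X E) ^ 2 = ∑ u, ∑ v, I u E * I v E := by
      intro E
      rw [sq]; simp only [X]
      rw [Finset.sum_mul_sum]
    simp only [e1]
    rw [Finset.sum_comm]
    have e2 : ∀ u : Fin n, ∑ E ∈ U, ∑ v, I u E * I v E = c₁ + (n - 1) * c₂ := by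
      intro u
      rw [Finset.sum_comm, ← Finset.add_sum_erase univ _ (mem_univ u), hI0 u]
      congr 1
      rw [Finset.sum_congr rfl (fun v hv => hI2 u v (Finset.ne_of_mem_erase hv).symm)]
      rw [Finset.sum_const, Finset.card_erase_of_mem (mem_univ _), Finset.card_univ,
        Fintype.card_fin, nsmul_eq_mul]
      rw [Nat.cast_sub (by omega)]; simp
    simp only [e2]
    rw [Finset.sum_const, Finset.card_univ, Fintype.card_fin, nsmul_eq_mul]
    ring
  have hr2' : (c₂ : ℝ) * T ≤ (c₁ : ℝ) ^ 2 := by exact_mod_cast hr2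
  have hrn' : (T : ℝ) ≤ K * c₁ := by exact_mod_cast hrn
  have hvar : ∑ E ∈ U, ((T : ℝ) * X E - n * c₁) ^ 2 ≤ (T : ℝ) ^ 2 * n * c₁ := by
    have e1 : ∑ E ∈ U, ((T : ℝ) * X E - n * c₁) ^ 2 =
        (T : ℝ) ^ 2 * (∑ E ∈ U, (X E) ^ 2) - 2 * T * n * c₁ * (∑ E ∈ U, X E) +
          (n : ℝ) ^ 2 * (c₁ : ℝ) ^ 2 * T := by
      have : ∀ E, ((T : ℝ) * X E - n * c₁) ^ 2 =
        (T : ℝ) ^ 2 * (X E) ^ 2 - 2 * T * n * c₁ * X E + (n : ℝ) ^ 2 * (c₁ : ℝ) ^ 2 := by
        intro E; ring
      simp only [this]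
      rw [Finset.sum_add_distrib, Finset.sum_sub_distrib, ← Finset.mul_sum, ← Finset.mul_sum,
        Finset.sum_const, hUc, nsmul_eq_mul]
      ring
    rw [e1, hS1, hS2]
    have hn1 : (0 : ℝ) ≤ n * (n - 1) * T := by
      have : (2 : ℝ) ≤ n := by exact_mod_cast hn2
      have h1 : (0 : ℝ) ≤ n - 1 := by linarith
      positivity
    have h3 := mul_le_mul_of_nonneg_left hr2' hn1
    have h4 : (0 : ℝ) ≤ n * (c₁ : ℝ) ^ 2 * T := by positivity
    nlinarith [h3, h4]
  have hbad : ∀ E ∈ B, ((n : ℝ) * c₁) ^ 2 / 4 ≤ ((T : ℝ) * X E - n * c₁) ^ 2 := by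
    intro E hE
    rw [hB, mem_filter] at hE
    have h1 : ¬ ManyIso (2 * K) (gr E) := hE.2.2
    unfold ManyIso at h1
    rw [Nat.card_eq_fintype_card, Fintype.card_fin, not_le] at h1
    have h2 : (2 : ℝ) * K * X E ≤ n := by
      rw [hX E]
      have : 2 * K * Set.ncard {v | iso (gr E) v} ≤ n := le_of_lt h1
      exact_mod_cast this
    have hX0 : 0 ≤ X E := by rw [hX E]; exact Nat.cast_nonneg _
    have h3 : (T : ℝ) * X E ≤ n * c₁ / 2 := by
      have h4 : (T : ℝ) * X E ≤ K * c₁ * X E := mul_le_mul_of_nonneg_right hrn' hX0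
      have hc0 : (0 : ℝ) ≤ c₁ := Nat.cast_nonneg _
      have h5 := mul_le_mul_of_nonneg_right h2 hc0
      nlinarith
    have h6 : (0 : ℝ) ≤ n * c₁ / 2 := by positivity
    nlinarith
  have hfin : (B.card : ℝ) * (((n : ℝ) * c₁) ^ 2 / 4) ≤ (T : ℝ) ^ 2 * n * c₁ := by
    refine le_trans ?_ hvar
    calc (B.card : ℝ) * (((n : ℝ) * c₁) ^ 2 / 4) = ∑ E ∈ B, ((n : ℝ) * c₁) ^ 2 / 4 := by
          rw [Finset.sum_const, nsmul_eq_mul]
      _ ≤ ∑ E ∈ B, ((T : ℝ) * X E - n * c₁) ^ 2 := Finset.sum_le_sum hbad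
      _ ≤ _ := Finset.sum_le_sum_of_subset_of_nonneg hBU (fun _ _ _ => sq_nonneg _)
  have hcp : (0 : ℝ) < c₁ := by exact_mod_cast hcpos
  have hnp : (0 : ℝ) < n := by
    have : 0 < n := by omega
    exact_mod_cast this
  have h1 : (B.card : ℝ) * n * c₁ ≤ 4 * (T : ℝ) ^ 2 := by
    have : (n * c₁ : ℝ) * ((B.card : ℝ) * n * c₁) ≤ (n * c₁ : ℝ) * (4 * (T : ℝ) ^ 2) := by
      nlinarith
    exact le_of_mul_le_mul_left this (by positivity)
  have h2 : (B.card : ℝ) * n * c₁ ≤ (4 * K * T) * c₁ := by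
    have h3 : (T : ℝ) * T ≤ T * (K * c₁) := mul_le_mul_of_nonneg_left hrn' (Nat.cast_nonneg _)
    nlinarith
  have h3 : (B.card : ℝ) * n ≤ 4 * K * T := le_of_mul_le_mul_right h2 hcp
  exact_mod_cast h3

end Pool.Agent.Work.MP_73831e_pr
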