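import Pool.Agent.Work.MP_73831e_pr.Basic

/-!
MODULE GadFacts (bookkeeping for the gadget on edge sets).

`gadE` adds to `E` the `2m+1` pairs `s p_i`, `s' q_i`, `s s'`; they are pairwise distinct and not in
`E` because `s, s'` are isolated in `gr E`.
`wt_gad`: `e := |gadE| = |gadE0| + 1 ≤ R`, `2 R ≤ N`: `wt (gadE0) = (e-1)! (N-e)!`,
`wt (gadE) = e! (N-e-1)!`, so `(N - e) * wt gadE = e * wt gadE0` and `N - e ≥ N/2`.
`recover`: the pairs of `gadE` not containing `s` or `s'` are those of `E`.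
`recover_p`: if `w` is adjacent to `s` in the gadget then `w = s'` or `w = p j` for some `j`, or
`s ∈ {s', q_j}` (impossible); so for `w ∈ C i` (no isolated vertices, disjoint classes, `p j ∈ C j`)
we get `w = p i`.
-/

open Finset
open scoped Classical Nat

namespace Pool.Agent.Work.MP_73831e_pr

variable {n m : ℕ}

theorem GadFacts_notMem {E : Finset (Pr n)} {s : Fin n} (hs : iso (gr E) s) {e : Pr n}
    (he : e ∈ E) : s ∉ e.1 := by
  intro h
  obtain ⟨v, hv⟩ := Sym2.mem_iff_exists.mp h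
  exact hs v ((mem_iff_adj hv).mp he)

theorem GadFacts_star {s : Fin n} {p : Fin m → Fin n} (hp : ∀ i, p i ≠ s)
    (hpi : Function.Injective p) :
    (univ.filter (fun e : Pr n => ∃ i, e.1 = s(s, p i))).card = m := by
  let F : Fin m → Pr n := fun i => ⟨s(s, p i), fun h => hp i (Sym2.mk_isDiag_iff.mp h).symm⟩
  have hF : Function.Injective F := by
    intro a b hab
    have h1 : s(s, p a) = s(s, p b) := congrArg Subtype.val hab
    rcases Sym2.eq_iff.mp h1 with ⟨_, h2⟩ | ⟨h2, _⟩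
    · exact hpi h2
    · exact absurd h2.symm (hp b)
  have h2 : univ.filter (fun e : Pr n => ∃ i, e.1 = s(s, p i)) = univ.image F := by
    ext e
    simp only [mem_filter, mem_univ, true_and, mem_image]
    constructor
    · rintro ⟨i, hi⟩; exact ⟨i, Subtype.ext hi.symm⟩
    · rintro ⟨i, rfl⟩; exact ⟨i, rfl⟩
  rw [h2, card_image_of_injective _ hF, card_univ, Fintype.card_fin]

theorem card_gadE0 {E : Finset (Pr n)} {s s' : Fin n} {p q : Fin m → Fin n}
    (hs : iso (gr E) s) (hs' : iso (gr E) s') (hne : s ≠ s')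
    (hp : ∀ i, p i ≠ s ∧ p i ≠ s') (hq : ∀ i, q i ≠ s ∧ q i ≠ s')
    (hpi : Function.Injective p) (hqi : Function.Injective q) :
    (gadE0 E s s' p q).card = E.card + 2 * m := by
  have h1 : gadE0 E s s' p q = E ∪ ((univ.filter (fun e : Pr n => ∃ i, e.1 = s(s, p i))) ∪
      (univ.filter (fun e : Pr n => ∃ i, e.1 = s(s', q i)))) := by
    unfold gadE0
    ext e
    simp only [mem_union, mem_filter, mem_univ, true_and]
  rw [h1, card_union_of_disjoint, card_union_of_disjoint,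
    GadFacts_star (fun i => (hp i).1) hpi, GadFacts_star (fun i => (hq i).2) hqi]
  · ring
  · rw [disjoint_left]
    intro e he he'
    simp only [mem_filter, mem_univ, true_and] at he he'
    obtain ⟨i, hi⟩ := he
    obtain ⟨j, hj⟩ := he'
    rw [hi] at hj
    rcases Sym2.eq_iff.mp hj with ⟨h2, _⟩ | ⟨h2, _⟩
    · exact hne h2
    · exact (hq j).1 h2.symm
  · rw [disjoint_left]
    intro e he he'
    simp only [mem_union, mem_filter, mem_univ, true_and] at he'
    rcases he' with ⟨i, hi⟩ | ⟨i, hi⟩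
    · exact GadFacts_notMem hs he (by rw [hi]; exact Sym2.mem_mk_left _ _)
    · exact GadFacts_notMem hs' he (by rw [hi]; exact Sym2.mem_mk_left _ _)

theorem gadE_eq_insert {E : Finset (Pr n)} {s s' : Fin n} {p q : Fin m → Fin n}
    (x : Pr n) (hx : x.1 = s(s, s')) :
    gadE E s s' p q = insert x (gadE0 E s s' p q) := by
  unfold gadE gadE0
  ext e
  have : e.1 = s(s, s') ↔ e = x := by
    rw [← hx]; exact ⟨fun h => Subtype.ext h, fun h => by rw [h]⟩
  simp only [mem_union, mem_filter, mem_univ, true_and, mem_insert, this]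
  tauto

theorem not_mem_gadE0 {E : Finset (Pr n)} {s s' : Fin n} {p q : Fin m → Fin n}
    (hs : iso (gr E) s) (hne : s ≠ s')
    (hp : ∀ i, p i ≠ s ∧ p i ≠ s') (hq : ∀ i, q i ≠ s ∧ q i ≠ s')
    (x : Pr n) (hx : x.1 = s(s, s')) : x ∉ gadE0 E s s' p q := by
  unfold gadE0
  intro h
  simp only [mem_union, mem_filter, mem_univ, true_and, hx] at h
  rcases h with h | ⟨i, hi⟩ | ⟨i, hi⟩
  · exact GadFacts_notMem hs h (by rw [hx]; exact Sym2.mem_mk_left _ _)
  · rcases Sym2.eq_iff.mp hi with ⟨_, h2⟩ | ⟨h2, _⟩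
    · exact (hp i).2 h2.symm
    · exact (hp i).1 h2.symm
  · rcases Sym2.eq_iff.mp hi with ⟨h2, _⟩ | ⟨h2, _⟩
    · exact hne h2
    · exact (hq i).1 h2.symm

theorem card_gadE {E : Finset (Pr n)} {s s' : Fin n} {p q : Fin m → Fin n}
    (hs : iso (gr E) s) (hs' : iso (gr E) s') (hne : s ≠ s')
    (hp : ∀ i, p i ≠ s ∧ p i ≠ s') (hq : ∀ i, q i ≠ s ∧ q i ≠ s')
    (hpi : Function.Injective p) (hqi : Function.Injective q) :
    (gadE E s s' p q).card = E.card + 2 * m + 1 := by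
  let x : Pr n := ⟨s(s, s'), fun h => hne (Sym2.mk_isDiag_iff.mp h)⟩
  rw [gadE_eq_insert x rfl, card_insert_of_notMem (not_mem_gadE0 hs hne hp hq x rfl),
    card_gadE0 hs hs' hne hp hq hpi hqi]

/-- `x` does not touch `s, s'`, so it is not in the gadget. -/
theorem not_mem_gadE {E : Finset (Pr n)} {s s' : Fin n} {p q : Fin m → Fin n} {x : Pr n}
    (hx : x ∉ E) (hs : iso (gr (insert x E)) s) (hs' : iso (gr (insert x E)) s') :
    x ∉ gadE E s s' p q := by
  have h1 := GadFacts_notMem hs (mem_insert_self x E)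
  have h2 := GadFacts_notMem hs' (mem_insert_self x E)
  unfold gadE
  intro h
  simp only [mem_union, mem_filter, mem_univ, true_and] at h
  rcases h with h | ⟨i, hi⟩ | ⟨i, hi⟩ | hi
  · exact hx h
  · exact h1 (by rw [hi]; exact Sym2.mem_mk_left _ _)
  · exact h2 (by rw [hi]; exact Sym2.mem_mk_left _ _)
  · exact h1 (by rw [hi]; exact Sym2.mem_mk_left _ _)

theorem insert_gadE (E : Finset (Pr n)) (s s' : Fin n) (p q : Fin m → Fin n) (x : Pr n) :
    insert x (gadE E s s' p q) = gadE (insert x E) s s' p q := by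
  unfold gadE
  rw [insert_union]

theorem recover {E : Finset (Pr n)} {s s' : Fin n} {p q : Fin m → Fin n}
    (hs : iso (gr E) s) (hs' : iso (gr E) s') :
    (gadE E s s' p q).filter (fun e => s ∉ e.1 ∧ s' ∉ e.1) = E := by
  unfold gadE
  ext e
  simp only [mem_union, mem_filter, mem_univ, true_and]
  constructor
  · rintro ⟨h | ⟨i, hi⟩ | ⟨i, hi⟩ | hi, h1, h2⟩
    · exact h
    · exact absurd (by rw [hi]; exact Sym2.mem_mk_left _ _) h1
    · exact absurd (by rw [hi]; exact Sym2.mem_mk_left _ _) h2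
    · exact absurd (by rw [hi]; exact Sym2.mem_mk_left _ _) h1
  · intro h
    exact ⟨Or.inl h, GadFacts_notMem hs h, GadFacts_notMem hs' h⟩

theorem recover0 {E : Finset (Pr n)} {s s' : Fin n} {p q : Fin m → Fin n}
    (hs : iso (gr E) s) (hs' : iso (gr E) s') :
    (gadE0 E s s' p q).filter (fun e => s ∉ e.1 ∧ s' ∉ e.1) = E := by
  unfold gadE0
  ext e
  simp only [mem_union, mem_filter, mem_univ, true_and]
  constructor
  · rintro ⟨h | ⟨i, hi⟩ | ⟨i, hi⟩, h1, h2⟩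
    · exact h
    · exact absurd (by rw [hi]; exact Sym2.mem_mk_left _ _) h1
    · exact absurd (by rw [hi]; exact Sym2.mem_mk_left _ _) h2
  · intro h
    exact ⟨Or.inl h, GadFacts_notMem hs h, GadFacts_notMem hs' h⟩

theorem recover_p {E : Finset (Pr n)} {s s' : Fin n} {p q : Fin m → Fin n}
    {C : Fin m → Finset (Fin n)} (hs : iso (gr E) s) (hne : s ≠ s')
    (hC : ∀ i j, i ≠ j → Disjoint (C i) (C j)) (hCs : ∀ i, s ∉ C i ∧ s' ∉ C i)
    (hp : ∀ i, p i ∈ C i) (hq : ∀ i, q i ∈ C i) {i : Fin m} {w : Fin n} (hw : w ∈ C i) :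
    ((gadG0 (gr E) s s' p q).Adj s w ↔ w = p i) ∧ ((gadG (gr E) s s' p q).Adj s w ↔ w = p i) := by
  have hsp : s ≠ p i := fun h => (hCs i).1 (h ▸ hp i)
  have h1 : (gadG0 (gr E) s s' p q).Adj s w → w = p i := by
    intro h
    rw [gadG0_adj] at h
    rcases h with h | ⟨⟨j, hj⟩ | ⟨j, hj⟩, _⟩
    · exact absurd h (hs w)
    · rcases Sym2.eq_iff.mp hj with ⟨_, h2⟩ | ⟨h2, _⟩
      · by_cases hij : i = j
        · rw [hij]; exact h2.symm
        · have h3 : w ∈ C j := h2 ▸ hp j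
          exact absurd h3 (disjoint_left.mp (hC i j hij) hw)
      · exact absurd hw (h2 ▸ (hCs i).1)
    · rcases Sym2.eq_iff.mp hj with ⟨h2, _⟩ | ⟨h2, _⟩
      · exact absurd h2.symm hne
      · exact absurd hw (h2 ▸ (hCs i).2)
  have h2 : w = p i → (gadG0 (gr E) s s' p q).Adj s w := by
    rintro rfl
    rw [gadG0_adj]
    exact Or.inr ⟨Or.inl ⟨i, rfl⟩, hsp⟩
  refine ⟨⟨h1, h2⟩, ⟨fun h => ?_, fun h => gadG0_le s s' p q (h2 h)⟩⟩
  rw [gadG_adj] at h
  rcases h with h | ⟨h | h | h, hne'⟩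
  · exact absurd h (hs w)
  · exact h1 (gadG0_adj.mpr (Or.inr ⟨Or.inl h, hne'⟩))
  · exact h1 (gadG0_adj.mpr (Or.inr ⟨Or.inr h, hne'⟩))
  · rcases Sym2.eq_iff.mp h with ⟨_, h2⟩ | ⟨h2, _⟩
    · exact absurd hw (h2 ▸ (hCs i).2)
    · exact absurd h2 hne

theorem GadFacts_symm0 {V : Type} {m : ℕ} (G : SimpleGraph V) (s s' : V) (p q : Fin m → V) :
    gadG0 G s s' p q = gadG0 G s' s q p := by
  ext u v
  rw [gadG0_adj, gadG0_adj]
  tauto

theorem GadFacts_symm {V : Type} {m : ℕ} (G : SimpleGraph V) (s s' : V) (p q : Fin m → V) :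
    gadG G s s' p q = gadG G s' s q p := by
  ext u v
  rw [gadG_adj, gadG_adj]
  have : (s(u, v) = s(s, s')) ↔ (s(u, v) = s(s', s)) := by
    rw [Sym2.eq_swap (a := s) (b := s')]
  rw [this]
  tauto

theorem recover_q {E : Finset (Pr n)} {s s' : Fin n} {p q : Fin m → Fin n}
    {C : Fin m → Finset (Fin n)} (hs' : iso (gr E) s') (hne : s ≠ s')
    (hC : ∀ i j, i ≠ j → Disjoint (C i) (C j)) (hCs : ∀ i, s ∉ C i ∧ s' ∉ C i)
    (hp : ∀ i, p i ∈ C i) (hq : ∀ i, q i ∈ C i) {i : Fin m} {w : Fin n} (hw : w ∈ C i) :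
    ((gadG0 (gr E) s s' p q).Adj s' w ↔ w = q i) ∧ ((gadG (gr E) s s' p q).Adj s' w ↔ w = q i) := by
  rw [GadFacts_symm0, GadFacts_symm]
  exact recover_p hs' hne.symm hC (fun i => (hCs i).symm) hq hp hw

theorem wt_gad {E : Finset (Pr n)} {s s' : Fin n} {p q : Fin m → Fin n} {R : ℕ}
    (hc : (gadE E s s' p q).card = (gadE0 E s s' p q).card + 1)
    (hR : (gadE E s s' p q).card ≤ R) (hN : 2 * R ≤ NN n) :
    NN n * wt (gadE E s s' p q) ≤ 2 * R * wt (gadE0 E s s' p q) := by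
  unfold wt
  rw [hc] at hR ⊢
  generalize (gadE0 E s s' p q).card = e at hR ⊢
  change NN n * ((e + 1)! * (NN n - (e + 1) - 1)!) ≤ 2 * R * (e ! * (NN n - e - 1)!)
  obtain ⟨d, hd⟩ : ∃ d, NN n = e + 2 + d := ⟨NN n - e - 2, by omega⟩
  have h1 : NN n - (e + 1) - 1 = d := by omega
  have h2 : NN n - e - 1 = d + 1 := by omega
  rw [h1, h2, Nat.factorial_succ, Nat.factorial_succ]
  have h3 : NN n * (e + 1) ≤ 2 * R * (d + 1) := by
    have h4 : NN n ≤ 2 * (d + 1) := by omega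
    calc NN n * (e + 1) ≤ (2 * (d + 1)) * R := Nat.mul_le_mul h4 hR
      _ = 2 * R * (d + 1) := by ring
  calc NN n * ((e + 1) * e ! * d !) = (NN n * (e + 1)) * (e ! * d !) := by ring
    _ ≤ (2 * R * (d + 1)) * (e ! * d !) := Nat.mul_le_mul_right _ h3
    _ = 2 * R * (e ! * ((d + 1) * d !)) := by ring

/-- The admissible configurations satisfy the hypotheses of the lemmas above. -/
theorem conf_facts {E : Finset (Pr n)} {x : Pr n} {K₃ : ℕ} {C : Fin m → Finset (Fin n)}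
    (hC : IsCl K₃ (gr (insert x E)) C) {c : Cf n m} (hc : c ∈ Conf (gr (insert x E)) C) :
    iso (gr E) c.1.1 ∧ iso (gr E) c.1.2 ∧ c.1.1 ≠ c.1.2 ∧
      (∀ i, c.2.1 i ≠ c.1.1 ∧ c.2.1 i ≠ c.1.2) ∧ (∀ i, c.2.2 i ≠ c.1.1 ∧ c.2.2 i ≠ c.1.2) ∧
      Function.Injective c.2.1 ∧ Function.Injective c.2.2 := by
  unfold Conf at hc
  simp only [mem_filter, mem_univ, true_and] at hc
  obtain ⟨h1, h2, h3, h4⟩ := hc
  have hle : gr E ≤ gr (insert x E) := gr_mono (subset_insert _ _)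
  refine ⟨h1.anti hle, h2.anti hle, h3, fun i => ⟨?_, ?_⟩, fun i => ⟨?_, ?_⟩, ?_, ?_⟩
  · intro h; exact hC.noniso i _ (h4 i).1 (h ▸ h1)
  · intro h; exact hC.noniso i _ (h4 i).1 (h ▸ h2)
  · intro h; exact hC.noniso i _ (h4 i).2 (h ▸ h1)
  · intro h; exact hC.noniso i _ (h4 i).2 (h ▸ h2)
  · intro i j hij
    by_contra hne
    exact disjoint_left.mp (hC.disj i j hne) (h4 i).1 (hij ▸ (h4 j).1)
  · intro i j hij
    by_contra hne
    exact disjoint_left.mp (hC.disj i j hne) (h4 i).2 (hij ▸ (h4 j).2)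

/-- Adding the gadget after `x` kills colourability: any proper `(m+1)`-colouring gives `p i` and
`q i` colour `π i.castSucc`, so `s` and `s'` both get colour `π (last)`. -/
theorem gad_dead {E : Finset (Pr n)} {x : Pr n} {K₃ : ℕ} {C : Fin m → Finset (Fin n)}
    (hC : IsCl K₃ (gr (insert x E)) C) {c : Cf n m} (hc : c ∈ Conf (gr (insert x E)) C) :
    ¬ Alive (m + 1) (gr (insert x (gadC E c))) := by
  obtain ⟨h1, h2, h3, h4, h5, h6, h7⟩ := conf_facts hC hc
  unfold Conf at hc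
  simp only [mem_filter, mem_univ, true_and] at hc
  obtain ⟨_, _, _, hmem⟩ := hc
  unfold gadC
  rw [insert_gadE, gr_gadE]
  rintro ⟨f, hf⟩
  obtain ⟨π, hπ⟩ := hC.col f (hf.anti (le_gadG _ _ _ _))
  have hlast : ∀ a : Fin (m + 1), (∀ i : Fin m, a ≠ π i.castSucc) → a = π (Fin.last m) := by
    intro a ha
    obtain ⟨b, rfl⟩ := π.surjective a
    congr 1
    by_contra hb
    obtain ⟨i, hi⟩ := Fin.exists_castSucc_eq.mpr hb
    exact ha i (by rw [hi])
  have hs : f c.1.1 = π (Fin.last m) := by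
    apply hlast
    intro i h
    have hadj : (gadG (gr (insert x E)) c.1.1 c.1.2 c.2.1 c.2.2).Adj c.1.1 (c.2.1 i) :=
      gadG_adj.mpr (Or.inr ⟨Or.inl ⟨i, rfl⟩, (h4 i).1.symm⟩)
    exact hf _ _ hadj (by rw [h, hπ i _ (hmem i).1])
  have hs' : f c.1.2 = π (Fin.last m) := by
    apply hlast
    intro i h
    have hadj : (gadG (gr (insert x E)) c.1.1 c.1.2 c.2.1 c.2.2).Adj c.1.2 (c.2.2 i) :=
      gadG_adj.mpr (Or.inr ⟨Or.inr (Or.inl ⟨i, rfl⟩), (h5 i).2.symm⟩)
    exact hf _ _ hadj (by rw [h, hπ i _ (hmem i).2])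
  have hadj : (gadG (gr (insert x E)) c.1.1 c.1.2 c.2.1 c.2.2).Adj c.1.1 c.1.2 :=
    gadG_adj.mpr (Or.inr ⟨Or.inr (Or.inr rfl), h3⟩)
  exact hf _ _ hadj (hs.trans hs'.symm)

end Pool.Agent.Work.MP_73831e_pr
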