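import Pool.Agent.Work.MP_73831e_pr.Basic

/-!
MODULE Ext (extending colourings to the gadget).  `s ≠ s'` isolated in `G`, `p i, q i ∉ {s, s'}`.

`ext_gad0`: colour `s` with a colour not in `f '' (range p)` (at most `m` colours) and `s'` with one
not in `f '' (range q)`.

`ext_gad`: let `A` = colours not in `range (f ∘ p)`, `A'` = colours not in `range (f ∘ q)`; both are
nonempty (`m` values out of `m+1`).  If we can pick `a ∈ A`, `a' ∈ A'` with `a ≠ a'` we are done.
Otherwise `A = A' = {a}`, so `range (f ∘ p) = range (f ∘ q) = univ \ {a}` has `m` elements, so both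
`f ∘ p` and `f ∘ q` are injective: excluded by the hypothesis.
-/

open Finset
open scoped Classical Nat

namespace Pool.Agent.Work.MP_73831e_pr

theorem Ext_col {V : Type} {m : ℕ} {G : SimpleGraph V} {s s' : V}
    {p q : Fin m → V} (hs : iso G s) (hs' : iso G s') (hne : s ≠ s')
    (hp : ∀ i, p i ≠ s ∧ p i ≠ s') (hq : ∀ i, q i ≠ s ∧ q i ≠ s')
    {f : V → Fin (m + 1)} (hf : PC (m + 1) G f) (c c' : Fin (m + 1))
    (hc : ∀ i, f (p i) ≠ c) (hc' : ∀ i, f (q i) ≠ c') :
    ∃ g : V → Fin (m + 1), PC (m + 1) (gadG0 G s s' p q) g ∧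
      (c ≠ c' → PC (m + 1) (gadG G s s' p q) g) ∧
      ∀ v, v ≠ s → v ≠ s' → g v = f v := by
  have hG : ∀ u v, G.Adj u v → u ≠ s ∧ u ≠ s' ∧ v ≠ s ∧ v ≠ s' := by
    intro u v h
    refine ⟨?_, ?_, ?_, ?_⟩
    · rintro rfl; exact hs _ h
    · rintro rfl; exact hs' _ h
    · rintro rfl; exact hs _ h.symm
    · rintro rfl; exact hs' _ h.symm
  let g : V → Fin (m + 1) := fun v => if v = s then c else if v = s' then c' else f v
  have gs : g s = c := by simp [g]
  have gs' : g s' = c' := by simp [g, hne.symm]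
  have gv : ∀ v, v ≠ s → v ≠ s' → g v = f v := by
    intro v h1 h2; simp [g, h1, h2]
  have h0 : PC (m + 1) (gadG0 G s s' p q) g := by
    intro u v h
    rw [gadG0_adj] at h
    rcases h with h | ⟨h | h, _⟩
    · obtain ⟨h1, h2, h3, h4⟩ := hG u v h
      rw [gv u h1 h2, gv v h3 h4]; exact hf u v h
    · obtain ⟨i, hi⟩ := h
      rcases Sym2.eq_iff.mp hi with ⟨rfl, rfl⟩ | ⟨rfl, rfl⟩
      · rw [gs, gv _ (hp i).1 (hp i).2]; exact (hc i).symm
      · rw [gs, gv _ (hp i).1 (hp i).2]; exact hc i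
    · obtain ⟨i, hi⟩ := h
      rcases Sym2.eq_iff.mp hi with ⟨rfl, rfl⟩ | ⟨rfl, rfl⟩
      · rw [gs', gv _ (hq i).1 (hq i).2]; exact (hc' i).symm
      · rw [gs', gv _ (hq i).1 (hq i).2]; exact hc' i
  refine ⟨g, h0, ?_, gv⟩
  intro hcc u v h
  rw [gadG_adj] at h
  rcases h with h | ⟨h | h | h, hne'⟩
  · exact h0 u v (gadG0_adj.mpr (Or.inl h))
  · exact h0 u v (gadG0_adj.mpr (Or.inr ⟨Or.inl h, hne'⟩))
  · exact h0 u v (gadG0_adj.mpr (Or.inr ⟨Or.inr h, hne'⟩))
  · rcases Sym2.eq_iff.mp h with ⟨rfl, rfl⟩ | ⟨rfl, rfl⟩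
    · rw [gs, gs']; exact hcc
    · rw [gs, gs']; exact hcc.symm

theorem Ext_free {m : ℕ} (r : Fin m → Fin (m + 1)) : ∃ c, ∀ i, r i ≠ c := by
  by_contra h
  push Not at h
  have : Function.Surjective r := fun c => h c
  have := Fintype.card_le_of_surjective r this
  simp at this

theorem ext_gad0 {V : Type} {m : ℕ} {G : SimpleGraph V} {s s' : V}
    {p q : Fin m → V} (hs : iso G s) (hs' : iso G s') (hne : s ≠ s')
    (hp : ∀ i, p i ≠ s ∧ p i ≠ s') (hq : ∀ i, q i ≠ s ∧ q i ≠ s')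
    {f : V → Fin (m + 1)} (hf : PC (m + 1) G f) :
    ∃ g : V → Fin (m + 1), PC (m + 1) (gadG0 G s s' p q) g ∧
      ∀ v, v ≠ s → v ≠ s' → g v = f v := by
  obtain ⟨c, hc⟩ := Ext_free (fun i => f (p i))
  obtain ⟨c', hc'⟩ := Ext_free (fun i => f (q i))
  obtain ⟨g, h1, _, h3⟩ := Ext_col hs hs' hne hp hq hf c c' hc hc'
  exact ⟨g, h1, h3⟩

theorem ext_gad {V : Type} {m : ℕ} {G : SimpleGraph V} {s s' : V}
    {p q : Fin m → V} (hs : iso G s) (hs' : iso G s') (hne : s ≠ s')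
    (hp : ∀ i, p i ≠ s ∧ p i ≠ s') (hq : ∀ i, q i ≠ s ∧ q i ≠ s')
    {f : V → Fin (m + 1)} (hf : PC (m + 1) G f)
    (hno : ¬ (Function.Injective (fun i => f (p i)) ∧ Function.Injective (fun i => f (q i)) ∧
      Set.range (fun i => f (p i)) = Set.range (fun i => f (q i)))) :
    ∃ g : V → Fin (m + 1), PC (m + 1) (gadG G s s' p q) g ∧
      ∀ v, v ≠ s → v ≠ s' → g v = f v := by
  suffices h : ∃ c c', (∀ i, f (p i) ≠ c) ∧ (∀ i, f (q i) ≠ c') ∧ c ≠ c' by
    obtain ⟨c, c', hc, hc', hcc⟩ := h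
    obtain ⟨g, _, h2, h3⟩ := Ext_col hs hs' hne hp hq hf c c' hc hc'
    exact ⟨g, h2 hcc, h3⟩
  by_contra hcon
  push Not at hcon
  apply hno
  obtain ⟨c, hc⟩ := Ext_free (fun i => f (p i))
  obtain ⟨c', hc'⟩ := Ext_free (fun i => f (q i))
  have hcc : c = c' := hcon c c' hc hc'
  subst hcc
  have key : ∀ (r : Fin m → Fin (m + 1)), (∀ i, r i ≠ c) →
      (∀ d, (∀ i, r i ≠ d) → d = c) →
      Function.Injective r ∧ Set.range r = {d | d ≠ c} := by
    intro r h1 h2
    have hr : Set.range r = {d | d ≠ c} := by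
      ext d
      constructor
      · rintro ⟨i, rfl⟩; exact h1 i
      · intro hd
        by_contra hcon2
        exact hd (h2 d (fun i hi => hcon2 ⟨i, hi⟩))
    refine ⟨?_, hr⟩
    have hcard : (Finset.univ.image r).card = m := by
      have : Finset.univ.image r = Finset.univ.erase c := by
        ext d
        have := Set.ext_iff.mp hr d
        simp only [Set.mem_range] at this
        simp [this]
      rw [this]; simp
    have := Finset.card_image_iff.mp (by rw [hcard]; simp : (Finset.univ.image r).card = Finset.univ.card)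
    intro a b hab
    exact this (by simp) (by simp) hab
  have k1 := key (fun i => f (p i)) hc (fun d hd => hcon d c hd hc')
  have k2 := key (fun i => f (q i)) hc' (fun d hd => (hcon c d hc hd).symm)
  exact ⟨k1.1, k2.1, k1.2.trans k2.2.symm⟩

end Pool.Agent.Work.MP_73831e_pr
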