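import Pool.Agent.Work.MP_73831e_pr.Basic

/-!
MODULE Peel.

`peel`: if `UQ k H W` and `s` has fewer than `k` neighbours in `H` then `UQ k (H - s) (W \ {s})`.
Proof: the edges of `delV H s` are edges of `H` avoiding `s`.  Given two proper `k`-colourings
`f, g` of `delV H s`, recolour `s` in each with a colour not used on its `< k` neighbours
(`Function.update`); the results are proper colourings of `H`, hence differ by a permutation `π`
on `W`, so `f, g` do on `W.erase s`.

`um_of_gad0`: `G` with `s ≠ s'` isolated.  If `gadG0 G s s' p q` contains a large `UQ` then `G` does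
(two vertices fewer).  In `H ≤ gadG0 ..` the vertex `s` has neighbours among the `p i` and possibly
`s'`-if `q i = s`; we assume `p i, q i ∉ {s, s'}`, so at most `m < m+1` neighbours: `peel`.  Then in
`delV H s` the vertex `s'` has at most `m` neighbours: `peel` again.  The result
`delV (delV H s) s'` is `≤ G` and `|(W.erase s).erase s'| ≥ |W| - 2`.

`pattern`: `G` with `s ≠ s'` isolated and `¬ Um (m+1) L G`.  Suppose `H ≤ gadG G s s' p q`,
`UQ (m+1) H W`, `|W| ≥ L+2`.  If `s` has `< m+1` neighbours in `H`, peel `s`, then `s'` (which has at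
most the `m` neighbours `q i` left): get `UQ` inside `G` on `≥ L` vertices, contradiction.  So `s`
has at least `m+1` neighbours in `H`; its neighbours in the gadget are `p i` (`i<m`) and `s'`, so all
of them are neighbours in `H`; in particular every `p i ∈ W`.  Symmetrically (peel `s'` first) every
`q i ∈ W`.  Hence any two proper colourings of the gadget graph (they are proper for `H`) differ by a
permutation on all `p i`, `q i`.
-/

open Finset
open scoped Classical Nat

namespace Pool.Agent.Work.MP_73831e_pr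

theorem Peel_free {V : Type} [Finite V] {k : ℕ} (S : Set V) (hS : S.ncard < k) (f : V → Fin k) :
    ∃ c, ∀ v ∈ S, f v ≠ c := by
  by_contra h
  push Not at h
  have h1 : f '' S = Set.univ := by
    ext c; simp only [Set.mem_image, Set.mem_univ, iff_true]; exact h c
  have h2 : (f '' S).ncard ≤ S.ncard := Set.ncard_image_le (Set.toFinite _)
  rw [h1, Set.ncard_univ, Nat.card_eq_fintype_card, Fintype.card_fin] at h2
  omega

theorem Peel_upd {V : Type} [Finite V] {k : ℕ} {H : SimpleGraph V} {s : V}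
    (hd : Set.ncard (H.neighborSet s) < k) {f : V → Fin k} (hf : PC k (delV H s) f) :
    ∃ f', PC k H f' ∧ ∀ v, v ≠ s → f' v = f v := by
  obtain ⟨c, hc⟩ := Peel_free _ hd f
  refine ⟨Function.update f s c, ?_, fun v hv => by simp [hv]⟩
  intro u v huv
  by_cases hu : u = s
  · subst hu
    have hv : v ≠ u := fun h => huv.ne h.symm
    rw [Function.update_self, Function.update_of_ne hv]
    exact (hc v huv).symm
  · by_cases hv : v = s
    · subst hv
      rw [Function.update_self, Function.update_of_ne hu]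
      exact hc u huv.symm
    · rw [Function.update_of_ne hu, Function.update_of_ne hv]
      exact hf u v ⟨huv, hu, hv⟩

theorem peel {V : Type} [Finite V] {k : ℕ} {H : SimpleGraph V} {W : Finset V} {s : V}
    (h : UQ k H W) (hd : Set.ncard (H.neighborSet s) < k) : UQ k (delV H s) (W.erase s) := by
  obtain ⟨h1, h2, h3⟩ := h
  refine ⟨?_, h2.anti (delV_le H s), ?_⟩
  · rintro u v ⟨huv, hu, hv⟩
    exact ⟨mem_erase.mpr ⟨hu, (h1 u v huv).1⟩, mem_erase.mpr ⟨hv, (h1 u v huv).2⟩⟩
  · intro f g hf hg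
    obtain ⟨f', hf1, hf2⟩ := Peel_upd hd hf
    obtain ⟨g', hg1, hg2⟩ := Peel_upd hd hg
    obtain ⟨π, hπ⟩ := h3 f' g' hf1 hg1
    refine ⟨π, fun w hw => ?_⟩
    obtain ⟨hws, hwW⟩ := mem_erase.mp hw
    rw [← hf2 w hws, ← hg2 w hws]
    exact hπ w hwW

theorem Peel_symm {V : Type} {m : ℕ} (G : SimpleGraph V) (s s' : V) (p q : Fin m → V) :
    gadG G s s' p q = gadG G s' s q p := by
  ext u v
  rw [gadG_adj, gadG_adj]
  have : (s(u, v) = s(s, s')) ↔ (s(u, v) = s(s', s)) := by
    rw [Sym2.eq_swap (a := s) (b := s')]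
  rw [this]
  tauto

theorem Peel_two {V : Type} [Finite V] {m L : ℕ} {G : SimpleGraph V} {s s' : V}
    {p q : Fin m → V} (hs' : iso G s') (hne : s ≠ s')
    (hp : ∀ i, p i ≠ s ∧ p i ≠ s') {H : SimpleGraph V} (hH : H ≤ gadG G s s' p q)
    {W : Finset V} (hW : L + 2 ≤ W.card) (hq : UQ (m + 1) H W)
    (hd : Set.ncard (H.neighborSet s) < m + 1) : Um (m + 1) L G := by
  have h1 := peel hq hd
  have h2 : (delV H s).neighborSet s' ⊆ Set.range q := by
    rintro v ⟨hv, _, hvs⟩
    have := hH hv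
    rw [gadG_adj] at this
    rcases this with h | ⟨⟨i, h⟩ | ⟨i, h⟩ | h, _⟩
    · exact absurd h (hs' v)
    · rcases Sym2.eq_iff.mp h with ⟨h3, _⟩ | ⟨_, h3⟩
      · exact absurd h3 hne
      · exact absurd h3 (hp i).2
    · rcases Sym2.eq_iff.mp h with ⟨_, h3⟩ | ⟨h3, h4⟩
      · exact ⟨i, h3⟩
      · exact ⟨i, h4.trans h3⟩
    · rcases Sym2.eq_iff.mp h with ⟨h3, _⟩ | ⟨_, h3⟩
      · exact absurd h3.symm hne
      · exact absurd h3 hvs
  have h3 : Set.ncard ((delV H s).neighborSet s') < m + 1 := by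
    have h4 := Set.ncard_le_ncard h2 (Set.toFinite _)
    have h5 : (Set.range q).ncard ≤ m := by
      have := Set.ncard_image_le (f := q) (s := Set.univ) (Set.toFinite _)
      rw [Set.image_univ, Set.ncard_univ, Nat.card_eq_fintype_card, Fintype.card_fin] at this
      exact this
    omega
  have h4 := peel h1 h3
  refine ⟨delV (delV H s) s', ?_, (W.erase s).erase s', ?_, h4⟩
  · rintro u v ⟨⟨huv, hu, hv⟩, hu', hv'⟩
    have := hH huv
    rw [gadG_adj] at this
    rcases this with h | ⟨⟨i, h⟩ | ⟨i, h⟩ | h, _⟩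
    · exact h
    · rcases Sym2.eq_iff.mp h with ⟨h3, _⟩ | ⟨h3, _⟩
      · exact absurd h3.symm hu
      · exact absurd h3.symm hv
    · rcases Sym2.eq_iff.mp h with ⟨h3, _⟩ | ⟨h3, _⟩
      · exact absurd h3.symm hu'
      · exact absurd h3.symm hv'
    · rcases Sym2.eq_iff.mp h with ⟨h3, _⟩ | ⟨h3, _⟩
      · exact absurd h3 hu
      · exact absurd h3 hu'
  · have h5 := pred_card_le_card_erase (s := W) (a := s)
    have h6 := pred_card_le_card_erase (s := W.erase s) (a := s')
    omega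

theorem um_of_gad0 {V : Type} [Finite V] {m L : ℕ} {G : SimpleGraph V} {s s' : V}
    {p q : Fin m → V} (hs : iso G s) (hs' : iso G s') (hne : s ≠ s')
    (hp : ∀ i, p i ≠ s ∧ p i ≠ s') (hq : ∀ i, q i ≠ s ∧ q i ≠ s')
    (h : Um (m + 1) (L + 2) (gadG0 G s s' p q)) : Um (m + 1) L G := by
  obtain ⟨H, hH, W, hW, hU⟩ := h
  refine Peel_two hs' hne hp (hH.trans (gadG0_le s s' p q)) hW hU ?_
  have h2 : H.neighborSet s ⊆ Set.range p := by
    intro v hv
    have := hH hv
    rw [gadG0_adj] at this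
    rcases this with h | ⟨⟨i, h⟩ | ⟨i, h⟩, _⟩
    · exact absurd h (hs v)
    · rcases Sym2.eq_iff.mp h with ⟨_, h3⟩ | ⟨h3, h4⟩
      · exact ⟨i, h3⟩
      · exact ⟨i, h4.trans h3⟩
    · rcases Sym2.eq_iff.mp h with ⟨h3, _⟩ | ⟨_, h3⟩
      · exact absurd h3.symm hne
      · exact absurd h3 (hq i).1
  have h4 := Set.ncard_le_ncard h2 (Set.toFinite _)
  have h5 : (Set.range p).ncard ≤ m := by
    have := Set.ncard_image_le (f := p) (s := Set.univ) (Set.toFinite _)
    rw [Set.image_univ, Set.ncard_univ, Nat.card_eq_fintype_card, Fintype.card_fin] at this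
    exact this
  omega

theorem Peel_mem {V : Type} [Finite V] {m L : ℕ} {G : SimpleGraph V} {s s' : V}
    {p q : Fin m → V} (hs : iso G s) (hs' : iso G s') (hne : s ≠ s')
    (hp : ∀ i, p i ≠ s ∧ p i ≠ s') (hq : ∀ i, q i ≠ s ∧ q i ≠ s')
    (hG : ¬ Um (m + 1) L G) {H : SimpleGraph V} (hH : H ≤ gadG G s s' p q)
    {W : Finset V} (hW : L + 2 ≤ W.card) (hU : UQ (m + 1) H W) : ∀ i, p i ∈ W := by
  have hd : m + 1 ≤ Set.ncard (H.neighborSet s) := by
    by_contra hcon
    exact hG (Peel_two hs' hne hp hH hW hU (by omega))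
  have h2 : H.neighborSet s ⊆ insert s' (Set.range p) := by
    intro v hv
    have := hH hv
    rw [gadG_adj] at this
    rcases this with h | ⟨⟨i, h⟩ | ⟨i, h⟩ | h, _⟩
    · exact absurd h (hs v)
    · rcases Sym2.eq_iff.mp h with ⟨_, h3⟩ | ⟨h3, h4⟩
      · exact Or.inr ⟨i, h3⟩
      · exact Or.inr ⟨i, h4.trans h3⟩
    · rcases Sym2.eq_iff.mp h with ⟨h3, _⟩ | ⟨_, h3⟩
      · exact absurd h3.symm hne
      · exact absurd h3 (hq i).1
    · rcases Sym2.eq_iff.mp h with ⟨_, h3⟩ | ⟨h3, h4⟩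
      · exact Or.inl h3
      · exact absurd h3 hne
  have h5 : (Set.range p).ncard ≤ m := by
    have := Set.ncard_image_le (f := p) (s := Set.univ) (Set.toFinite _)
    rw [Set.image_univ, Set.ncard_univ, Nat.card_eq_fintype_card, Fintype.card_fin] at this
    exact this
  have h6 : (insert s' (Set.range p)).ncard ≤ m + 1 :=
    (Set.ncard_insert_le _ _).trans (by omega)
  have h7 : H.neighborSet s = insert s' (Set.range p) :=
    Set.eq_of_subset_of_ncard_le h2 (h6.trans hd) (Set.toFinite _)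
  intro i
  have h8 : p i ∈ H.neighborSet s := by rw [h7]; exact Or.inr ⟨i, rfl⟩
  exact (hU.1 s (p i) h8).2

theorem pattern {V : Type} [Finite V] {m L : ℕ} {G : SimpleGraph V} {s s' : V}
    {p q : Fin m → V} (hs : iso G s) (hs' : iso G s') (hne : s ≠ s')
    (hp : ∀ i, p i ≠ s ∧ p i ≠ s') (hq : ∀ i, q i ≠ s ∧ q i ≠ s')
    (hG : ¬ Um (m + 1) L G) (h : Um (m + 1) (L + 2) (gadG G s s' p q))
    (f g : V → Fin (m + 1)) (hf : PC (m + 1) (gadG G s s' p q) f)
    (hg : PC (m + 1) (gadG G s s' p q) g) :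
    ∃ π : Equiv.Perm (Fin (m + 1)), ∀ i, g (p i) = π (f (p i)) ∧ g (q i) = π (f (q i)) := by
  obtain ⟨H, hH, W, hW, hU⟩ := h
  have h1 := Peel_mem hs hs' hne hp hq hG hH hW hU
  have h2 := Peel_mem hs' hs hne.symm (fun i => (hq i).symm) (fun i => (hp i).symm) hG
    (by rw [← Peel_symm]; exact hH) hW hU
  obtain ⟨π, hπ⟩ := hU.2.2 f g (hf.anti hH) (hg.anti hH)
  exact ⟨π, fun i => ⟨hπ _ (h1 i), hπ _ (h2 i)⟩⟩

end Pool.Agent.Work.MP_73831e_pr
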