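import Pool.Agent.Work.MP_73831e_pr.Basic
import Pool.Agent.Work.MP_73831e_pr.Peel
import Pool.Agent.Work.MP_73831e_pr.Ext

/-!
MODULE Gadget (the heart of the argument; deterministic).

Proof.  Write `k = m+1`; indices `0` and `1` of `Fin m` exist.  For a selection `(a,b)` with
`a i ≠ b i` for all `i` put `P i = u i (a i)`, `P' i = u i (b i)`.
(★) By `pattern`: if `f, g` are proper colourings of `G` which both extend to the gadget graph
`gadG G s s' P P'` (without changing colours off `s, s'`), then there is `π` with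
`g (P i) = π (f (P i))`, `g (P' i) = π (f (P' i))` for all `i`; in particular
`f (P 0) = f (P' 0) ↔ g (P 0) = g (P' 0)`.
By `ext_gad`, `f` extends unless `f∘P`, `f∘P'` are injective with equal ranges.

1. Take `f₁` proper for `G` with `f₁ (u 1 0) ≠ f₁ (u 1 1)` (`h01`).  For `i ≠ 1` pick (pigeonhole,
   `m+2 > m+1` colours) `a i ≠ b i` with `f₁ (u i (a i)) = f₁ (u i (b i))`; `a 1 = 0`, `b 1 = 1`.
   `f₁` extends for `(a,b)`: otherwise `f₁∘P`, `f₁∘P'` injective with the same range; then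
   `f₁ (P' 1) = f₁ (P j)` for some `j`, and `j ≠ 1` since `f₁(P' 1) ≠ f₁(P 1)`, so
   `f₁ (P' 1) = f₁ (P j) = f₁ (P' j)`, contradicting injectivity of `f₁∘P'`.
2. Let `(a', b')` be `(a,b)` with the values at `0` swapped.  Same colours under `f₁`
   (`f₁ (P 0) = f₁ (P' 0)`), so the same argument shows `f₁` extends for `(a', b')`.
3. Take `f₂` with `f₂ (P 0) ≠ f₂ (P' 0)` (`h01`).  By (★) `f₂` does not extend for `(a,b)`, so
   `f₂∘P`, `f₂∘P'` are injective with the same range, hence `f₂ (P' 0) = f₂ (P j)` with `j ≠ 0`.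
   For `(a',b')` the first tuple is `P' 0, P 1, ..`: not injective under `f₂` (`0` and `j`), so `f₂`
   extends for `(a',b')`; but `f₁(P' 0) = f₁ (P 0)` and `f₂ (P' 0) ≠ f₂ (P 0)` contradict (★) for
   `(a',b')`.
-/

open Finset
open scoped Classical Nat

namespace Pool.Agent.Work.MP_73831e_pr

theorem Gadget_star {V : Type} [Finite V] {m L : ℕ} {G : SimpleGraph V}
    (hU : ¬ Um (m + 1) L G) {s s' : V} (hs : iso G s) (hs' : iso G s') (hne : s ≠ s')
    (p q : Fin m → V) (hp : ∀ i, p i ≠ s ∧ p i ≠ s') (hq : ∀ i, q i ≠ s ∧ q i ≠ s')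
    (hsel : Um (m + 1) (L + 2) (gadG G s s' p q))
    (f g : V → Fin (m + 1)) (hf : PC (m + 1) G f) (hg : PC (m + 1) G g)
    (hnf : ¬ (Function.Injective (fun i => f (p i)) ∧ Function.Injective (fun i => f (q i)) ∧
      Set.range (fun i => f (p i)) = Set.range (fun i => f (q i))))
    (hng : ¬ (Function.Injective (fun i => g (p i)) ∧ Function.Injective (fun i => g (q i)) ∧
      Set.range (fun i => g (p i)) = Set.range (fun i => g (q i)))) :
    ∃ π : Equiv.Perm (Fin (m + 1)), ∀ i, g (p i) = π (f (p i)) ∧ g (q i) = π (f (q i)) := by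
  obtain ⟨f', hf1, hf2⟩ := ext_gad hs hs' hne hp hq hf hnf
  obtain ⟨g', hg1, hg2⟩ := ext_gad hs hs' hne hp hq hg hng
  obtain ⟨π, hπ⟩ := pattern hs hs' hne hp hq hU hsel f' g' hf1 hg1
  refine ⟨π, fun i => ?_⟩
  have := hπ i
  rw [hf2 _ (hp i).1 (hp i).2, hf2 _ (hq i).1 (hq i).2, hg2 _ (hp i).1 (hp i).2,
    hg2 _ (hq i).1 (hq i).2] at this
  exact this

theorem gadget_lemma {V : Type} [Finite V] {m L : ℕ} (hm : 2 ≤ m) {G : SimpleGraph V}
    (hU : ¬ Um (m + 1) L G) {s s' : V} (hs : iso G s) (hs' : iso G s') (hne : s ≠ s')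
    (u : Fin m → Fin (m + 2) → V) (hu : ∀ i a, u i a ≠ s ∧ u i a ≠ s')
    (hsel : ∀ a b : Fin m → Fin (m + 2), (∀ i, a i ≠ b i) →
      Um (m + 1) (L + 2) (gadG G s s' (fun i => u i (a i)) (fun i => u i (b i))))
    (h01 : ∀ i : Fin m, ∀ a b, a ≠ b →
      ∃ f : V → Fin (m + 1), PC (m + 1) G f ∧ f (u i a) ≠ f (u i b)) :
    False := by
  obtain ⟨i0, i1, hi01⟩ : ∃ i0 i1 : Fin m, i0 ≠ i1 :=
    ⟨⟨0, by omega⟩, ⟨1, by omega⟩, by simp⟩
  have z1 : (0 : Fin (m + 2)) ≠ 1 := by
    intro h; have := congrArg Fin.val h; simp at this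
  obtain ⟨f₁, hf₁, hsep₁⟩ := h01 i1 0 1 z1
  have hch : ∀ i : Fin m, ∃ a b : Fin (m + 2), a ≠ b ∧ (i ≠ i1 → f₁ (u i a) = f₁ (u i b)) ∧
      (i = i1 → f₁ (u i a) ≠ f₁ (u i b)) := by
    intro i
    by_cases h : i = i1
    · exact ⟨0, 1, z1, fun h' => absurd h h', fun _ => by rw [h]; exact hsep₁⟩
    · obtain ⟨a, b, hab, he⟩ := Fintype.exists_ne_map_eq_of_card_lt (fun a => f₁ (u i a)) (by simp)
      exact ⟨a, b, hab, fun _ => he, fun h' => absurd h' h⟩
  choose a b hab heq hneq using hch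
  -- colour tuples with a single difference are extendable
  have hok : ∀ r r' : Fin m → Fin (m + 1), (∀ i, i ≠ i1 → r i = r' i) → r i1 ≠ r' i1 →
      ¬ (Function.Injective r ∧ Function.Injective r' ∧ Set.range r = Set.range r') := by
    rintro r r' h1 h2 ⟨h3, h4, h5⟩
    have : r' i1 ∈ Set.range r := by rw [h5]; exact ⟨i1, rfl⟩
    obtain ⟨j, hj⟩ := this
    by_cases hji : j = i1
    · subst hji; exact h2 hj
    · rw [h1 j hji] at hj
      exact hji (h4 hj)
  have hr1 : ∀ i, i ≠ i1 → f₁ (u i (a i)) = f₁ (u i (b i)) := fun i hi => heq i hi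
  have hr2 : f₁ (u i1 (a i1)) ≠ f₁ (u i1 (b i1)) := hneq i1 rfl
  have hext1 := hok (fun i => f₁ (u i (a i))) (fun i => f₁ (u i (b i))) hr1 hr2
  -- the swapped selection
  let a' : Fin m → Fin (m + 2) := Function.update a i0 (b i0)
  let b' : Fin m → Fin (m + 2) := Function.update b i0 (a i0)
  have ha0 : a' i0 = b i0 := by simp [a']
  have hb0 : b' i0 = a i0 := by simp [b']
  have ha' : ∀ i, i ≠ i0 → a' i = a i := fun i hi => by simp [a', hi]
  have hb' : ∀ i, i ≠ i0 → b' i = b i := fun i hi => by simp [b', hi]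
  have hab' : ∀ i, a' i ≠ b' i := by
    intro i
    by_cases h : i = i0
    · subst h; rw [ha0, hb0]; exact (hab i).symm
    · rw [ha' i h, hb' i h]; exact hab i
  have hext1' := hok (fun i => f₁ (u i (a' i))) (fun i => f₁ (u i (b' i)))
    (by
      intro i hi
      by_cases h : i = i0
      · subst h
        simp only [ha0, hb0]; exact (hr1 i hi).symm
      · simp only [ha' i h, hb' i h]; exact hr1 i hi)
    (by
      have h : i1 ≠ i0 := hi01.symm
      simp only [ha' i1 h, hb' i1 h]; exact hr2)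
  obtain ⟨f₂, hf₂, hsep₂⟩ := h01 i0 (a i0) (b i0) (hab i0)
  have hbad2 : (Function.Injective (fun i => f₂ (u i (a i))) ∧
      Function.Injective (fun i => f₂ (u i (b i))) ∧
      Set.range (fun i => f₂ (u i (a i))) = Set.range (fun i => f₂ (u i (b i)))) := by
    by_contra hcon
    obtain ⟨π, hπ⟩ := Gadget_star hU hs hs' hne (fun i => u i (a i)) (fun i => u i (b i))
      (fun i => hu _ _) (fun i => hu _ _) (hsel a b hab) f₁ f₂ hf₁ hf₂ hext1 hcon
    apply hsep₂
    have := hπ i0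
    rw [this.1, this.2, hr1 i0 hi01]
  obtain ⟨_, _, hrange⟩ := hbad2
  have hmem : f₂ (u i0 (b i0)) ∈ Set.range (fun i => f₂ (u i (a i))) := by
    rw [hrange]; exact ⟨i0, rfl⟩
  obtain ⟨j, hj⟩ := hmem
  simp only at hj
  have hj0 : j ≠ i0 := by
    rintro rfl; exact hsep₂ hj
  have hnot : ¬ (Function.Injective (fun i => f₂ (u i (a' i))) ∧
      Function.Injective (fun i => f₂ (u i (b' i))) ∧
      Set.range (fun i => f₂ (u i (a' i))) = Set.range (fun i => f₂ (u i (b' i)))) := by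
    rintro ⟨h, _, _⟩
    apply hj0
    apply h
    simp only [ha0, ha' j hj0]
    exact hj
  obtain ⟨π, hπ⟩ := Gadget_star hU hs hs' hne (fun i => u i (a' i)) (fun i => u i (b' i))
      (fun i => hu _ _) (fun i => hu _ _) (hsel a' b' hab') f₁ f₂ hf₁ hf₂ hext1' hnot
  have := hπ i0
  simp only [ha0, hb0] at this
  apply hsep₂
  rw [this.1, this.2, hr1 i0 hi01]

end Pool.Agent.Work.MP_73831e_pr
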