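import Pool.Agent.Work.MP_73831e_pr.Basic

/-!
MODULE Sampling (pure combinatorics; union bound).

Proof.  Count the functions `u` with `u i a ∈ C i` (`T` = their number = `∏ |C i|^{m+2}`).
For a selection `(a,b)` with `a i ≠ b i` for all `i`, the map `u ↦ (i ↦ u i (a i), i ↦ u i (b i))`
has all fibres of the same size `∏ |C i|^m` over `ΠC × ΠC`, so the number of `u` with
`Bad (..) (..)` is `#Bad * ∏|C i|^m < T/Z` (`hBad`).  There are at most `(m+2)^{2m}` selections.
Likewise for `i` and `a ≠ b` the number of `u` with `F i (u i a) (u i b)` is `< T/Z`; there are at most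
`m (m+2)^2` of these events.  Since `Z > (m+2)^{2m} + m(m+2)^2`, some `u` avoids all events
(`T > 0` because `hBad` forces `ΠC × ΠC` to be nonempty).
-/

open Finset
open scoped Classical Nat

namespace Pool.Agent.Work.MP_73831e_pr

private theorem samp_uni {β γ : Type} (U : Finset β) (D : Finset γ) (φ' : β → γ) (R Z : ℕ)
    (hφ : ∀ u ∈ U, φ' u ∈ D) (hfib : ∀ d ∈ D, (U.filter (fun u => φ' u = d)).card = R)
    (Q : γ → Prop) (h : Z * (D.filter Q).card ≤ D.card) :
    Z * (U.filter (fun u => Q (φ' u))).card ≤ U.card := by
  have h1 : U.card = D.card * R := by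
    rw [Finset.card_eq_sum_card_fiberwise (f := φ') (t := D) hφ, Finset.sum_congr rfl hfib]
    simp
  have h2 : (U.filter (fun u => Q (φ' u))).card = (D.filter Q).card * R := by
    rw [Finset.card_eq_sum_card_fiberwise (f := φ') (t := D.filter Q)]
    · have : ∀ d ∈ D.filter Q, ((U.filter (fun u => Q (φ' u))).filter (fun u => φ' u = d)).card = R := by
        intro d hd
        rw [mem_filter] at hd
        rw [← hfib d hd.1]
        congr 1
        ext u
        simp only [mem_filter]
        constructor
        · rintro ⟨⟨a, _⟩, b⟩; exact ⟨a, b⟩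
        · rintro ⟨a, b⟩; exact ⟨⟨a, by rw [b]; exact hd.2⟩, b⟩
      rw [Finset.sum_congr rfl this]
      simp
    · intro u hu
      simp only [coe_filter, Set.mem_setOf_eq] at hu
      simp only [coe_filter, Set.mem_setOf_eq]
      exact ⟨hφ u hu.1, hu.2⟩
  rw [h1, h2, ← mul_assoc]
  exact Nat.mul_le_mul_right _ h

theorem sampling {α : Type} [Fintype α] {m : ℕ} (C : Fin m → Finset α)
    (Bad : (Fin m → α) → (Fin m → α) → Prop) (F : Fin m → α → α → Prop)
    (hBad : ZZ m * (univ.filter (fun z : (Fin m → α) × (Fin m → α) =>
        (∀ i, z.1 i ∈ C i ∧ z.2 i ∈ C i) ∧ Bad z.1 z.2)).card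
      < (univ.filter (fun z : (Fin m → α) × (Fin m → α) =>
        (∀ i, z.1 i ∈ C i ∧ z.2 i ∈ C i))).card)
    (hF : ∀ i, ZZ m * (univ.filter (fun z : α × α =>
        z.1 ∈ C i ∧ z.2 ∈ C i ∧ F i z.1 z.2)).card < (C i).card ^ 2) :
    ∃ u : Fin m → Fin (m + 2) → α, (∀ i a, u i a ∈ C i) ∧
      (∀ a b : Fin m → Fin (m + 2), (∀ i, a i ≠ b i) →
        ¬ Bad (fun i => u i (a i)) (fun i => u i (b i))) ∧
      (∀ i a b, a ≠ b → ¬ F i (u i a) (u i b)) := by
  classical
  set U : Finset (Fin m → Fin (m + 2) → α) :=
    Fintype.piFinset (fun i => Fintype.piFinset (fun _ => C i)) with hU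
  have memU : ∀ u, u ∈ U ↔ ∀ i a, u i a ∈ C i := by
    intro u; simp [hU]
  set D : Finset ((Fin m → α) × (Fin m → α)) :=
    univ.filter (fun z => ∀ i, z.1 i ∈ C i ∧ z.2 i ∈ C i) with hD
  have memD : ∀ z, z ∈ D ↔ ∀ i, z.1 i ∈ C i ∧ z.2 i ∈ C i := by
    intro z; simp [hD]
  have hDpos : 0 < D.card := lt_of_le_of_lt (Nat.zero_le _) hBad
  have hUpos : 0 < U.card := by
    obtain ⟨z, hz⟩ := Finset.card_pos.1 hDpos
    rw [memD] at hz
    exact Finset.card_pos.2 ⟨fun i _ => z.1 i, (memU _).2 fun i _ => (hz i).1⟩
  have hBad' : ZZ m * (D.filter (fun z => Bad z.1 z.2)).card ≤ D.card := by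
    have e : D.filter (fun z => Bad z.1 z.2) = univ.filter (fun z : (Fin m → α) × (Fin m → α) =>
        (∀ i, z.1 i ∈ C i ∧ z.2 i ∈ C i) ∧ Bad z.1 z.2) := by
      ext z; simp [hD]
    rw [e]; exact hBad.le
  -- events of the first kind
  have ev1 : ∀ a b : Fin m → Fin (m + 2), (∀ i, a i ≠ b i) →
      ZZ m * (U.filter (fun u => Bad (fun i => u i (a i)) (fun i => u i (b i)))).card ≤ U.card := by
    intro a b hab
    refine samp_uni U D (fun u => (fun i => u i (a i), fun i => u i (b i)))
      (∏ i, ∏ c, if c = a i then 1 else if c = b i then 1 else (C i).card) (ZZ m) ?_ ?_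
      (fun z => Bad z.1 z.2) hBad'
    · intro u hu
      rw [memU] at hu
      rw [memD]
      exact fun i => ⟨hu i _, hu i _⟩
    · rintro ⟨p, q⟩ hd
      rw [memD] at hd
      have e : U.filter (fun u => ((fun i => u i (a i), fun i => u i (b i)) :
          (Fin m → α) × (Fin m → α)) = (p, q)) =
          Fintype.piFinset (fun i => Fintype.piFinset (fun c =>
            if c = a i then {p i} else if c = b i then {q i} else C i)) := by
        ext u
        rw [mem_filter, memU, Prod.mk.injEq]
        simp only [Fintype.mem_piFinset]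
        constructor
        · rintro ⟨h1, h2, h3⟩ i c
          by_cases hc : c = a i
          · rw [if_pos hc, hc, mem_singleton]
            exact congrFun h2 i
          · rw [if_neg hc]
            by_cases hc' : c = b i
            · rw [if_pos hc', hc', mem_singleton]
              exact congrFun h3 i
            · rw [if_neg hc']; exact h1 i c
        · intro h
          have k1 : ∀ i, u i (a i) = p i := by
            intro i
            have := h i (a i)
            rw [if_pos rfl, mem_singleton] at this
            exact this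
          have k2 : ∀ i, u i (b i) = q i := by
            intro i
            have := h i (b i)
            rw [if_neg (hab i).symm, if_pos rfl, mem_singleton] at this
            exact this
          refine ⟨?_, funext k1, funext k2⟩
          intro i c
          have := h i c
          by_cases hc : c = a i
          · rw [hc, k1 i]; exact (hd i).1
          · rw [if_neg hc] at this
            by_cases hc' : c = b i
            · rw [hc', k2 i]; exact (hd i).2
            · rw [if_neg hc'] at this; exact this
      refine Eq.trans (by congr) ((congrArg Finset.card e).trans ?_)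
      rw [Fintype.card_piFinset]
      refine Finset.prod_congr rfl fun i _ => ?_
      rw [Fintype.card_piFinset]
      refine Finset.prod_congr rfl fun c _ => ?_
      split_ifs <;> simp
  -- events of the second kind
  have ev2 : ∀ (i : Fin m) (a b : Fin (m + 2)), a ≠ b →
      ZZ m * (U.filter (fun u => F i (u i a) (u i b))).card ≤ U.card := by
    intro i a b hab
    have hF' : ZZ m * ((C i ×ˢ C i).filter (fun z => F i z.1 z.2)).card ≤ (C i ×ˢ C i).card := by
      have e : (C i ×ˢ C i).filter (fun z => F i z.1 z.2) = univ.filter (fun z : α × α =>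
          z.1 ∈ C i ∧ z.2 ∈ C i ∧ F i z.1 z.2) := by
        ext z; simp [and_assoc]
      rw [e, card_product, ← pow_two]
      exact (hF i).le
    refine samp_uni U (C i ×ˢ C i) (fun u => (u i a, u i b))
      (∏ j, ∏ c, if j = i then (if c = a then 1 else if c = b then 1 else (C j).card) else (C j).card)
      (ZZ m) ?_ ?_ (fun z => F i z.1 z.2) hF'
    · intro u hu
      rw [memU] at hu
      rw [mem_product]
      exact ⟨hu i _, hu i _⟩
    · rintro ⟨x, y⟩ hd
      rw [mem_product] at hd
      have e : U.filter (fun u => ((u i a, u i b) : α × α) = (x, y)) =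
          Fintype.piFinset (fun j => Fintype.piFinset (fun c =>
            if j = i then (if c = a then {x} else if c = b then {y} else C j) else C j)) := by
        ext u
        rw [mem_filter, memU, Prod.mk.injEq]
        simp only [Fintype.mem_piFinset]
        constructor
        · rintro ⟨h1, h2, h3⟩ j c
          by_cases hj : j = i
          · subst hj
            rw [if_pos rfl]
            by_cases hc : c = a
            · rw [if_pos hc, hc, mem_singleton]; exact h2
            · rw [if_neg hc]
              by_cases hc' : c = b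
              · rw [if_pos hc', hc', mem_singleton]; exact h3
              · rw [if_neg hc']; exact h1 j c
          · rw [if_neg hj]; exact h1 j c
        · intro h
          have k1 : u i a = x := by
            have := h i a
            rw [if_pos rfl, if_pos rfl, mem_singleton] at this
            exact this
          have k2 : u i b = y := by
            have := h i b
            rw [if_pos rfl, if_neg hab.symm, if_pos rfl, mem_singleton] at this
            exact this
          refine ⟨?_, k1, k2⟩
          intro j c
          have := h j c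
          by_cases hj : j = i
          · subst hj
            rw [if_pos rfl] at this
            by_cases hc : c = a
            · rw [hc, k1]; exact hd.1
            · rw [if_neg hc] at this
              by_cases hc' : c = b
              · rw [hc', k2]; exact hd.2
              · rw [if_neg hc'] at this; exact this
          · rw [if_neg hj] at this; exact this
      refine Eq.trans (by congr) ((congrArg Finset.card e).trans ?_)
      rw [Fintype.card_piFinset]
      refine Finset.prod_congr rfl fun j _ => ?_
      rw [Fintype.card_piFinset]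
      refine Finset.prod_congr rfl fun c _ => ?_
      split_ifs <;> simp
  -- union bound
  by_contra hcon
  push Not at hcon
  set S1 : Finset ((Fin m → Fin (m + 2)) × (Fin m → Fin (m + 2))) :=
    univ.filter (fun z => ∀ i, z.1 i ≠ z.2 i) with hS1
  set S2 : Finset (Fin m × (Fin (m + 2) × Fin (m + 2))) := univ.filter (fun z => z.2.1 ≠ z.2.2) with hS2
  have hcov : U ⊆ (S1.biUnion fun z => U.filter (fun u => Bad (fun i => u i (z.1 i)) (fun i => u i (z.2 i)))) ∪
      (S2.biUnion fun z => U.filter (fun u => F z.1 (u z.1 z.2.1) (u z.1 z.2.2))) := by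
    intro u hu
    rw [mem_union, mem_biUnion, mem_biUnion]
    by_contra hno
    push Not at hno
    obtain ⟨n1, n2⟩ := hno
    have hu' := (memU u).1 hu
    obtain ⟨i, a, b, hab, hFab⟩ := hcon u hu' (by
      intro a b hab hB
      exact n1 (a, b) (by simp [hS1]; exact hab) (mem_filter.2 ⟨hu, hB⟩))
    exact n2 (i, (a, b)) (by simp [hS2, hab]) (mem_filter.2 ⟨hu, hFab⟩)
  have c1 : S1.card ≤ (m + 2) ^ (2 * m) := by
    refine (card_filter_le _ _).trans ?_
    rw [card_univ, Fintype.card_prod, Fintype.card_fun, Fintype.card_fin, Fintype.card_fin, ← pow_add, two_mul]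
  have c2 : S2.card ≤ m * (m + 2) ^ 2 := by
    refine (card_filter_le _ _).trans ?_
    rw [card_univ, Fintype.card_prod, Fintype.card_prod, Fintype.card_fin, Fintype.card_fin, ← pow_two]
  have b1 : ZZ m * (S1.biUnion fun z => U.filter
      (fun u => Bad (fun i => u i (z.1 i)) (fun i => u i (z.2 i)))).card ≤ (m + 2) ^ (2 * m) * U.card := by
    calc _ ≤ ZZ m * ∑ z ∈ S1, (U.filter
          (fun u => Bad (fun i => u i (z.1 i)) (fun i => u i (z.2 i)))).card := by
          gcongr; exact card_biUnion_le
      _ = ∑ z ∈ S1, ZZ m * (U.filter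
          (fun u => Bad (fun i => u i (z.1 i)) (fun i => u i (z.2 i)))).card := by rw [mul_sum]
      _ ≤ ∑ z ∈ S1, U.card := by
          refine sum_le_sum fun z hz => ev1 z.1 z.2 ?_
          rw [hS1, mem_filter] at hz
          exact hz.2
      _ = S1.card * U.card := by simp
      _ ≤ _ := Nat.mul_le_mul_right _ c1
  have b2 : ZZ m * (S2.biUnion fun z => U.filter
      (fun u => F z.1 (u z.1 z.2.1) (u z.1 z.2.2))).card ≤ m * (m + 2) ^ 2 * U.card := by
    calc _ ≤ ZZ m * ∑ z ∈ S2, (U.filter
          (fun u => F z.1 (u z.1 z.2.1) (u z.1 z.2.2))).card := by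
          gcongr; exact card_biUnion_le
      _ = ∑ z ∈ S2, ZZ m * (U.filter
          (fun u => F z.1 (u z.1 z.2.1) (u z.1 z.2.2))).card := by rw [mul_sum]
      _ ≤ ∑ z ∈ S2, U.card := by
          refine sum_le_sum fun z hz => ev2 z.1 z.2.1 z.2.2 ?_
          rw [hS2, mem_filter] at hz
          exact hz.2
      _ = S2.card * U.card := by simp
      _ ≤ _ := Nat.mul_le_mul_right _ c2
  have b3 : ZZ m * U.card ≤ (m + 2) ^ (2 * m) * U.card + m * (m + 2) ^ 2 * U.card := by
    calc ZZ m * U.card ≤ ZZ m * (_ + _) := Nat.mul_le_mul_left _ ((card_le_card hcov).trans (card_union_le _ _))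
      _ = _ := mul_add _ _ _
      _ ≤ _ := add_le_add b1 b2
  unfold ZZ at b3
  have : ((m + 2) ^ (2 * m) + m * (m + 2) ^ 2 + 1) * U.card =
      (m + 2) ^ (2 * m) * U.card + m * (m + 2) ^ 2 * U.card + U.card := by ring
  omega

end Pool.Agent.Work.MP_73831e_pr
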