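import Pool.Agent.Work.MP_73831e_pr.Basic
import Pool.Agent.Work.MP_73831e_pr.GadFacts
import Pool.Agent.Work.MP_73831e_pr.Gadget
import Pool.Agent.Work.MP_73831e_pr.Sampling

/-!
MODULE BadFrac.

`frozen_count`: for `E` alive and a vertex set `S`, the ordered pairs `(u,v) ∈ S × S` with `f u = f v`
for every proper `(m+1)`-colouring `f` of `gr E` number at most `|S| + 2 Nm m E`: the diagonal, and for
`u ≠ v` the pair `{u,v}` is not in `E` (`E` is alive) and adding it kills colourability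
(`gr_insert`), so it is counted in `Nm m E`, at most twice.

`bad_frac`: fix isolated `s ≠ s'` of `gr (insert x E)`.  Suppose
`Z #{(p,q) ∈ ΠC² : bad} < #ΠC²`.  By `frozen_count`, with `c₅ Nm m E < NN n ≤ n²/2`, `c₅ = 2 Z K₃²`,
`n > 2 Z K₃²` and `n ≤ K₃ |C i|`:
`Z #{(u,v) ∈ C i × C i frozen} ≤ Z (n + n²/c₅) < (n/K₃)² ≤ |C i|²` (multiply by `K₃²`).
So `sampling` gives `u`, and `gadget_lemma` for `G = gr E` (with `gr_gadE`; `u i a ≠ s, s'` because
`C i` has no isolated vertex of `gr (insert x E)`) yields `False`.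
-/

open Finset
open scoped Classical Nat

namespace Pool.Agent.Work.MP_73831e_pr

theorem frozen_count {n m : ℕ} {E : Finset (Pr n)} (hal : Alive (m + 1) (gr E))
    (S : Finset (Fin n)) :
    (univ.filter (fun z : Fin n × Fin n => z.1 ∈ S ∧ z.2 ∈ S ∧
      ∀ f, PC (m + 1) (gr E) f → f z.1 = f z.2)).card ≤ S.card + 2 * Nm m E := by
  set A := univ.filter (fun z : Fin n × Fin n => z.1 ∈ S ∧ z.2 ∈ S ∧
      ∀ f, PC (m + 1) (gr E) f → f z.1 = f z.2) with hA
  set D := univ.filter (fun f : Pr n => f ∉ E ∧ ¬ Alive (m + 1) (gr (insert f E))) with hD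
  have hND : Nm m E = D.card := rfl
  set O := A.filter (fun z => ¬ z.1 = z.2) with hO
  have hsplit : A.card = (A.filter (fun z => z.1 = z.2)).card + O.card := by
    rw [hO, card_filter_add_card_filter_not]
  have hdiag : (A.filter (fun z => z.1 = z.2)).card ≤ S.card := by
    apply card_le_card_of_injOn (fun z => z.1)
    · intro z hz
      rw [mem_coe, mem_filter, hA, mem_filter] at hz
      exact hz.1.2.1
    · intro z hz w hw hzw
      rw [mem_coe, mem_filter] at hz hw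
      exact Prod.ext hzw (hz.2.symm.trans (Eq.trans hzw hw.2))
  have hmap : ∀ z ∈ O, ∃ f ∈ D, f.1 = s(z.1, z.2) := by
    intro z hz
    rw [hO, mem_filter, hA, mem_filter] at hz
    obtain ⟨⟨_, _, _, hfr⟩, hne⟩ := hz
    refine ⟨⟨s(z.1, z.2), fun h => hne (Sym2.mk_isDiag_iff.mp h)⟩, ?_, rfl⟩
    rw [hD, mem_filter]
    refine ⟨mem_univ _, ?_, ?_⟩
    · intro hmem
      obtain ⟨f, hf⟩ := hal
      exact hf z.1 z.2 ((mem_iff_adj rfl).mp hmem) (hfr f hf)
    · rintro ⟨f, hf⟩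
      have hadj := (mem_iff_adj (E := insert (⟨s(z.1, z.2), fun h => hne
        (Sym2.mk_isDiag_iff.mp h)⟩ : Pr n) E) (u := z.1) (v := z.2) rfl).mp (mem_insert_self _ _)
      exact hf z.1 z.2 hadj (hfr f (hf.anti (gr_mono (subset_insert _ _))))
  have h1 : O.card ≤ 2 * (O.image (fun z => s(z.1, z.2))).card := by
    apply card_le_mul_card_image
    intro e he
    obtain ⟨w, hw, rfl⟩ := mem_image.mp he
    refine (card_le_card (t := {w, (w.2, w.1)}) ?_).trans card_le_two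
    intro z hz
    rw [mem_filter] at hz
    rw [mem_insert, mem_singleton]
    rcases Sym2.eq_iff.mp hz.2 with ⟨h2, h3⟩ | ⟨h2, h3⟩
    · exact Or.inl (Prod.ext h2 h3)
    · exact Or.inr (Prod.ext h2 h3)
  have h2 : (O.image (fun z => s(z.1, z.2))).card ≤ D.card := by
    refine (card_le_card (t := D.image (fun f => f.1)) ?_).trans card_image_le
    intro e he
    obtain ⟨w, hw, rfl⟩ := mem_image.mp he
    obtain ⟨f, hf, hf'⟩ := hmap w hw
    exact mem_image.mpr ⟨f, hf, hf'⟩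
  rw [hND]
  omega

theorem bad_frac {n m L K₃ : ℕ} (hm : 2 ≤ m) {E : Finset (Pr n)} {x : Pr n}
    {C : Fin m → Finset (Fin n)} (hC : IsCl K₃ (gr (insert x E)) C)
    (hal : Alive (m + 1) (gr E)) (hU : ¬ Um (m + 1) L (gr E))
    (hfr : ¬ NN n ≤ (2 * ZZ m * K₃ ^ 2) * Nm m E) (hn : 2 * ZZ m * K₃ ^ 2 < n)
    {s s' : Fin n} (hs : iso (gr (insert x E)) s) (hs' : iso (gr (insert x E)) s')
    (hne : s ≠ s') :
    (univ.filter (fun z : (Fin m → Fin n) × (Fin m → Fin n) =>
        (∀ i, z.1 i ∈ C i ∧ z.2 i ∈ C i))).card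
      ≤ ZZ m * (univ.filter (fun z : (Fin m → Fin n) × (Fin m → Fin n) =>
        (∀ i, z.1 i ∈ C i ∧ z.2 i ∈ C i) ∧ ¬ (Alive (m + 1) (gr (gadE E s s' z.1 z.2)) ∧
          Um (m + 1) (L + 2) (gr (gadE E s s' z.1 z.2))))).card := by
  by_contra hcon
  rw [not_le] at hcon
  have hle : gr E ≤ gr (insert x E) := gr_mono (subset_insert _ _)
  have hF : ∀ i, ZZ m * (univ.filter (fun z : Fin n × Fin n =>
        z.1 ∈ C i ∧ z.2 ∈ C i ∧ ∀ f, PC (m + 1) (gr E) f → f z.1 = f z.2)).card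
        < (C i).card ^ 2 := by
    intro i
    have h1 := frozen_count hal (C i)
    have h2 := hC.big i
    have h3 : (C i).card ≤ n := by
      have := card_le_univ (C i); rwa [Fintype.card_fin] at this
    have h4 := two_NN n
    have h5 : n * (n - 1) ≤ n ^ 2 := by
      rw [pow_two]; exact Nat.mul_le_mul_left _ (Nat.sub_le _ _)
    push Not at hfr
    have h6 : n ^ 2 ≤ (K₃ * (C i).card) ^ 2 := Nat.pow_le_pow_left h2 2
    have hK0 : 0 < K₃ ^ 2 := by
      rcases Nat.eq_zero_or_pos (K₃ ^ 2) with h | h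
      · exfalso
        have : K₃ = 0 := by simpa using h
        subst this
        simp at h2
        omega
      · exact h
    refine lt_of_le_of_lt (Nat.mul_le_mul_left _ h1) ?_
    have h7 : K₃ ^ 2 * (ZZ m * ((C i).card + 2 * Nm m E)) < K₃ ^ 2 * (C i).card ^ 2 := by
      have h8 : K₃ ^ 2 * (C i).card ^ 2 = (K₃ * (C i).card) ^ 2 := by ring
      rw [h8]
      refine lt_of_lt_of_le ?_ h6
      have h9 : 2 * (K₃ ^ 2 * (ZZ m * ((C i).card + 2 * Nm m E))) < 2 * n ^ 2 := by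
        have h10 : 2 * ZZ m * K₃ ^ 2 * (C i).card ≤ 2 * ZZ m * K₃ ^ 2 * n :=
          Nat.mul_le_mul_left _ h3
        have h11 : 2 * ZZ m * K₃ ^ 2 * n ≤ n * n := Nat.mul_le_mul_right _ hn.le
        calc 2 * (K₃ ^ 2 * (ZZ m * ((C i).card + 2 * Nm m E)))
            = 2 * ZZ m * K₃ ^ 2 * (C i).card + 2 * (2 * ZZ m * K₃ ^ 2 * Nm m E) := by ring
          _ < n * n + 2 * NN n := by omega
          _ ≤ n * n + n ^ 2 := by rw [h4]; omega
          _ = 2 * n ^ 2 := by ring
      omega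
    exact Nat.lt_of_mul_lt_mul_left h7
  obtain ⟨Bad, hBad⟩ : ∃ Bad : (Fin m → Fin n) → (Fin m → Fin n) → Prop, ∀ p q, Bad p q ↔
      ¬ (Alive (m + 1) (gr (gadE E s s' p q)) ∧ Um (m + 1) (L + 2) (gr (gadE E s s' p q))) :=
    ⟨fun p q => ¬ (Alive (m + 1) (gr (gadE E s s' p q)) ∧
      Um (m + 1) (L + 2) (gr (gadE E s s' p q))), fun _ _ => Iff.rfl⟩
  obtain ⟨F, hFd⟩ : ∃ F : Fin m → Fin n → Fin n → Prop, ∀ i a b, F i a b ↔
      ∀ f, PC (m + 1) (gr E) f → f a = f b :=
    ⟨fun _ a b => ∀ f, PC (m + 1) (gr E) f → f a = f b, fun _ _ _ => Iff.rfl⟩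
  have hsamp := sampling C Bad F
  obtain ⟨u, hu, hsel, hfu⟩ := hsamp (by
    refine lt_of_le_of_lt (Nat.mul_le_mul_left _ (card_le_card ?_))
      (lt_of_lt_of_le hcon (card_le_card ?_))
    · intro z hz
      simp only [mem_filter, mem_univ, true_and] at hz ⊢
      exact ⟨hz.1, (hBad _ _).mp hz.2⟩
    · intro z hz
      simp only [mem_filter, mem_univ, true_and] at hz ⊢
      exact hz) (by
    intro i
    refine lt_of_le_of_lt (Nat.mul_le_mul_left _ (card_le_card ?_)) (hF i)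
    intro z hz
    simp only [mem_filter, mem_univ, true_and] at hz ⊢
    exact ⟨hz.1, hz.2.1, (hFd _ _ _).mp hz.2.2⟩)
  refine gadget_lemma hm hU (hs.anti hle) (hs'.anti hle) hne u ?_ ?_ ?_
  · intro i a
    constructor
    · intro h; exact hC.noniso i _ (hu i a) (h ▸ hs)
    · intro h; exact hC.noniso i _ (hu i a) (h ▸ hs')
  · intro a b hab
    have := hsel a b hab
    rw [hBad, not_not] at this
    rw [← gr_gadE]
    exact this.2
  · intro i a b hab
    have := hfu i a b hab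
    rw [hFd] at this
    push Not at this
    exact this

end Pool.Agent.Work.MP_73831e_pr
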