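import Pool.Agent.Work.MP_73831e_pr.Defs

/-! Basic facts (all proved). -/

open Finset
open scoped Classical Nat

namespace Pool.Agent.Work.MP_73831e_pr

section Abstract

variable {P : Type} [Fintype P]

theorem mem_pre (ω : Ordr P) {t : ℕ} {x : P} : x ∈ pre ω t ↔ ((ω.symm x : Fin _) : ℕ) < t := by
  unfold pre
  simp only [mem_map, mem_filter, mem_univ, true_and, Equiv.coe_toEmbedding]
  constructor
  · rintro ⟨a, ha, rfl⟩; simpa using ha
  · intro h; exact ⟨ω.symm x, h, by simp⟩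

theorem pre_zero (ω : Ordr P) : pre ω 0 = ∅ := by
  ext x; simp [mem_pre]

theorem pre_mono (ω : Ordr P) {t u : ℕ} (h : t ≤ u) : pre ω t ⊆ pre ω u := by
  intro x hx; rw [mem_pre] at *; omega

theorem pre_card (ω : Ordr P) {t : ℕ} (ht : t ≤ Fintype.card P) : (pre ω t).card = t := by
  unfold pre
  rw [card_map]
  have : (univ.filter (fun i : Fin (Fintype.card P) => (i : ℕ) < t)).card = t := by
    rw [Fin.card_filter_val_lt]; omega
  exact this

theorem not_mem_pre (ω : Ordr P) (t : Fin (Fintype.card P)) : ω t ∉ pre ω t := by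
  rw [mem_pre]; simp

theorem pre_succ [DecidableEq P] (ω : Ordr P) {t : ℕ} (ht : t < Fintype.card P) :
    pre ω (t + 1) = insert (ω ⟨t, ht⟩) (pre ω t) := by
  ext x
  rw [mem_insert, mem_pre, mem_pre]
  constructor
  · intro h
    rcases Nat.lt_succ_iff_lt_or_eq.mp h with h | h
    · exact Or.inr h
    · left
      have : ω.symm x = ⟨t, ht⟩ := Fin.ext h
      rw [← this]; simp
  · rintro (h | h)
    · subst h; simp
    · omega

theorem pre_top (ω : Ordr P) : pre ω (Fintype.card P) = univ := by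
  ext x; simp [mem_pre]

end Abstract

section Graph

variable {V : Type}

theorem PC.anti {k : ℕ} {G H : SimpleGraph V} (h : H ≤ G) {f : V → Fin k} (hf : PC k G f) :
    PC k H f := fun u v huv => hf u v (h huv)

theorem Alive.anti {k : ℕ} {G H : SimpleGraph V} (h : H ≤ G) (hG : Alive k G) : Alive k H :=
  let ⟨f, hf⟩ := hG; ⟨f, hf.anti h⟩

theorem Um.mono {k M : ℕ} {G H : SimpleGraph V} (h : G ≤ H) (hG : Um k M G) : Um k M H :=
  let ⟨K, hK, W, hW, hq⟩ := hG; ⟨K, hK.trans h, W, hW, hq⟩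

theorem Um.of_le {k M M' : ℕ} {G : SimpleGraph V} (h : M' ≤ M) (hG : Um k M G) : Um k M' G :=
  let ⟨K, hK, W, hW, hq⟩ := hG; ⟨K, hK, W, h.trans hW, hq⟩

theorem iso.anti {G H : SimpleGraph V} (h : H ≤ G) {s : V} (hs : iso G s) : iso H s :=
  fun v hv => hs v (h hv)

theorem spn_mono [Finite V] {G H : SimpleGraph V} (h : H ≤ G) (S : Finset V) :
    spn H S ≤ spn G S := by
  unfold spn
  apply Set.ncard_le_ncard _ (Set.toFinite _)
  rintro e ⟨he, h2⟩
  exact ⟨SimpleGraph.edgeSet_subset_edgeSet.mpr h he, h2⟩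

theorem tch_mono [Finite V] {G H : SimpleGraph V} (h : H ≤ G) (S : Finset V) :
    tch H S ≤ tch G S := by
  unfold tch
  apply Set.ncard_le_ncard _ (Set.toFinite _)
  rintro e ⟨he, h2⟩
  exact ⟨SimpleGraph.edgeSet_subset_edgeSet.mpr h he, h2⟩

theorem Sparse.anti [Finite V] {L : ℕ} {G H : SimpleGraph V} (h : H ≤ G) (hG : Sparse L G) :
    Sparse L H := fun S h1 h2 =>
  lt_of_le_of_lt (Nat.mul_le_mul_left _ (spn_mono h S)) (hG S h1 h2)

theorem DegOK.anti [Finite V] {a b : ℕ} {G H : SimpleGraph V} (h : H ≤ G) (hG : DegOK a b G) :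
    DegOK a b H := fun T h1 =>
  lt_of_le_of_lt (Nat.mul_le_mul_left _ (tch_mono h T)) (hG T h1)

theorem ManyIso.anti [Finite V] {a : ℕ} {G H : SimpleGraph V} (h : H ≤ G) (hG : ManyIso a G) :
    ManyIso a H := by
  unfold ManyIso at *
  refine hG.trans (Nat.mul_le_mul_left _ ?_)
  exact Set.ncard_le_ncard (fun v hv => iso.anti h hv) (Set.toFinite _)

theorem alive_iff_colorable {k : ℕ} {G : SimpleGraph V} : Alive k G ↔ G.Colorable k := by
  constructor
  · rintro ⟨f, hf⟩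
    exact ⟨SimpleGraph.Coloring.mk f (fun {u v} h => hf u v h)⟩
  · rintro ⟨c⟩
    exact ⟨c, fun u v h => c.valid h⟩

theorem alive_bot {k : ℕ} (hk : 0 < k) : Alive k (⊥ : SimpleGraph V) :=
  ⟨fun _ => ⟨0, hk⟩, fun u v h => by simp at h⟩

theorem gadG0_le {G : SimpleGraph V} {m : ℕ} (s s' : V) (p q : Fin m → V) :
    gadG0 G s s' p q ≤ gadG G s s' p q := by
  unfold gadG0 gadG
  apply sup_le_sup_left
  apply SimpleGraph.fromEdgeSet_mono
  exact Set.subset_union_left

theorem le_gadG0 {G : SimpleGraph V} {m : ℕ} (s s' : V) (p q : Fin m → V) :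
    G ≤ gadG0 G s s' p q := le_sup_left

theorem le_gadG {G : SimpleGraph V} {m : ℕ} (s s' : V) (p q : Fin m → V) :
    G ≤ gadG G s s' p q := le_sup_left

theorem gadG_adj {G : SimpleGraph V} {m : ℕ} {s s' : V} {p q : Fin m → V} {u v : V} :
    (gadG G s s' p q).Adj u v ↔ G.Adj u v ∨
      (((∃ i, s(s, p i) = s(u, v)) ∨ (∃ i, s(s', q i) = s(u, v)) ∨ s(u, v) = s(s, s')) ∧ u ≠ v) := by
  unfold gadG
  simp only [SimpleGraph.sup_adj, SimpleGraph.fromEdgeSet_adj, Set.mem_union, Set.mem_range,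
    Set.mem_singleton_iff, or_assoc]

theorem gadG0_adj {G : SimpleGraph V} {m : ℕ} {s s' : V} {p q : Fin m → V} {u v : V} :
    (gadG0 G s s' p q).Adj u v ↔ G.Adj u v ∨
      (((∃ i, s(s, p i) = s(u, v)) ∨ (∃ i, s(s', q i) = s(u, v))) ∧ u ≠ v) := by
  unfold gadG0
  simp only [SimpleGraph.sup_adj, SimpleGraph.fromEdgeSet_adj, Set.mem_union, Set.mem_range]

theorem delV_le (H : SimpleGraph V) (s : V) : delV H s ≤ H := fun _ _ h => h.1

end Graph

section Pairs

variable {n : ℕ}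

theorem gr_mono {E F : Finset (Pr n)} (h : E ⊆ F) : gr E ≤ gr F := by
  unfold gr
  apply SimpleGraph.fromEdgeSet_mono
  exact Set.image_mono (by exact_mod_cast h)

theorem gr_adj' {E : Finset (Pr n)} {u v : Fin n} :
    (gr E).Adj u v ↔ ∃ x ∈ E, x.1 = s(u, v) := by
  unfold gr
  rw [SimpleGraph.fromEdgeSet_adj]
  constructor
  · rintro ⟨⟨x, hx, he⟩, _⟩; exact ⟨x, hx, he⟩
  · rintro ⟨x, hx, he⟩
    refine ⟨⟨x, hx, he⟩, ?_⟩
    intro h
    apply x.2
    rw [he, h]
    exact Sym2.mk_isDiag_iff.mpr rfl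

theorem mem_iff_adj {E : Finset (Pr n)} {x : Pr n} {u v : Fin n} (h : x.1 = s(u, v)) :
    x ∈ E ↔ (gr E).Adj u v := by
  rw [gr_adj']
  constructor
  · intro hx; exact ⟨x, hx, h⟩
  · rintro ⟨y, hy, he⟩
    have : y = x := Subtype.ext (he.trans h.symm)
    rwa [← this]

theorem mem_edgeSet_gr {E : Finset (Pr n)} {e : Sym2 (Fin n)} :
    e ∈ (gr E).edgeSet ↔ ∃ x ∈ E, x.1 = e := by
  induction e using Sym2.ind with
  | _ u v => rw [SimpleGraph.mem_edgeSet, gr_adj']

theorem gr_empty : gr (∅ : Finset (Pr n)) = ⊥ := by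
  ext u v; simp [gr_adj']

theorem gr_insert (x : Pr n) (E : Finset (Pr n)) :
    gr (insert x E) = gr E ⊔ SimpleGraph.fromEdgeSet {x.1} := by
  ext u v
  rw [SimpleGraph.sup_adj, gr_adj', gr_adj', SimpleGraph.fromEdgeSet_adj, Set.mem_singleton_iff]
  constructor
  · rintro ⟨y, hy, he⟩
    rcases mem_insert.mp hy with rfl | hy
    · right
      refine ⟨he.symm, ?_⟩
      intro h
      apply y.2
      rw [he, h]; exact Sym2.mk_isDiag_iff.mpr rfl
    · left; exact ⟨y, hy, he⟩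
  · rintro (⟨y, hy, he⟩ | ⟨he, _⟩)
    · exact ⟨y, mem_insert_of_mem hy, he⟩
    · exact ⟨x, mem_insert_self _ _, he.symm⟩

theorem gr_gadE {m : ℕ} (E : Finset (Pr n)) (s s' : Fin n) (p q : Fin m → Fin n) :
    gr (gadE E s s' p q) = gadG (gr E) s s' p q := by
  ext u v
  rw [gadG_adj, gr_adj', gr_adj']
  unfold gadE
  constructor
  · rintro ⟨y, hy, he⟩
    rcases mem_union.mp hy with hy | hy
    · left; exact ⟨y, hy, he⟩
    · right
      simp only [mem_filter, mem_univ, true_and] at hy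
      rw [he] at hy
      refine ⟨?_, ?_⟩
      · rcases hy with ⟨i, h⟩ | ⟨i, h⟩ | h
        · exact Or.inl ⟨i, h.symm⟩
        · exact Or.inr (Or.inl ⟨i, h.symm⟩)
        · exact Or.inr (Or.inr h)
      · intro h
        apply y.2
        rw [he, h]; exact Sym2.mk_isDiag_iff.mpr rfl
  · rintro (⟨y, hy, he⟩ | ⟨he, hne⟩)
    · exact ⟨y, mem_union_left _ hy, he⟩
    · refine ⟨⟨s(u, v), fun h => hne (Sym2.mk_isDiag_iff.mp h)⟩, mem_union_right _ ?_, rfl⟩
      simp only [mem_filter, mem_univ, true_and]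
      rcases he with ⟨i, h⟩ | ⟨i, h⟩ | h
      · exact Or.inl ⟨i, h.symm⟩
      · exact Or.inr (Or.inl ⟨i, h.symm⟩)
      · exact Or.inr (Or.inr h)

theorem gr_gadE0 {m : ℕ} (E : Finset (Pr n)) (s s' : Fin n) (p q : Fin m → Fin n) :
    gr (gadE0 E s s' p q) = gadG0 (gr E) s s' p q := by
  ext u v
  rw [gadG0_adj, gr_adj', gr_adj']
  unfold gadE0
  constructor
  · rintro ⟨y, hy, he⟩
    rcases mem_union.mp hy with hy | hy
    · left; exact ⟨y, hy, he⟩
    · right
      simp only [mem_filter, mem_univ, true_and] at hy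
      rw [he] at hy
      refine ⟨?_, ?_⟩
      · rcases hy with ⟨i, h⟩ | ⟨i, h⟩
        · exact Or.inl ⟨i, h.symm⟩
        · exact Or.inr ⟨i, h.symm⟩
      · intro h
        apply y.2
        rw [he, h]; exact Sym2.mk_isDiag_iff.mpr rfl
  · rintro (⟨y, hy, he⟩ | ⟨he, hne⟩)
    · exact ⟨y, mem_union_left _ hy, he⟩
    · refine ⟨⟨s(u, v), fun h => hne (Sym2.mk_isDiag_iff.mp h)⟩, mem_union_right _ ?_, rfl⟩
      simp only [mem_filter, mem_univ, true_and]
      rcases he with ⟨i, h⟩ | ⟨i, h⟩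
      · exact Or.inl ⟨i, h.symm⟩
      · exact Or.inr ⟨i, h.symm⟩

theorem NN_eq (n : ℕ) : NN n = n.choose 2 := by
  unfold NN
  rw [Fintype.card_subtype_compl, Sym2.card, Sym2.card_subtype_diag]
  simp only [Fintype.card_fin]
  rw [Nat.choose_two_right, Nat.choose_two_right]
  rcases n with _ | n
  · simp
  · simp only [Nat.add_sub_cancel]
    have h1 : (n + 1 + 1) * (n + 1) = 2 * (n + 1) + (n + 1) * n := by ring
    rw [h1]
    omega

theorem two_NN (n : ℕ) : 2 * NN n = n * (n - 1) := by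
  rw [NN_eq, Nat.choose_two_right]
  exact Nat.two_mul_div_two_of_even (Nat.even_mul_pred_self n)

end Pairs

end Pool.Agent.Work.MP_73831e_pr
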