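import Pool.Agent.Work.MP_73831e_pr.Basic
import Pool.Agent.Work.MP_73831e_pr.GadFacts
import Pool.Agent.Work.MP_73831e_pr.BadFrac

/-!
MODULE ConfBad.  Summing `bad_frac` over the isolated pairs `(s, s')`.

All `c ∈ Conf` have the same weight `wt (gadC E c) = w'` (`conf_facts`, `card_gadE`), and
`Conf` is the disjoint union over ordered pairs `s ≠ s'` of isolated vertices of
`{(p,q) : p i, q i ∈ C i}`.  By `bad_frac`, for each `(s,s')` the number of all `(p,q)` is at most
`ZZ m` times the number of those that are bad.  Bad means `¬ (alive ∧ Um)`, which is the disjoint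
union of `¬ alive` and `alive ∧ ¬ Um`.
-/

open Finset
open scoped Classical Nat

namespace Pool.Agent.Work.MP_73831e_pr

theorem conf_bad {n m L K₃ : ℕ} (hm : 2 ≤ m) {E : Finset (Pr n)} {x : Pr n}
    {C : Fin m → Finset (Fin n)} (hC : IsCl K₃ (gr (insert x E)) C)
    (hal : Alive (m + 1) (gr E)) (hU : ¬ Um (m + 1) L (gr E))
    (hfr : ¬ NN n ≤ (2 * ZZ m * K₃ ^ 2) * Nm m E) (hn : 2 * ZZ m * K₃ ^ 2 < n) :
    ∑ c ∈ Conf (gr (insert x E)) C, wt (gadC E c) ≤ ZZ m *
      (∑ c ∈ (Conf (gr (insert x E)) C).filter (fun c =>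
          Alive (m + 1) (gr (gadC E c)) ∧ ¬ Um (m + 1) (L + 2) (gr (gadC E c))), wt (gadC E c)
       + ∑ c ∈ (Conf (gr (insert x E)) C).filter (fun c =>
          ¬ Alive (m + 1) (gr (gadC E c))), wt (gadC E c)) := by
  have hw : ∀ c ∈ Conf (gr (insert x E)) C, wt (gadC E c) =
      (E.card + 2 * m + 1)! * (Fintype.card (Pr n) - (E.card + 2 * m + 1) - 1)! := by
    intro c hc
    obtain ⟨h1, h2, h3, h4, h5, h6, h7⟩ := conf_facts hC hc
    unfold wt gadC
    rw [card_gadE h1 h2 h3 h4 h5 h6 h7]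
  have hsum : ∀ T ⊆ Conf (gr (insert x E)) C, ∑ c ∈ T, wt (gadC E c) = T.card *
      ((E.card + 2 * m + 1)! * (Fintype.card (Pr n) - (E.card + 2 * m + 1) - 1)!) := by
    intro T hT
    rw [Finset.sum_congr rfl (fun c hc => hw c (hT hc)), Finset.sum_const, smul_eq_mul]
  rw [hsum _ (Subset.refl _), hsum _ (filter_subset _ _), hsum _ (filter_subset _ _), ← add_mul,
    ← mul_assoc (ZZ m)]
  apply Nat.mul_le_mul_right
  have hU2 : ((Conf (gr (insert x E)) C).filter (fun c =>
        Alive (m + 1) (gr (gadC E c)) ∧ ¬ Um (m + 1) (L + 2) (gr (gadC E c)))).card +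
      ((Conf (gr (insert x E)) C).filter (fun c => ¬ Alive (m + 1) (gr (gadC E c)))).card =
      ((Conf (gr (insert x E)) C).filter (fun c =>
        ¬ (Alive (m + 1) (gr (gadC E c)) ∧ Um (m + 1) (L + 2) (gr (gadC E c))))).card := by
    rw [← card_union_of_disjoint]
    · congr 1
      ext c
      simp only [mem_union, mem_filter]
      tauto
    · rw [disjoint_left]
      intro c h1 h2
      simp only [mem_filter] at h1 h2
      exact h2.2 h1.2.1
  rw [hU2]
  unfold Conf
  have hsp : ∀ F : Cf n m → ℕ, ∑ c, F c =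
      ∑ ss : Fin n × Fin n, ∑ z : (Fin m → Fin n) × (Fin m → Fin n), F (ss, z) :=
    fun F => Fintype.sum_prod_type F
  rw [filter_filter, card_filter, card_filter, hsp, hsp, Finset.mul_sum]
  apply Finset.sum_le_sum
  intro ss _
  by_cases hss : iso (gr (insert x E)) ss.1 ∧ iso (gr (insert x E)) ss.2 ∧ ss.1 ≠ ss.2
  · have h := bad_frac hm hC hal hU hfr hn hss.1 hss.2.1 hss.2.2
    rw [card_filter, card_filter] at h
    unfold gadC
    simpa only [hss.1, hss.2.1, hss.2.2, true_and, ne_eq, not_false_eq_true] using h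
  · refine le_trans (le_of_eq ?_) (Nat.zero_le _)
    apply Finset.sum_eq_zero
    intro z _
    rw [if_neg]
    rintro ⟨h1, h2, h3, _⟩
    exact hss ⟨h1, h2, h3⟩

end Pool.Agent.Work.MP_73831e_pr
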