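import Pool.Agent.Work.MP_73831e_pr.Basic

/-!
MODULE Transfer.  In a uniformly random ordering the set of the first `M` elements is a uniformly
random `M`-subset.

Proof.  For a set `E` with `|E| = M` the number of `ω` with `pre ω M = E` does not depend on `E`
(compose with a permutation `σ` of `P` with `σ E = E'`; `Finset`s of the same cardinality are
related by a permutation, e.g. `Finset.exists_equiv_...`/`Equiv.extendSubtype`/
`Fintype.card_eq`), `pre ω M` always has `M` elements (`pre_card`) and there are `N!` orderings
(`Fintype.card_equiv`), so this number `c` satisfies `c * C(N,M) = N!`; sum over `E` with `A E`.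
-/

open Finset
open scoped Classical Nat

namespace Pool.Agent.Work.MP_73831e_pr

theorem mem_pre_trans {P : Type} [Fintype P] (ω : Ordr P) (σ : Equiv.Perm P) (t : ℕ) (x : P) :
    x ∈ pre (ω.trans σ) t ↔ σ.symm x ∈ pre ω t := by
  rw [mem_pre, mem_pre]
  rfl

theorem card_pre_le {P : Type} [Fintype P] (E E' : Finset P) (h : E.card = E'.card) :
    (univ.filter (fun ω : Ordr P => pre ω E.card = E)).card ≤
      (univ.filter (fun ω : Ordr P => pre ω E'.card = E')).card := by
  have e : {x // x ∈ E} ≃ {x // x ∈ E'} := Finset.equivOfCardEq h
  set σ : Equiv.Perm P := e.extendSubtype with hσ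
  have h1 : ∀ x, x ∈ E → σ x ∈ E' := fun x hx => e.extendSubtype_mem x hx
  have h2 : ∀ x, x ∉ E → σ x ∉ E' := fun x hx => e.extendSubtype_not_mem x hx
  apply Finset.card_le_card_of_injOn (fun ω => ω.trans σ)
  · intro ω hω
    simp only [coe_filter, mem_univ, true_and, Set.mem_ofPred_eq] at hω ⊢
    ext x
    rw [mem_pre_trans, ← h, hω]
    constructor
    · intro hx
      have := h1 _ hx
      simpa using this
    · intro hx
      by_contra hx'
      have := h2 _ hx'
      simp at this
      exact this hx
  · intro ω _ ω' _ hh
    have := congrArg (fun e : Ordr P => e.trans σ.symm) hh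
    simpa [Equiv.trans_assoc] using this

theorem card_pre {P : Type} [Fintype P] (E : Finset P) :
    (univ.filter (fun ω : Ordr P => pre ω E.card = E)).card * (Fintype.card P).choose E.card =
      (Fintype.card P)! := by
  set M := E.card with hM
  have hMle : M ≤ Fintype.card P := Finset.card_le_univ E
  have h1 : (univ : Finset (Ordr P)).card = (Fintype.card P)! := by
    rw [Finset.card_univ]
    exact (Fintype.card_equiv (Fintype.equivFin P).symm).trans (by simp)
  have h2 : (univ : Finset (Ordr P)).card =
      ∑ E' ∈ powersetCard M (univ : Finset P),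
        (univ.filter (fun ω : Ordr P => pre ω M = E')).card := by
    apply Finset.card_eq_sum_card_fiberwise
    intro ω _
    exact Finset.mem_coe.mpr (mem_powersetCard.mpr ⟨Finset.subset_univ _, pre_card ω hMle⟩)
  have h3 : ∀ E' ∈ powersetCard M (univ : Finset P),
      (univ.filter (fun ω : Ordr P => pre ω M = E')).card =
        (univ.filter (fun ω : Ordr P => pre ω M = E)).card := by
    intro E' hE'
    have hc : E'.card = M := (mem_powersetCard.mp hE').2
    have a := card_pre_le E E' (hM.symm.trans hc.symm)
    have b := card_pre_le E' E (hc.trans hM)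
    rw [hc] at a b
    rw [← hM] at a b
    exact le_antisymm b a
  rw [h1, Finset.sum_congr rfl h3, Finset.sum_const, card_powersetCard, Finset.card_univ,
    smul_eq_mul] at h2
  rw [h2]
  ring

theorem transfer {P : Type} [Fintype P] (A : Finset P → Prop) (M : ℕ) (hM : M ≤ Fintype.card P) :
    Nat.card {ω : Ordr P // A (pre ω M)} * (Fintype.card P).choose M
      = (univ.filter (fun E : Finset P => E.card = M ∧ A E)).card * (Fintype.card P)! := by
  rw [Nat.card_eq_fintype_card, Fintype.card_subtype]
  have h1 : (univ.filter (fun ω : Ordr P => A (pre ω M))).card =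
      ∑ E ∈ univ.filter (fun E : Finset P => E.card = M ∧ A E),
        ((univ.filter (fun ω : Ordr P => A (pre ω M))).filter (fun ω => pre ω M = E)).card := by
    apply Finset.card_eq_sum_card_fiberwise
    intro ω hω
    simp only [coe_filter, mem_univ, true_and, Set.mem_ofPred_eq] at hω ⊢
    exact ⟨pre_card ω hM, hω⟩
  rw [h1, Finset.sum_mul, Finset.card_eq_sum_ones, Finset.sum_mul]
  apply Finset.sum_congr rfl
  intro E hE
  simp only [mem_filter, mem_univ, true_and] at hE
  obtain ⟨hc, hA⟩ := hE
  subst hc
  rw [one_mul, ← card_pre E]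
  congr 2
  ext ω
  simp only [mem_filter, mem_univ, true_and]
  constructor
  · rintro ⟨_, h⟩; exact h
  · intro h; exact ⟨by rw [h]; exact hA, h⟩

end Pool.Agent.Work.MP_73831e_pr
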