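import Pool.Agent.Work.MP_73831e_pr.Basic
import Pool.Agent.Work.MP_73831e_pr.Transfer

/-!
MODULE Count.  For `x ∉ E` the number of orderings `ω` with `pre ω |E| = E` and `ω |E| = x` is
`wt E = |E|! (N - |E| - 1)!`, hence
`Wsum B = #{(ω, t) : B (pre ω t) (ω t)}`.

Proof of `count_ord`.  Fix `t = |E| < N`.  Either direct: such an ordering is a bijection
`Fin t ≃ E` together with a bijection `{i > t} ≃ (E ∪ {x})ᶜ` (`t!` and `(N-t-1)!` of them).
Or by symmetry: for a permutation `σ` of `P`, `ω ↦ ω.trans σ` maps the orderings of `(E, x)`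
bijectively onto those of `(σ E, σ x)`; all pairs `(E', x')` with `|E'| = t`, `x' ∉ E'` are of this
form, every `ω` belongs to exactly one such pair (`E' = pre ω t`, `x' = ω t`), and there are
`C(N,t) (N-t)` pairs, so each has `N! / (C(N,t)(N-t)) = t! (N-t-1)!` orderings
(`Nat.choose_mul_factorial_mul_factorial`).

Proof of `Wsum_eq`.  Partition the pairs `(ω, t)` with `B (pre ω t) (ω t)` by
`(E, x) = (pre ω t, ω t)`; then `x ∉ E` (`not_mem_pre`), `t = |E|` (`pre_card`).
-/

open Finset
open scoped Classical Nat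

namespace Pool.Agent.Work.MP_73831e_pr

theorem card_ord_le {P : Type} [Fintype P] (E : Finset P) (x x' : P) (hx : x ∉ E) (hx' : x' ∉ E)
    (h : E.card < Fintype.card P) :
    (univ.filter (fun ω : Ordr P => pre ω E.card = E ∧ ω ⟨E.card, h⟩ = x)).card ≤
      (univ.filter (fun ω : Ordr P => pre ω E.card = E ∧ ω ⟨E.card, h⟩ = x')).card := by
  apply Finset.card_le_card_of_injOn (fun ω => ω.trans (Equiv.swap x x'))
  · intro ω hω
    simp only [coe_filter, mem_univ, true_and, Set.mem_ofPred_eq] at hω ⊢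
    refine ⟨?_, ?_⟩
    · ext y
      rw [mem_pre_trans, hω.1, Equiv.symm_swap]
      constructor
      · intro hy
        have h1 : y ≠ x := by
          rintro rfl
          rw [Equiv.swap_apply_left] at hy
          exact hx' hy
        have h2 : y ≠ x' := by
          rintro rfl
          rw [Equiv.swap_apply_right] at hy
          exact hx hy
        rwa [Equiv.swap_apply_of_ne_of_ne h1 h2] at hy
      · intro hy
        have h1 : y ≠ x := by
          rintro rfl
          exact hx hy
        have h2 : y ≠ x' := by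
          rintro rfl
          exact hx' hy
        rwa [Equiv.swap_apply_of_ne_of_ne h1 h2]
    · rw [Equiv.trans_apply, hω.2, Equiv.swap_apply_left]
  · intro ω _ ω' _ hh
    have := congrArg (fun e : Ordr P => e.trans (Equiv.swap x x').symm) hh
    simpa [Equiv.trans_assoc] using this

theorem count_ord_aux {P : Type} [Fintype P] (E : Finset P) (x : P) (hx : x ∉ E)
    (h : E.card < Fintype.card P) :
    (univ.filter (fun ω : Ordr P => pre ω E.card = E ∧ ω ⟨E.card, h⟩ = x)).card = wt E := by
  set t := E.card with ht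
  have h1 : (univ.filter (fun ω : Ordr P => pre ω t = E)).card =
      ∑ y ∈ Eᶜ, ((univ.filter (fun ω : Ordr P => pre ω t = E)).filter
        (fun ω => ω ⟨t, h⟩ = y)).card := by
    apply Finset.card_eq_sum_card_fiberwise
    intro ω hω
    simp only [coe_filter, mem_univ, true_and, Set.mem_ofPred_eq] at hω
    apply Finset.mem_coe.mpr
    rw [Finset.mem_compl, ← hω]
    exact not_mem_pre ω ⟨t, h⟩
  have h2 : ∀ y ∈ Eᶜ, ((univ.filter (fun ω : Ordr P => pre ω t = E)).filter
      (fun ω => ω ⟨t, h⟩ = y)).card =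
      (univ.filter (fun ω : Ordr P => pre ω t = E ∧ ω ⟨t, h⟩ = x)).card := by
    intro y hy
    rw [Finset.mem_compl] at hy
    rw [Finset.filter_filter]
    exact le_antisymm (card_ord_le E y x hy hx h) (card_ord_le E x y hx hy h)
  rw [Finset.sum_congr rfl h2, Finset.sum_const, card_compl, smul_eq_mul] at h1
  have h3 := card_pre E
  rw [← ht] at h3
  rw [h1] at h3
  have h4 := Nat.choose_mul_factorial_mul_factorial h.le
  have h5 : (Fintype.card P - t)! = (Fintype.card P - t) * (Fintype.card P - t - 1)! := by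
    obtain ⟨k, hk⟩ : ∃ k, Fintype.card P - t = k + 1 := ⟨Fintype.card P - t - 1, by omega⟩
    rw [hk, Nat.factorial_succ, Nat.add_sub_cancel]
  have h6 : 0 < Fintype.card P - t := by omega
  have h7 : 0 < (Fintype.card P).choose t := Nat.choose_pos h.le
  unfold wt
  have h8 : ((Fintype.card P - t) * (Fintype.card P).choose t) *
      (univ.filter (fun ω : Ordr P => pre ω t = E ∧ ω ⟨t, h⟩ = x)).card =
      ((Fintype.card P - t) * (Fintype.card P).choose t) *
        (t ! * (Fintype.card P - t - 1)!) := by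
    rw [← ht] at h3
    calc _ = (Fintype.card P - t) * (univ.filter
          (fun ω : Ordr P => pre ω t = E ∧ ω ⟨t, h⟩ = x)).card * (Fintype.card P).choose t := by ring
      _ = (Fintype.card P)! := h3
      _ = _ := by rw [← h4, h5]; ring
  exact Nat.eq_of_mul_eq_mul_left (Nat.mul_pos h6 h7) h8

theorem count_ord {P : Type} [Fintype P] (E : Finset P) (x : P) (hx : x ∉ E) :
    Nat.card {ω : Ordr P // ∃ h : E.card < Fintype.card P, pre ω E.card = E ∧ ω ⟨E.card, h⟩ = x}
      = wt E := by
  have h : E.card < Fintype.card P := by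
    rw [← Finset.card_univ]
    exact Finset.card_lt_card (Finset.ssubset_iff_subset_ne.mpr
      ⟨Finset.subset_univ _, fun hh => hx (hh ▸ mem_univ x)⟩)
  rw [Nat.card_eq_fintype_card, Fintype.card_subtype, ← count_ord_aux E x hx h]
  congr 1
  ext ω
  simp only [mem_filter, mem_univ, true_and]
  constructor
  · rintro ⟨_, h1, h2⟩; exact ⟨h1, h2⟩
  · rintro ⟨h1, h2⟩; exact ⟨h, h1, h2⟩

theorem Wsum_eq {P : Type} [Fintype P] (B : Finset P → P → Prop) :
    Wsum B = Nat.card {z : Ordr P × Fin (Fintype.card P) // B (pre z.1 z.2) (z.1 z.2)} := by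
  rw [Nat.card_eq_fintype_card, Fintype.card_subtype]
  have h1 : (univ.filter (fun z : Ordr P × Fin (Fintype.card P) => B (pre z.1 z.2) (z.1 z.2))).card =
      ∑ p ∈ univ.filter (fun p : Finset P × P => p.2 ∉ p.1 ∧ B p.1 p.2),
        ((univ.filter (fun z : Ordr P × Fin (Fintype.card P) =>
          B (pre z.1 z.2) (z.1 z.2))).filter (fun z => (pre z.1 z.2, z.1 z.2) = p)).card := by
    apply Finset.card_eq_sum_card_fiberwise
    intro z hz
    simp only [coe_filter, mem_univ, true_and, Set.mem_ofPred_eq] at hz ⊢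
    exact ⟨not_mem_pre z.1 z.2, hz⟩
  have h2 : Wsum B = ∑ p ∈ univ.filter (fun p : Finset P × P => p.2 ∉ p.1 ∧ B p.1 p.2), wt p.1 := by
    unfold Wsum
    rw [Finset.sum_filter, Fintype.sum_prod_type]
    apply Finset.sum_congr rfl
    intro E _
    rw [Finset.sum_filter]
  rw [h1, h2]
  apply Finset.sum_congr rfl
  rintro ⟨E, x⟩ hp
  simp only [mem_filter, mem_univ, true_and] at hp
  obtain ⟨hx, hB⟩ := hp
  have h : E.card < Fintype.card P := by
    rw [← Finset.card_univ]
    exact Finset.card_lt_card (Finset.ssubset_iff_subset_ne.mpr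
      ⟨Finset.subset_univ _, fun hh => hx (hh ▸ mem_univ x)⟩)
  rw [← count_ord_aux E x hx h]
  apply Finset.card_bij (fun ω _ => (ω, ⟨E.card, h⟩))
  · intro ω hω
    simp only [mem_filter, mem_univ, true_and] at hω ⊢
    rw [hω.1, hω.2]
    exact ⟨hB, rfl⟩
  · intro ω _ ω' _ hh
    exact (Prod.ext_iff.mp hh).1
  · rintro ⟨ω, i⟩ hz
    simp only [mem_filter, mem_univ, true_and, Prod.mk.injEq] at hz
    obtain ⟨_, h3, h4⟩ := hz
    have h5 : (i : ℕ) = E.card := by
      rw [← h3, pre_card ω i.2.le]
    have h6 : i = ⟨E.card, h⟩ := Fin.ext h5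
    subst h6
    refine ⟨ω, ?_, rfl⟩
    simp only [mem_filter, mem_univ, true_and]
    exact ⟨h3, h4⟩

end Pool.Agent.Work.MP_73831e_pr
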