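import Pool.Agent.Work.MP_73831e_pr.Basic
import Pool.Agent.Work.MP_73831e_pr.Count

/-!
MODULE D1 (abstract).  `U` is increasing, `A` (alive) and `R` (regular) are decreasing.

Proof of `births_lower`.  By `Wsum_eq` both `Wsum`s count pairs `(ω, t)`.  Map each ordering `ω`
to one of the three (disjoint union) targets.  If `A (pre ω M)` or `¬ R (pre ω M)` then `ω` is
counted in the third term.  Otherwise let `τ` be minimal with `¬ A (pre ω τ)`; `1 ≤ τ ≤ M`.
If `¬ U (pre ω (τ-1))`: `(ω, τ-1)` is counted in the second term (`pre_succ`).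
If `U (pre ω (τ-1))`: let `t+1` be minimal with `U (pre ω (t+1))` (note `¬ U (pre ω 0)`), so
`t+1 ≤ τ-1`, `¬ U (pre ω t)`, `A (pre ω (t+1))`, `R (pre ω (t+1))` (by `pre_mono`, `t+1 ≤ M`),
`|pre ω t| + 1 = t+1 ≤ M`: so `(ω, t)` is counted in the first term.
The map is injective in `ω`, and the number of all `ω` is `N!` (`Fintype.card_equiv`).

Proof of `deaths_upper`.  The pairs `(ω, t)` counted by `Wsum (A E ∧ ¬A (E+x) ∧ ¬U E)` have
`A (pre ω t)`, `¬ A (pre ω (t+1))`; for a given `ω` there is at most one such `t` since `A` is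
decreasing. So the number of pairs is at most the number of such `ω`.
-/

open Finset
open scoped Classical Nat

namespace Pool.Agent.Work.MP_73831e_pr

theorem births_lower {P : Type} [Fintype P] [DecidableEq P] (U A R : Finset P → Prop)
    (hU : ∀ E F, E ⊆ F → U E → U F) (hA : ∀ E F, E ⊆ F → A F → A E)
    (hR : ∀ E F, E ⊆ F → R F → R E) (hU0 : ¬ U ∅) (hA0 : A ∅)
    (M : ℕ) (hM : M ≤ Fintype.card P) :
    (Fintype.card P)! ≤
      Wsum (fun (E : Finset P) x => ¬ U E ∧ U (insert x E) ∧ A (insert x E) ∧ R (insert x E) ∧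
        E.card + 1 ≤ M)
      + Wsum (fun (E : Finset P) x => A E ∧ ¬ A (insert x E) ∧ ¬ U E)
      + Nat.card {ω : Ordr P // ¬ (¬ A (pre ω M) ∧ R (pre ω M))} := by
  have hN : (Fintype.card P)! = Nat.card (Ordr P) := by
    rw [Nat.card_eq_fintype_card, Fintype.card_equiv (Fintype.equivFin P).symm, Fintype.card_fin]
  rw [Wsum_eq, Wsum_eq, hN, ← Nat.card_sum, ← Nat.card_sum]
  refine Nat.card_le_card_of_surjective
    (Sum.elim (Sum.elim (fun z => z.1.1) (fun z => z.1.1)) (fun z => z.1)) ?_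
  intro ω
  by_cases h : ¬ A (pre ω M) ∧ R (pre ω M)
  swap
  · exact ⟨Sum.inr ⟨ω, h⟩, rfl⟩
  obtain ⟨h1, h2⟩ := h
  have hex : ∃ t, ¬ A (pre ω t) := ⟨M, h1⟩
  set τ := Nat.find hex with hτ
  have hτ1 : ¬ A (pre ω τ) := Nat.find_spec hex
  have hτM : τ ≤ M := Nat.find_min' hex h1
  have hτ0 : τ ≠ 0 := by
    intro h0
    rw [h0, pre_zero] at hτ1
    exact hτ1 hA0
  have hτ2 : ∀ t < τ, A (pre ω t) := fun t ht => by
    have := Nat.find_min hex ht
    exact not_not.1 this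
  obtain ⟨t, ht⟩ := Nat.exists_eq_succ_of_ne_zero hτ0
  have htN : t < Fintype.card P := by omega
  by_cases hUt : U (pre ω t)
  · have hex2 : ∃ t, U (pre ω t) := ⟨t, hUt⟩
    set u := Nat.find hex2 with hu
    have hu1 : U (pre ω u) := Nat.find_spec hex2
    have hut : u ≤ t := Nat.find_min' hex2 hUt
    have hu0 : u ≠ 0 := by
      intro h0
      rw [h0, pre_zero] at hu1
      exact hU0 hu1
    obtain ⟨r, hr⟩ := Nat.exists_eq_succ_of_ne_zero hu0
    have hrN : r < Fintype.card P := by omega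
    have hr1 : ¬ U (pre ω r) := Nat.find_min hex2 (by omega)
    have e : insert (ω ⟨r, hrN⟩) (pre ω r) = pre ω u := by rw [hr, ← pre_succ]
    refine ⟨Sum.inl (Sum.inl ⟨(ω, ⟨r, hrN⟩), ?_⟩), rfl⟩
    refine ⟨hr1, ?_, ?_, ?_, ?_⟩
    · show U (insert (ω ⟨r, hrN⟩) (pre ω r))
      rw [e]; exact hu1
    · show A (insert (ω ⟨r, hrN⟩) (pre ω r))
      rw [e]; exact hτ2 u (by omega)
    · show R (insert (ω ⟨r, hrN⟩) (pre ω r))
      rw [e]; exact hR _ _ (pre_mono ω (by omega)) h2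
    · show (pre ω r).card + 1 ≤ M
      rw [pre_card ω hrN.le]; omega
  · refine ⟨Sum.inl (Sum.inr ⟨(ω, ⟨t, htN⟩), ?_⟩), rfl⟩
    refine ⟨hτ2 t (by omega), ?_, hUt⟩
    show ¬ A (insert (ω ⟨t, htN⟩) (pre ω t))
    rw [← pre_succ]
    rw [ht] at hτ1
    exact hτ1

theorem deaths_upper {P : Type} [Fintype P] [DecidableEq P] (U A : Finset P → Prop)
    (hA : ∀ E F, E ⊆ F → A F → A E) :
    Wsum (fun (E : Finset P) x => A E ∧ ¬ A (insert x E) ∧ ¬ U E) ≤
      Nat.card {ω : Ordr P // ∃ t, t < Fintype.card P ∧ A (pre ω t) ∧ ¬ A (pre ω (t + 1)) ∧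
        ¬ U (pre ω t)} := by
  rw [Wsum_eq]
  have key : ∀ z : {z : Ordr P × Fin (Fintype.card P) //
      A (pre z.1 z.2) ∧ ¬ A (insert (z.1 z.2) (pre z.1 z.2)) ∧ ¬ U (pre z.1 z.2)},
      ¬ A (pre z.1.1 (z.1.2 + 1)) := by
    intro z
    rw [pre_succ z.1.1 z.1.2.2]
    exact z.2.2.1
  refine Nat.card_le_card_of_injective
    (fun z => ⟨z.1.1, z.1.2, z.1.2.2, z.2.1, key z, z.2.2.2⟩) ?_
  have hlt : ∀ z w : {z : Ordr P × Fin (Fintype.card P) //
      A (pre z.1 z.2) ∧ ¬ A (insert (z.1 z.2) (pre z.1 z.2)) ∧ ¬ U (pre z.1 z.2)},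
      z.1.1 = w.1.1 → (z.1.2 : ℕ) < w.1.2 → False := by
    intro z w h1 h2
    apply key z
    refine hA _ _ (pre_mono _ (Nat.succ_le_of_lt h2)) ?_
    rw [h1]
    exact w.2.1
  intro z w h
  have h1 : z.1.1 = w.1.1 := congrArg Subtype.val h
  apply Subtype.ext
  apply Prod.ext h1
  apply Fin.ext
  rcases lt_trichotomy (z.1.2 : ℕ) w.1.2 with h2 | h2 | h2
  · exact (hlt z w h1 h2).elim
  · exact h2
  · exact (hlt w z h1.symm h2).elim

end Pool.Agent.Work.MP_73831e_pr
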