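import Pool.Agent.Work.MP_73831e_pr.Basic

/-!
MODULE D2.  Births `(E, x)` for which `E` has many pairs `f` with `E + f` dead are dominated by
the deaths from `¬ Um`: for fixed `E` (alive, `¬ Um`, `NN n ≤ c * Nm m E`), the sum of `wt E` over
`x ∉ E` is `≤ NN n * wt E ≤ c * Nm m E * wt E = c * ∑_{f ∉ E, E + f dead} wt E`, and these `f` are
the ones counted by `Qd` for this `E`.  Sum over `E`.
Use `Alive` of `gr (insert x E)` to get `Alive (gr E)` (`Alive.anti`, `gr_mono`).
-/

open Finset
open scoped Classical Nat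

namespace Pool.Agent.Work.MP_73831e_pr

theorem frozen_births {n m L c : ℕ} (B : Finset (Pr n) → Pr n → Prop)
    (hB : ∀ E x, x ∉ E → B E x → Alive (m + 1) (gr E) ∧ ¬ Um (m + 1) (L + 2) (gr E)) :
    Wsum (fun (E : Finset (Pr n)) x => B E x ∧ NN n ≤ c * Nm m E) ≤ c * Qd n m L := by
  unfold Qd Wsum
  rw [mul_sum]
  apply sum_le_sum
  intro E _
  rw [sum_const, sum_const, smul_eq_mul, smul_eq_mul, ← mul_assoc]
  apply Nat.mul_le_mul_right
  by_cases h : ∃ x, x ∉ E ∧ B E x ∧ NN n ≤ c * Nm m E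
  · obtain ⟨x, hx, hb, hn⟩ := h
    obtain ⟨h1, h2⟩ := hB E x hx hb
    refine (card_le_univ _).trans ?_
    refine (show Fintype.card (Pr n) ≤ c * Nm m E from hn).trans ?_
    apply Nat.mul_le_mul_left
    unfold Nm
    apply card_le_card
    intro f hf
    simp only [mem_filter, mem_univ, true_and] at hf ⊢
    exact ⟨hf.1, h1, hf.2, h2⟩
  · push Not at h
    rw [card_eq_zero.mpr]
    · exact Nat.zero_le _
    · apply eq_empty_of_forall_notMem
      intro x hx
      simp only [mem_filter, mem_univ, true_and] at hx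
      exact absurd hx.2.2 (not_le.mpr (h x hx.1 hx.2.1))

end Pool.Agent.Work.MP_73831e_pr
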