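import Pool.Agent.Work.MP_73831e_pr.Basic
import Pool.Agent.Work.MP_73831e_pr.GadFacts

/-!
MODULE D3 (lower bound for the weight of all configurations of one birth).

Proof.  `N = NN n`, `e = |E|`, `j = 2m+1`.  Every `c ∈ Conf` has `|gadC E c| = e + j` (`card_gadE`),
so `wt (gadC E c) = w' := (e+j)! (N-e-j-1)!`.
(1) `wt E * (e+1)^j ≤ w' * N^j`: `(e+j)!/e! ≥ (e+1)^j`, `(N-e-1)! ≤ (N-e-j-1)! N^j`
(`Nat.factorial_mul_pow_le_factorial`, `Nat.factorial_lt`..).  (needs `e + j + 1 ≤ N`)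
(2) `n ≤ K₁ (e+1)` and `N ≤ n²` (in fact `n²/2`): `wt E * n^j ≤ K₁^j w' n^{2j}`, so
`wt E ≤ K₁^j w' n^j`.
(3) The number of configurations is `I (I-1) ∏ |C i|²` with `I` = number of isolated vertices of
`gr (insert x E)`, `n ≤ K₄ I`, and `n ≤ K₃ |C i|`; for `n ≥ 2 K₄` (so `I ≥ 2`, `I - 1 ≥ I/2`)
`n² ≤ 2 K₄² I (I-1)` and `n^{2m} ≤ K₃^{2m} ∏ |C i|²`.
(4) `n wt E ≤ K₁^j w' n^{j+1} = K₁^j w' n^{2m} n² ≤ K₁^j K₃^{2m} 2 K₄² w' |Conf|`.
-/

open Finset
open scoped Classical Nat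

namespace Pool.Agent.Work.MP_73831e_pr

private theorem D3_conf {n m : ℕ} (G : SimpleGraph (Fin n)) (C : Fin m → Finset (Fin n)) :
    (Conf G C).card = ((univ.filter (fun v => iso G v)).card *
      (univ.filter (fun v => iso G v)).card - (univ.filter (fun v => iso G v)).card) *
      ((∏ i, (C i).card) * (∏ i, (C i).card)) := by
  have h : Conf G C = ((univ.filter (fun v => iso G v)).offDiag) ×ˢ
      (Fintype.piFinset C ×ˢ Fintype.piFinset C) := by
    ext c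
    unfold Conf
    simp only [mem_filter, mem_univ, true_and, mem_product, mem_offDiag, Fintype.mem_piFinset]
    constructor
    · rintro ⟨h1, h2, h3, h4⟩
      exact ⟨⟨h1, h2, h3⟩, fun i => (h4 i).1, fun i => (h4 i).2⟩
    · rintro ⟨⟨h1, h2, h3⟩, h4, h5⟩
      exact ⟨h1, h2, h3, fun i => ⟨h4 i, h5 i⟩⟩
  rw [h, card_product, card_product, offDiag_card, Fintype.card_piFinset]

private theorem D3_iso {n K : ℕ} (G : SimpleGraph (Fin n)) (h : ManyIso K G) (hn : 2 * K ≤ n)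
    (hn0 : 0 < n) :
    n ^ 2 ≤ 2 * K ^ 2 * ((univ.filter (fun v => iso G v)).card *
      (univ.filter (fun v => iso G v)).card - (univ.filter (fun v => iso G v)).card) := by
  have h1 : n ≤ K * (univ.filter (fun v => iso G v)).card := by
    unfold ManyIso at h
    rw [Nat.card_eq_fintype_card, Fintype.card_fin] at h
    have e : Set.ncard {v | iso G v} = (univ.filter (fun v => iso G v)).card := by
      rw [← Set.ncard_coe_finset]
      congr 1
      ext v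
      simp
    rwa [e] at h
  generalize (univ.filter (fun v => iso G v)).card = I at h1 ⊢
  have hK : 0 < K := by
    rcases Nat.eq_zero_or_pos K with h0 | h0
    · subst h0; omega
    · exact h0
  have hI : 2 ≤ I := by
    by_contra hlt
    have : K * I ≤ K * 1 := Nat.mul_le_mul_left _ (by omega)
    omega
  obtain ⟨t, rfl⟩ : ∃ t, I = t + 2 := ⟨I - 2, by omega⟩
  have e2 : (t + 2) * (t + 2) - (t + 2) = (t + 2) * (t + 1) := by
    have : (t + 2) * (t + 2) = (t + 2) * (t + 1) + (t + 2) := by ring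
    omega
  rw [e2]
  calc n ^ 2 ≤ (K * (t + 2)) ^ 2 := Nat.pow_le_pow_left h1 2
    _ = K ^ 2 * ((t + 2) * (t + 2)) := by ring
    _ ≤ K ^ 2 * ((t + 2) * (2 * (t + 1))) :=
        Nat.mul_le_mul_left _ (Nat.mul_le_mul_left _ (by omega))
    _ = 2 * K ^ 2 * ((t + 2) * (t + 1)) := by ring

private theorem D3_wt {n K e d j N w : ℕ} (hn0 : 0 < n) (hE : n ≤ K * (e + 1)) (hN : N ≤ n ^ 2)
    (hd : d + j ≤ N) (hw : w = e ! * (d + j)!) : w ≤ K ^ j * ((e + j)! * d !) * n ^ j := by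
  have hfa : e ! * (e + 1) ^ j ≤ (e + j)! := Nat.factorial_mul_pow_le_factorial
  have hfb : (d + j)! ≤ d ! * N ^ j := by
    rw [← Nat.factorial_mul_ascFactorial]
    exact Nat.mul_le_mul_left _ ((Nat.ascFactorial_le_pow_add d j).trans
      (Nat.pow_le_pow_left hd _))
  have hp : 0 < n ^ j := Nat.pow_pos hn0
  apply Nat.le_of_mul_le_mul_right _ hp
  calc w * n ^ j ≤ (e ! * (d ! * N ^ j)) * (K * (e + 1)) ^ j := by
        rw [hw]
        exact Nat.mul_le_mul (Nat.mul_le_mul_left _ hfb) (Nat.pow_le_pow_left hE _)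
    _ = K ^ j * ((e ! * (e + 1) ^ j) * d !) * N ^ j := by rw [mul_pow]; ring
    _ ≤ K ^ j * ((e + j)! * d !) * (n ^ 2) ^ j :=
        Nat.mul_le_mul (Nat.mul_le_mul_left _ (Nat.mul_le_mul_right _ hfa))
          (Nat.pow_le_pow_left hN _)
    _ = K ^ j * ((e + j)! * d !) * n ^ j * n ^ j := by ring

theorem conf_lower {n m K₁ K₃ K₄ : ℕ} {E : Finset (Pr n)} {x : Pr n}
    {C : Fin m → Finset (Fin n)} (hC : IsCl K₃ (gr (insert x E)) C)
    (hI : ManyIso K₄ (gr (insert x E))) (hE : n ≤ K₁ * (E.card + 1)) (hn : 2 * K₄ ≤ n)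
    (hn0 : 0 < n) (hN : E.card + 2 * m + 2 ≤ NN n) :
    n * wt E ≤ K₁ ^ (2 * m + 1) * K₃ ^ (2 * m) * (2 * K₄ ^ 2) *
      ∑ c ∈ Conf (gr (insert x E)) C, wt (gadC E c) := by
  have hw : ∀ c ∈ Conf (gr (insert x E)) C, wt (gadC E c) =
      (E.card + 2 * m + 1)! * (Fintype.card (Pr n) - (E.card + 2 * m + 1) - 1)! := by
    intro c hc
    obtain ⟨h1, h2, h3, h4, h5, h6, h7⟩ := conf_facts hC hc
    unfold wt gadC
    rw [card_gadE h1 h2 h3 h4 h5 h6 h7]
  rw [Finset.sum_congr rfl hw, Finset.sum_const, smul_eq_mul]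
  have hNN : Fintype.card (Pr n) = NN n := rfl
  rw [hNN]
  obtain ⟨d, hd⟩ : ∃ d, NN n = E.card + (2 * m + 1) + 1 + d :=
    ⟨NN n - (E.card + 2 * m + 2), by omega⟩
  have hd1 : NN n - (E.card + 2 * m + 1) - 1 = d := by omega
  have hd2 : NN n - E.card - 1 = d + (2 * m + 1) := by omega
  rw [hd1]
  have hwt : wt E = E.card ! * (d + (2 * m + 1))! := by
    unfold wt
    rw [hNN, hd2]
  have hNn : NN n ≤ n ^ 2 := by
    rw [NN_eq, Nat.choose_two_right]
    calc n * (n - 1) / 2 ≤ n * (n - 1) := Nat.div_le_self _ _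
      _ ≤ n * n := Nat.mul_le_mul_left _ (Nat.sub_le _ _)
      _ = n ^ 2 := by ring
  have h1 := D3_wt (n := n) (K := K₁) (e := E.card) (d := d) (j := 2 * m + 1) (N := NN n)
    (w := wt E) hn0 hE hNn (by omega) hwt
  have h2 := D3_iso _ hI hn hn0
  have h3 : n ^ m ≤ K₃ ^ m * ∏ i, (C i).card := by
    calc n ^ m = ∏ _i : Fin m, n := by rw [Finset.prod_const, card_univ, Fintype.card_fin]
      _ ≤ ∏ i, K₃ * (C i).card := Finset.prod_le_prod' (fun i _ => hC.big i)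
      _ = K₃ ^ m * ∏ i, (C i).card := by
        rw [Finset.prod_mul_distrib, Finset.prod_const, card_univ, Fintype.card_fin]
  rw [D3_conf]
  set I2 := (univ.filter (fun v => iso (gr (insert x E)) v)).card *
      (univ.filter (fun v => iso (gr (insert x E)) v)).card -
      (univ.filter (fun v => iso (gr (insert x E)) v)).card
  set PC2 := ∏ i, (C i).card
  have hee : E.card + 2 * m + 1 = E.card + (2 * m + 1) := by ring
  rw [hee]
  set w' := (E.card + (2 * m + 1))! * (d !)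
  calc n * wt E ≤ n * (K₁ ^ (2 * m + 1) * w' * n ^ (2 * m + 1)) := Nat.mul_le_mul_left _ h1
    _ = K₁ ^ (2 * m + 1) * w' * (n ^ 2 * (n ^ m * n ^ m)) := by ring
    _ ≤ K₁ ^ (2 * m + 1) * w' * ((2 * K₄ ^ 2 * I2) * ((K₃ ^ m * PC2) * (K₃ ^ m * PC2))) :=
        Nat.mul_le_mul_left _ (Nat.mul_le_mul h2 (Nat.mul_le_mul h3 h3))
    _ = K₁ ^ (2 * m + 1) * K₃ ^ (2 * m) * (2 * K₄ ^ 2) * (I2 * (PC2 * PC2) * w') := by ring

end Pool.Agent.Work.MP_73831e_pr
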