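import Pool.Agent.Work.MP_73831e_pr.Basic
import Pool.Agent.Work.MP_73831e_pr.GadFacts

/-!
MODULE D4 (configurations whose gadget is alive but without large unique subgraph).

Proof.  Consider the set of all `(E, x, c)` occurring in the left-hand side and the map
`(E, x, c) ↦ (gadC E c, x, (s, s'))`, `c = ((s,s'),(p,q))`.
* It is injective: `E` is recovered from `gadC E c`, `s`, `s'` by `recover`; then `Cl E x` is known
  and `p i`, `q i` are recovered by `recover_p`, `recover_q` (`gr_gadE`, `conf_facts`,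
  `IsCl.disj`, `IsCl.noniso`).
* `(E', x) = (gadC E c, x)` is one of the pairs counted in `Qd n m L`: `x ∉ E'` (`not_mem_gadE`),
  `E'` alive, `¬ Um`, and `insert x E'` dead (`gad_dead`).
* `s s'` is an edge of `E'`, so for given `E'` there are at most `2 |E'| ≤ 2 (C n + 2m)` ordered pairs
  `(s, s')`  (`|E'| = |E| + 2m + 1`, `card_gadE`).
Hence the sum is at most `∑_{(E', x) in Qd} 2 (C n + 2 m) wt E'`.
-/

open Finset
open scoped Classical Nat

namespace Pool.Agent.Work.MP_73831e_pr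

theorem D4_out {n m K₃ : ℕ} {E : Finset (Pr n)} {x : Pr n} {C : Fin m → Finset (Fin n)}
    (hC : IsCl K₃ (gr (insert x E)) C) {c : Cf n m} (hc : c ∈ Conf (gr (insert x E)) C) :
    (∀ i, c.1.1 ∉ C i ∧ c.1.2 ∉ C i) ∧ (∀ i, c.2.1 i ∈ C i) ∧ (∀ i, c.2.2 i ∈ C i) := by
  unfold Conf at hc
  simp only [mem_filter, mem_univ, true_and] at hc
  obtain ⟨h1, h2, h3, h4⟩ := hc
  exact ⟨fun i => ⟨fun h => hC.noniso i _ h h1, fun h => hC.noniso i _ h h2⟩,
    fun i => (h4 i).1, fun i => (h4 i).2⟩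

/-- configurations with the same gadget agree -/
theorem D4_inj {n m K₃ : ℕ} {E : Finset (Pr n)} {x : Pr n} {C : Fin m → Finset (Fin n)}
    (hC : IsCl K₃ (gr (insert x E)) C) {c d : Cf n m} (hc : c ∈ Conf (gr (insert x E)) C)
    (hd : d ∈ Conf (gr (insert x E)) C) (h1 : c.1 = d.1)
    (h2 : gadC E c = gadC E d ∨
      gadE0 E c.1.1 c.1.2 c.2.1 c.2.2 = gadE0 E d.1.1 d.1.2 d.2.1 d.2.2) : c = d := by
  obtain ⟨⟨s, s'⟩, p, q⟩ := c
  obtain ⟨⟨t, t'⟩, p', q'⟩ := d
  simp only [Prod.mk.injEq] at h1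
  obtain ⟨rfl, rfl⟩ := h1
  obtain ⟨f1, f2, f3, -, -, -, -⟩ := conf_facts hC hc
  obtain ⟨o1, o2, o3⟩ := D4_out hC hc
  obtain ⟨-, o2', o3'⟩ := D4_out hC hd
  simp only at f1 f2 f3 o1 o2 o3 o2' o3' h2
  have kp : p = p' := by
    funext i
    have r1 := recover_p f1 f3 hC.disj o1 o2 o3 (i := i) (o2 i)
    have r2 := recover_p f1 f3 hC.disj o1 o2' o3' (i := i) (o2 i)
    rcases h2 with h2 | h2
    · have h3 : gadG (gr E) s s' p q = gadG (gr E) s s' p' q' := by
        rw [← gr_gadE, ← gr_gadE]; exact congrArg gr h2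
      rw [h3] at r1
      exact r2.2.1 (r1.2.2 rfl)
    · have h3 : gadG0 (gr E) s s' p q = gadG0 (gr E) s s' p' q' := by
        rw [← gr_gadE0, ← gr_gadE0]; exact congrArg gr h2
      rw [h3] at r1
      exact r2.1.1 (r1.1.2 rfl)
  have kq : q = q' := by
    funext i
    have r1 := recover_q f2 f3 hC.disj o1 o2 o3 (i := i) (o3 i)
    have r2 := recover_q f2 f3 hC.disj o1 o2' o3' (i := i) (o3 i)
    rcases h2 with h2 | h2
    · have h3 : gadG (gr E) s s' p q = gadG (gr E) s s' p' q' := by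
        rw [← gr_gadE, ← gr_gadE]; exact congrArg gr h2
      rw [h3] at r1
      exact r2.2.1 (r1.2.2 rfl)
    · have h3 : gadG0 (gr E) s s' p q = gadG0 (gr E) s s' p' q' := by
        rw [← gr_gadE0, ← gr_gadE0]; exact congrArg gr h2
      rw [h3] at r1
      exact r2.1.1 (r1.1.2 rfl)
  rw [kp, kq]

/-- at most two ordered pairs for an unordered one -/
theorem D4_two {n : ℕ} (e : Sym2 (Fin n)) :
    (univ.filter (fun z : Fin n × Fin n => s(z.1, z.2) = e)).card ≤ 2 := by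
  induction e using Sym2.ind with
  | _ u v =>
    refine (card_le_card (t := {(u, v), (v, u)}) ?_).trans card_le_two
    intro z hz
    simp only [mem_filter, mem_univ, true_and] at hz
    rcases Sym2.eq_iff.1 hz with ⟨h1, h2⟩ | ⟨h1, h2⟩
    · simp [Prod.ext_iff, h1, h2]
    · simp [Prod.ext_iff, h1, h2]

theorem D4_adj {n : ℕ} (E : Finset (Pr n)) :
    (univ.filter (fun z : Fin n × Fin n => (gr E).Adj z.1 z.2)).card ≤ 2 * E.card := by
  have h : univ.filter (fun z : Fin n × Fin n => (gr E).Adj z.1 z.2) ⊆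
      E.biUnion (fun e => univ.filter (fun z : Fin n × Fin n => s(z.1, z.2) = e.1)) := by
    intro z hz
    simp only [mem_filter, mem_univ, true_and] at hz
    rw [gr_adj'] at hz
    obtain ⟨x, hx, he⟩ := hz
    rw [mem_biUnion]
    exact ⟨x, hx, by simp [he]⟩
  calc _ ≤ _ := card_le_card h
    _ ≤ ∑ e ∈ E, (univ.filter (fun z : Fin n × Fin n => s(z.1, z.2) = e.1)).card := card_biUnion_le
    _ ≤ ∑ e ∈ E, 2 := sum_le_sum fun e _ => D4_two e.1
    _ = 2 * E.card := by rw [sum_const, smul_eq_mul, mul_comm]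

/-- flattening the triple sum -/
theorem D4_flat {n m : ℕ} (B : Finset (Pr n) → Pr n → Prop)
    (S : Finset (Pr n) → Pr n → Finset (Cf n m)) (Q : Finset (Pr n) → Cf n m → Prop)
    (F : Finset (Pr n) → Cf n m → ℕ) :
    ∑ E : Finset (Pr n), ∑ x ∈ univ.filter (fun x => x ∉ E ∧ B E x),
      ∑ c ∈ (S E x).filter (fun c => Q E c), F E c =
    ∑ t ∈ univ.filter (fun t : Finset (Pr n) × Pr n × Cf n m =>
      (t.2.1 ∉ t.1 ∧ B t.1 t.2.1) ∧ t.2.2 ∈ S t.1 t.2.1 ∧ Q t.1 t.2.2), F t.1 t.2.2 := by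
  rw [sum_filter, Fintype.sum_prod_type]
  refine sum_congr rfl fun E _ => ?_
  rw [sum_filter, Fintype.sum_prod_type]
  refine sum_congr rfl fun x _ => ?_
  by_cases h : x ∉ E ∧ B E x
  · rw [if_pos h, sum_filter, ← sum_filter_add_sum_filter_not univ (fun c => c ∈ S E x)]
    have h2 : ∑ c ∈ univ.filter (fun c => ¬ c ∈ S E x),
        (if (x ∉ E ∧ B E x) ∧ c ∈ S E x ∧ Q E c then F E c else 0) = 0 := by
      refine sum_eq_zero fun c hc => ?_
      rw [mem_filter] at hc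
      rw [if_neg]
      exact fun h3 => hc.2 h3.2.1
    rw [h2, add_zero]
    have h3 : univ.filter (fun c => c ∈ S E x) = S E x := by ext c; simp
    rw [h3]
    refine sum_congr rfl fun c hc => ?_
    by_cases hq : Q E c
    · rw [if_pos hq, if_pos ⟨h, hc, hq⟩]
    · rw [if_neg hq, if_neg (fun h3 => hq h3.2.2)]
  · rw [if_neg h]
    symm
    refine sum_eq_zero fun c _ => ?_
    rw [if_neg]
    exact fun h3 => h h3.1

theorem bad_alive {n m L C K₃ : ℕ} (B : Finset (Pr n) → Pr n → Prop)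
    (Cl : Finset (Pr n) → Pr n → Fin m → Finset (Fin n))
    (hB : ∀ E x, x ∉ E → B E x → IsCl K₃ (gr (insert x E)) (Cl E x) ∧ E.card + 1 ≤ C * n) :
    ∑ E : Finset (Pr n), ∑ x ∈ univ.filter (fun x => x ∉ E ∧ B E x),
      ∑ c ∈ (Conf (gr (insert x E)) (Cl E x)).filter (fun c =>
        Alive (m + 1) (gr (gadC E c)) ∧ ¬ Um (m + 1) (L + 2) (gr (gadC E c))), wt (gadC E c)
      ≤ 2 * (C * n + 2 * m) * Qd n m L := by
  refine le_trans (le_of_eq (Eq.trans ?_ (D4_flat B (fun E x => Conf (gr (insert x E)) (Cl E x))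
    (fun E c => Alive (m + 1) (gr (gadC E c)) ∧ ¬ Um (m + 1) (L + 2) (gr (gadC E c)))
    (fun E c => wt (gadC E c))))) ?_
  · exact sum_congr rfl fun E _ => sum_congr (by congr) fun x _ => sum_congr (by congr) fun c _ => rfl
  set T := univ.filter (fun t : Finset (Pr n) × Pr n × Cf n m =>
      (t.2.1 ∉ t.1 ∧ B t.1 t.2.1) ∧ t.2.2 ∈ Conf (gr (insert t.2.1 t.1)) (Cl t.1 t.2.1) ∧
      (Alive (m + 1) (gr (gadC t.1 t.2.2)) ∧ ¬ Um (m + 1) (L + 2) (gr (gadC t.1 t.2.2)))) with hT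
  have memT : ∀ t ∈ T, (t.2.1 ∉ t.1 ∧ B t.1 t.2.1) ∧
      t.2.2 ∈ Conf (gr (insert t.2.1 t.1)) (Cl t.1 t.2.1) ∧
      (Alive (m + 1) (gr (gadC t.1 t.2.2)) ∧ ¬ Um (m + 1) (L + 2) (gr (gadC t.1 t.2.2))) := by
    intro t ht
    rw [hT, mem_filter] at ht
    exact ht.2
  let Φ : Finset (Pr n) × Pr n × Cf n m → Finset (Pr n) × Pr n × (Fin n × Fin n) :=
    fun t => (gadC t.1 t.2.2, t.2.1, t.2.2.1)
  have hinj : Set.InjOn Φ T := by
    rintro ⟨E, x, c⟩ ht ⟨E', x', d⟩ ht' he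
    obtain ⟨⟨a1, a2⟩, a3, -⟩ := memT _ ht
    obtain ⟨⟨b1, b2⟩, b3, -⟩ := memT _ ht'
    simp only at a1 a2 a3 b1 b2 b3
    simp only [Φ, Prod.mk.injEq] at he
    obtain ⟨e1, e2, e3⟩ := he
    subst e2
    obtain ⟨f1, f2, -⟩ := conf_facts (hB E x a1 a2).1 a3
    obtain ⟨g1, g2, -⟩ := conf_facts (hB E' x b1 b2).1 b3
    have hE : E = E' := by
      have r1 := recover (p := c.2.1) (q := c.2.2) f1 f2
      have r2 := recover (p := d.2.1) (q := d.2.2) g1 g2
      rw [← r1, ← r2]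
      have : gadE E c.1.1 c.1.2 c.2.1 c.2.2 = gadE E' d.1.1 d.1.2 d.2.1 d.2.2 := e1
      rw [this, e3]
    subst hE
    have := D4_inj (hB E x a1 a2).1 a3 b3 e3 (Or.inl e1)
    rw [this]
  set T' := univ.filter (fun y : Finset (Pr n) × Pr n × (Fin n × Fin n) =>
    (y.2.1 ∉ y.1 ∧ (Alive (m + 1) (gr y.1) ∧ ¬ Alive (m + 1) (gr (insert y.2.1 y.1)) ∧
      ¬ Um (m + 1) (L + 2) (gr y.1))) ∧ (gr y.1).Adj y.2.2.1 y.2.2.2 ∧ y.1.card ≤ C * n + 2 * m) with hT'
  have hsub : T.image Φ ⊆ T' := by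
    intro y hy
    rw [mem_image] at hy
    obtain ⟨⟨E, x, c⟩, ht, rfl⟩ := hy
    obtain ⟨⟨a1, a2⟩, a3, a4, a5⟩ := memT _ ht
    simp only at a1 a2 a3 a4 a5
    obtain ⟨f1, f2, f3, f4, f5, f6, f7⟩ := conf_facts (hB E x a1 a2).1 a3
    have hcf := a3
    unfold Conf at hcf
    simp only [mem_filter, mem_univ, true_and] at hcf
    rw [hT', mem_filter]
    refine ⟨mem_univ _, ⟨not_mem_gadE a1 hcf.1 hcf.2.1, a4, gad_dead (hB E x a1 a2).1 a3, a5⟩, ?_, ?_⟩
    · show (gr (gadE E c.1.1 c.1.2 c.2.1 c.2.2)).Adj c.1.1 c.1.2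
      rw [gr_gadE, gadG_adj]
      right
      exact ⟨Or.inr (Or.inr rfl), f3⟩
    · show (gadE E c.1.1 c.1.2 c.2.1 c.2.2).card ≤ _
      rw [card_gadE f1 f2 f3 f4 f5 f6 f7]
      have := (hB E x a1 a2).2
      omega
  calc _ = ∑ t ∈ T, wt (gadC t.1 t.2.2) := sum_congr (by rw [hT]; congr) (fun _ _ => rfl)
    _ = ∑ y ∈ T.image Φ, wt y.1 := by
        rw [sum_image hinj]
    _ ≤ ∑ y ∈ T', wt y.1 := sum_le_sum_of_subset hsub
    _ ≤ 2 * (C * n + 2 * m) * Qd n m L := by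
        unfold Qd Wsum
        rw [hT', sum_filter, Fintype.sum_prod_type, mul_sum]
        refine sum_le_sum fun E _ => ?_
        rw [Fintype.sum_prod_type, sum_filter, mul_sum]
        refine sum_le_sum fun x _ => ?_
        split_ifs with hx
        · rw [← sum_filter]
          refine (Finset.sum_le_card_nsmul _ _ (wt E) (fun _ _ => le_rfl)).trans ?_
          rw [smul_eq_mul]
          refine Nat.mul_le_mul_right _ ?_
          by_cases hc : E.card ≤ C * n + 2 * m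
          · calc _ ≤ (univ.filter (fun z : Fin n × Fin n => (gr E).Adj z.1 z.2)).card := by
                  refine card_le_card fun z hz => ?_
                  rw [mem_filter] at hz ⊢
                  exact ⟨mem_univ _, hz.2.2.1⟩
              _ ≤ 2 * E.card := D4_adj E
              _ ≤ _ := by omega
          · refine le_trans (le_of_eq ?_) (Nat.zero_le _)
            rw [card_eq_zero, filter_eq_empty_iff]
            intro z _ h3
            exact hc h3.2.2
        · rw [mul_zero, Nat.le_zero]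
          refine sum_eq_zero fun z _ => ?_
          rw [if_neg]
          exact fun h3 => hx h3.1

end Pool.Agent.Work.MP_73831e_pr
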