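import Pool.Agent.Work.MP_73831e_pr.Basic
import Pool.Agent.Work.MP_73831e_pr.GadFacts
import Pool.Agent.Work.MP_73831e_pr.Peel
import Pool.Agent.Work.MP_73831e_pr.Ext
import Pool.Agent.Work.MP_73831e_pr.D4

/-!
MODULE D5 (configurations whose gadget is dead).

Proof.  `R = C n + 2m`.  For `c = ((s,s'),(p,q))` put `E₂ = gadE0 E s s' p q` and let `f` be the pair
`{s,s'}`.  `|gadC E c| = |E₂| + 1 = |E| + 2m + 1 ≤ R` (`card_gadE`, `card_gadE0`), so by `wt_gad`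
`N wt (gadC E c) ≤ 2 R wt E₂`.
The pair `(E₂, f)` is counted in `Qd n m L`: `f ∉ E₂` (`not_mem_gadE0`), `E₂` is alive (`ext_gad0`,
`gr_gadE0`), `insert f E₂ = gadC E c` (`gadE_eq_insert`) is dead, and `¬ Um (m+1) (L+2) (gr E₂)`
by `um_of_gad0` and `¬ Um (m+1) L (gr E)`.
The map `(E, x, c) ↦ (E₂, x, (s, s'))` is injective (`recover0`, `recover_p`, `recover_q`), and for
given `(E₂, f)` there are at most `N` choices of `x` and `2` choices of `(s, s')`.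
So `N * LHS ≤ 2 R * 2 N * Qd`, i.e. `LHS ≤ 4 R Qd` (if `N = 0` there are no `x`).
-/

open Finset
open scoped Classical Nat

namespace Pool.Agent.Work.MP_73831e_pr

theorem bad_dead {n m L C K₃ : ℕ} (B : Finset (Pr n) → Pr n → Prop)
    (Cl : Finset (Pr n) → Pr n → Fin m → Finset (Fin n))
    (hN : 2 * (C * n + 2 * m) ≤ NN n)
    (hB : ∀ E x, x ∉ E → B E x → IsCl K₃ (gr (insert x E)) (Cl E x) ∧ E.card + 1 ≤ C * n ∧
      Alive (m + 1) (gr E) ∧ ¬ Um (m + 1) L (gr E)) :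
    ∑ E : Finset (Pr n), ∑ x ∈ univ.filter (fun x => x ∉ E ∧ B E x),
      ∑ c ∈ (Conf (gr (insert x E)) (Cl E x)).filter (fun c =>
        ¬ Alive (m + 1) (gr (gadC E c))), wt (gadC E c)
      ≤ 4 * (C * n + 2 * m) * Qd n m L := by
  refine le_trans (le_of_eq (Eq.trans ?_ (D4_flat B (fun E x => Conf (gr (insert x E)) (Cl E x))
    (fun E c => ¬ Alive (m + 1) (gr (gadC E c)))
    (fun E c => wt (gadC E c))))) ?_
  · exact sum_congr rfl fun E _ => sum_congr (by congr) fun x _ => sum_congr (by congr) fun c _ => rfl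
  set T := univ.filter (fun t : Finset (Pr n) × Pr n × Cf n m =>
      (t.2.1 ∉ t.1 ∧ B t.1 t.2.1) ∧ t.2.2 ∈ Conf (gr (insert t.2.1 t.1)) (Cl t.1 t.2.1) ∧
      ¬ Alive (m + 1) (gr (gadC t.1 t.2.2))) with hT
  have memT : ∀ t ∈ T, (t.2.1 ∉ t.1 ∧ B t.1 t.2.1) ∧
      t.2.2 ∈ Conf (gr (insert t.2.1 t.1)) (Cl t.1 t.2.1) ∧
      ¬ Alive (m + 1) (gr (gadC t.1 t.2.2)) := by
    intro t ht
    rw [hT, mem_filter] at ht
    exact ht.2
  set R := C * n + 2 * m with hR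
  let g0 : Finset (Pr n) → Cf n m → Finset (Pr n) := fun E c => gadE0 E c.1.1 c.1.2 c.2.1 c.2.2
  let Φ : Finset (Pr n) × Pr n × Cf n m → Finset (Pr n) × Pr n × (Fin n × Fin n) :=
    fun t => (g0 t.1 t.2.2, t.2.1, t.2.2.1)
  have hinj : Set.InjOn Φ T := by
    rintro ⟨E, x, c⟩ ht ⟨E', x', d⟩ ht' he
    obtain ⟨⟨a1, a2⟩, a3, -⟩ := memT _ ht
    obtain ⟨⟨b1, b2⟩, b3, -⟩ := memT _ ht'
    simp only at a1 a2 a3 b1 b2 b3
    simp only [Φ, Prod.mk.injEq] at he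
    obtain ⟨e1, e2, e3⟩ := he
    subst e2
    obtain ⟨f1, f2, -⟩ := conf_facts (hB E x a1 a2).1 a3
    obtain ⟨g1, g2, -⟩ := conf_facts (hB E' x b1 b2).1 b3
    have hE : E = E' := by
      have r1 := recover0 (p := c.2.1) (q := c.2.2) f1 f2
      have r2 := recover0 (p := d.2.1) (q := d.2.2) g1 g2
      rw [← r1, ← r2]
      have : gadE0 E c.1.1 c.1.2 c.2.1 c.2.2 = gadE0 E' d.1.1 d.1.2 d.2.1 d.2.2 := e1
      rw [this, e3]
    subst hE
    have := D4_inj (hB E x a1 a2).1 a3 b3 e3 (Or.inr e1)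
    rw [this]
  -- the pairs counted by `Qd`
  let QP : Finset (Pr n) → Pr n → Prop := fun E f =>
    Alive (m + 1) (gr E) ∧ ¬ Alive (m + 1) (gr (insert f E)) ∧ ¬ Um (m + 1) (L + 2) (gr E)
  let PP : Finset (Pr n) → Fin n × Fin n → Prop := fun E z => ∃ f : Pr n, s(z.1, z.2) = f.1 ∧ f ∉ E ∧ QP E f
  set T' := univ.filter (fun y : Finset (Pr n) × Pr n × (Fin n × Fin n) => PP y.1 y.2.2) with hT'
  have hfacts : ∀ t ∈ T, PP (g0 t.1 t.2.2) t.2.2.1 ∧ NN n * wt (gadC t.1 t.2.2) ≤ 2 * R * wt (g0 t.1 t.2.2) := by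
    rintro ⟨E, x, c⟩ ht
    obtain ⟨⟨a1, a2⟩, a3, a4⟩ := memT _ ht
    simp only at a1 a2 a3 a4
    obtain ⟨b1, b2, b3, b4⟩ := hB E x a1 a2
    obtain ⟨f1, f2, f3, f4, f5, f6, f7⟩ := conf_facts b1 a3
    let f : Pr n := ⟨s(c.1.1, c.1.2), fun h => f3 (Sym2.mk_isDiag_iff.mp h)⟩
    have hins := gadE_eq_insert (E := E) (p := c.2.1) (q := c.2.2) f rfl
    have hnm := not_mem_gadE0 (E := E) f1 f3 f4 f5 f rfl
    refine ⟨⟨f, rfl, hnm, ?_, ?_, ?_⟩, ?_⟩
    · obtain ⟨φ', hφ⟩ := b3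
      obtain ⟨g, hg, -⟩ := ext_gad0 f1 f2 f3 f4 f5 hφ
      refine ⟨g, ?_⟩
      show PC (m + 1) (gr (gadE0 E c.1.1 c.1.2 c.2.1 c.2.2)) g
      rw [gr_gadE0]
      exact hg
    · show ¬ Alive (m + 1) (gr (insert f (gadE0 E c.1.1 c.1.2 c.2.1 c.2.2)))
      rw [← hins]
      exact a4
    · show ¬ Um (m + 1) (L + 2) (gr (gadE0 E c.1.1 c.1.2 c.2.1 c.2.2))
      rw [gr_gadE0]
      exact fun h => b4 (um_of_gad0 f1 f2 f3 f4 f5 h)
    · have k1 := card_gadE0 f1 f2 f3 f4 f5 f6 f7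
      have k2 := card_gadE f1 f2 f3 f4 f5 f6 f7
      refine wt_gad (R := R) ?_ ?_ hN
      · rw [k1, k2]
      · rw [k2]; omega
  have hsub : T.image Φ ⊆ T' := by
    intro y hy
    rw [mem_image] at hy
    obtain ⟨t, ht, rfl⟩ := hy
    rw [hT', mem_filter]
    exact ⟨mem_univ _, (hfacts t ht).1⟩
  have hPP : ∀ E, (univ.filter (fun z => PP E z)).card ≤
      2 * (univ.filter (fun f : Pr n => f ∉ E ∧ QP E f)).card := by
    intro E
    have h : univ.filter (fun z => PP E z) ⊆ (univ.filter (fun f : Pr n => f ∉ E ∧ QP E f)).biUnion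
        (fun e => univ.filter (fun z : Fin n × Fin n => s(z.1, z.2) = e.1)) := by
      intro z hz
      rw [mem_filter] at hz
      obtain ⟨f, h1, h2, h3⟩ := hz.2
      rw [mem_biUnion]
      exact ⟨f, mem_filter.2 ⟨mem_univ _, h2, h3⟩, mem_filter.2 ⟨mem_univ _, h1⟩⟩
    calc _ ≤ _ := card_le_card h
      _ ≤ ∑ e ∈ univ.filter (fun f : Pr n => f ∉ E ∧ QP E f),
          (univ.filter (fun z : Fin n × Fin n => s(z.1, z.2) = e.1)).card := card_biUnion_le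
      _ ≤ ∑ e ∈ univ.filter (fun f : Pr n => f ∉ E ∧ QP E f), 2 := sum_le_sum fun e _ => D4_two e.1
      _ = _ := by rw [sum_const, smul_eq_mul, mul_comm]
  have hsum : ∑ t ∈ T, wt (g0 t.1 t.2.2) ≤ NN n * (2 * Qd n m L) := by
    calc ∑ t ∈ T, wt (g0 t.1 t.2.2) = ∑ y ∈ T.image Φ, wt y.1 := by rw [sum_image hinj]
      _ ≤ ∑ y ∈ T', wt y.1 := sum_le_sum_of_subset hsub
      _ ≤ NN n * (2 * Qd n m L) := by
        unfold Qd Wsum
        rw [hT', sum_filter, Fintype.sum_prod_type, mul_sum, mul_sum]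
        refine sum_le_sum fun E _ => ?_
        rw [Fintype.sum_prod_type]
        have h1 : ∀ x : Pr n, ∑ z : Fin n × Fin n, (if PP (E, x, z).1 (E, x, z).2.2 then wt (E, x, z).1 else 0)
            ≤ 2 * ∑ _x ∈ univ.filter (fun f : Pr n => f ∉ E ∧ QP E f), wt E := by
          intro x
          rw [← sum_filter]
          refine (Finset.sum_le_card_nsmul _ _ (wt E) (fun _ _ => le_rfl)).trans ?_
          rw [smul_eq_mul, sum_const, smul_eq_mul, ← mul_assoc]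
          refine Nat.mul_le_mul_right _ ?_
          refine le_trans (le_of_eq ?_) (hPP E)
          congr
        refine (sum_le_sum fun x _ => h1 x).trans ?_
        rw [sum_const, smul_eq_mul, card_univ]
        refine Nat.mul_le_mul_left _ (Nat.mul_le_mul_left _ (le_of_eq ?_))
        exact sum_congr (by congr) (fun _ _ => rfl)
  have hfin : NN n * ∑ t ∈ T, wt (gadC t.1 t.2.2) ≤ NN n * (4 * R * Qd n m L) := by
    calc NN n * ∑ t ∈ T, wt (gadC t.1 t.2.2) = ∑ t ∈ T, NN n * wt (gadC t.1 t.2.2) := mul_sum _ _ _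
      _ ≤ ∑ t ∈ T, 2 * R * wt (g0 t.1 t.2.2) := sum_le_sum fun t ht => (hfacts t ht).2
      _ = 2 * R * ∑ t ∈ T, wt (g0 t.1 t.2.2) := by rw [mul_sum]
      _ ≤ 2 * R * (NN n * (2 * Qd n m L)) := Nat.mul_le_mul_left _ hsum
      _ = NN n * (4 * R * Qd n m L) := by ring
  refine le_trans (le_of_eq (sum_congr (s₂ := T) (by rw [hT]; congr) (fun _ _ => rfl))) ?_
  rcases Nat.eq_zero_or_pos (NN n) with h0 | h0
  · have hemp : T = ∅ := by
      rw [eq_empty_iff_forall_notMem]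
      intro t _
      have : IsEmpty (Pr n) := Fintype.card_eq_zero_iff.1 h0
      exact this.false t.2.1
    rw [hemp]; simp
  · exact Nat.le_of_mul_le_mul_left hfin h0

end Pool.Agent.Work.MP_73831e_pr
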