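import Mathlib

/-! Common definitions for the development of MP_73831e_pr (see blueprint_73831e.md). -/

open Finset
open scoped Classical Nat

namespace Pool.Agent.Work.MP_73831e_pr

noncomputable section

/-! ### Abstract part: orderings of a finite set `P` (edges of `K_n`) -/

section Abstract

variable {P : Type} [Fintype P]

/-- An ordering of the elements of `P`. -/
abbrev Ordr (P : Type) [Fintype P] := Fin (Fintype.card P) ≃ P

/-- The set of the first `t` elements. -/
def pre (ω : Ordr P) (t : ℕ) : Finset P :=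
  (univ.filter (fun i : Fin (Fintype.card P) => (i : ℕ) < t)).map ω.toEmbedding

/-- Number of orderings which start with `E` and then `x`, for any fixed `x ∉ E`. -/
def wt (E : Finset P) : ℕ := (E.card)! * (Fintype.card P - E.card - 1)!

/-- Total weight of the pairs `(E, x)` with `x ∉ E` satisfying `B`. -/
def Wsum (B : Finset P → P → Prop) : ℕ :=
  ∑ E : Finset P, ∑ _x ∈ univ.filter (fun x => x ∉ E ∧ B E x), wt E

end Abstract

/-! ### Graph part -/

section Graph

variable {V : Type}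

/-- `f` is a proper `k`-colouring of `G`. -/
def PC (k : ℕ) (G : SimpleGraph V) (f : V → Fin k) : Prop := ∀ u v, G.Adj u v → f u ≠ f v

/-- `G` is `k`-colourable. -/
def Alive (k : ℕ) (G : SimpleGraph V) : Prop := ∃ f : V → Fin k, PC k G f

/-- The edges of `H` lie inside `W`, `H` is `k`-colourable and any two proper `k`-colourings
agree on `W` up to a permutation of the colours. -/
def UQ (k : ℕ) (H : SimpleGraph V) (W : Finset V) : Prop :=
  (∀ u v, H.Adj u v → u ∈ W ∧ v ∈ W) ∧ Alive k H ∧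
    ∀ f g : V → Fin k, PC k H f → PC k H g → ∃ π : Equiv.Perm (Fin k), ∀ w ∈ W, g w = π (f w)

/-- `G` has a subgraph that is uniquely `k`-colourable, in the sense of `UQ`, on at least
`M` vertices. -/
def Um (k M : ℕ) (G : SimpleGraph V) : Prop :=
  ∃ H : SimpleGraph V, H ≤ G ∧ ∃ W : Finset V, M ≤ W.card ∧ UQ k H W

/-- `s` is an isolated vertex of `G`. -/
def iso (G : SimpleGraph V) (s : V) : Prop := ∀ v, ¬ G.Adj s v

/-- `H` with all edges at `s` removed. -/
def delV (H : SimpleGraph V) (s : V) : SimpleGraph V where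
  Adj u v := H.Adj u v ∧ u ≠ s ∧ v ≠ s
  symm := ⟨fun _ _ h => ⟨h.1.symm, h.2.2, h.2.1⟩⟩
  loopless := ⟨fun u h => H.loopless.irrefl u h.1⟩

/-- The gadget: `s` joined to all `P i`, `s'` joined to all `P' i`, and `s` joined to `s'`. -/
def gadG (G : SimpleGraph V) {m : ℕ} (s s' : V) (P P' : Fin m → V) : SimpleGraph V :=
  G ⊔ SimpleGraph.fromEdgeSet
    (Set.range (fun i => s(s, P i)) ∪ Set.range (fun i => s(s', P' i)) ∪ {s(s, s')})

/-- The gadget without the edge `s s'`. -/
def gadG0 (G : SimpleGraph V) {m : ℕ} (s s' : V) (P P' : Fin m → V) : SimpleGraph V :=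
  G ⊔ SimpleGraph.fromEdgeSet
    (Set.range (fun i => s(s, P i)) ∪ Set.range (fun i => s(s', P' i)))

/-- Number of edges of `G` inside `S`. -/
def spn (G : SimpleGraph V) (S : Finset V) : ℕ := Set.ncard {e ∈ G.edgeSet | ∀ v ∈ e, v ∈ S}

/-- Number of edges of `G` with an end in `T`. -/
def tch (G : SimpleGraph V) (T : Finset V) : ℕ := Set.ncard {e ∈ G.edgeSet | ∃ v ∈ e, v ∈ T}

/-- Every vertex set `S` with `4 ≤ |S| ≤ L + 1` spans fewer than `5|S|/4` edges. -/
def Sparse (L : ℕ) (G : SimpleGraph V) : Prop :=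
  ∀ S : Finset V, 4 ≤ S.card → S.card ≤ L + 1 → 4 * spn G S < 5 * S.card

/-- Vertex sets with at most `|V|/K₃` vertices are touched by fewer than `|V|/K₂` edges. -/
def DegOK (K₂ K₃ : ℕ) (G : SimpleGraph V) : Prop :=
  ∀ T : Finset V, K₃ * T.card ≤ Nat.card V → K₂ * tch G T < Nat.card V

/-- At least `|V|/K₄` isolated vertices. -/
def ManyIso (K₄ : ℕ) (G : SimpleGraph V) : Prop :=
  Nat.card V ≤ K₄ * Set.ncard {v | iso G v}

/-- `H` has chromatic number `k` and any two proper `k`-colourings of `H` differ by a permutation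
of the colours. -/
def UniqueCol (k : ℕ) {W : Type} (H : SimpleGraph W) : Prop :=
  H.chromaticNumber = (k : ℕ∞) ∧
    ∀ c c' : H.Coloring (Fin k), ∃ π : Equiv.Perm (Fin k), ∀ w, c' w = π (c w)

/-- `G` has a subgraph which is uniquely `k`-colourable and is not a triangle. -/
def HasUC (k : ℕ) (G : SimpleGraph V) : Prop :=
  ∃ H : G.Subgraph, UniqueCol k H.coe ∧ ¬ Nonempty (H.coe ≃g (⊤ : SimpleGraph (Fin 3)))

end Graph

/-! ### Edge sets of `K_n` -/

/-- Pairs of distinct vertices. -/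
abbrev Pr (n : ℕ) := {e : Sym2 (Fin n) // ¬ e.IsDiag}

/-- The graph with edge set `E`. -/
def gr {n : ℕ} (E : Finset (Pr n)) : SimpleGraph (Fin n) :=
  SimpleGraph.fromEdgeSet (Subtype.val '' (E : Set (Pr n)))

/-- The number of pairs. -/
def NN (n : ℕ) : ℕ := Fintype.card (Pr n)

/-- The gadget on edge sets. -/
def gadE {n m : ℕ} (E : Finset (Pr n)) (s s' : Fin n) (P P' : Fin m → Fin n) : Finset (Pr n) :=
  E ∪ univ.filter (fun e : Pr n =>
    (∃ i, e.1 = s(s, P i)) ∨ (∃ i, e.1 = s(s', P' i)) ∨ e.1 = s(s, s'))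

/-- The gadget without the edge `s s'`, on edge sets. -/
def gadE0 {n m : ℕ} (E : Finset (Pr n)) (s s' : Fin n) (P P' : Fin m → Fin n) : Finset (Pr n) :=
  E ∪ univ.filter (fun e : Pr n => (∃ i, e.1 = s(s, P i)) ∨ (∃ i, e.1 = s(s', P' i)))

/-- Configurations `((s, s'), (P, P'))`. -/
abbrev Cf (n m : ℕ) := (Fin n × Fin n) × ((Fin m → Fin n) × (Fin m → Fin n))

/-- The gadget of a configuration. -/
def gadC {n m : ℕ} (E : Finset (Pr n)) (c : Cf n m) : Finset (Pr n) :=
  gadE E c.1.1 c.1.2 c.2.1 c.2.2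

/-- Admissible configurations for the graph `G'` and the classes `Cl`. -/
def Conf {n m : ℕ} (G' : SimpleGraph (Fin n)) (Cl : Fin m → Finset (Fin n)) : Finset (Cf n m) :=
  univ.filter (fun c => iso G' c.1.1 ∧ iso G' c.1.2 ∧ c.1.1 ≠ c.1.2 ∧
    ∀ i, c.2.1 i ∈ Cl i ∧ c.2.2 i ∈ Cl i)

/-- Classes of the large uniquely colourable subgraph of `G'`: `m` disjoint sets of non-isolated
vertices, each of size at least `n/K₃`, which every proper `(m+1)`-colouring of `G'` colours
constantly, with distinct colours. -/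
structure IsCl {n m : ℕ} (K₃ : ℕ) (G' : SimpleGraph (Fin n)) (C : Fin m → Finset (Fin n)) :
    Prop where
  disj : ∀ i j, i ≠ j → Disjoint (C i) (C j)
  big : ∀ i, n ≤ K₃ * (C i).card
  noniso : ∀ i, ∀ v ∈ C i, ¬ iso G' v
  col : ∀ f, PC (m + 1) G' f →
    ∃ π : Equiv.Perm (Fin (m + 1)), ∀ i : Fin m, ∀ v ∈ C i, f v = π i.castSucc

/-- The constant of the sampling lemma. -/
def ZZ (m : ℕ) : ℕ := (m + 2) ^ (2 * m) + m * (m + 2) ^ 2 + 1

/-- The last step before the jump has no large uniquely colourable subgraph: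
weight of the pairs `(E, x)` with `E` alive, `E + x` dead and `¬ Um (m+1) (L+2) E`. -/
def Qd (n m L : ℕ) : ℕ :=
  Wsum (fun (E : Finset (Pr n)) x =>
    Alive (m + 1) (gr E) ∧ ¬ Alive (m + 1) (gr (insert x E)) ∧ ¬ Um (m + 1) (L + 2) (gr E))

/-- Number of pairs whose addition to `E` kills `(m+1)`-colourability. -/
def Nm {n : ℕ} (m : ℕ) (E : Finset (Pr n)) : ℕ :=
  (univ.filter (fun f : Pr n => f ∉ E ∧ ¬ Alive (m + 1) (gr (insert f E)))).card

/-- The jump step: the first `t` for which the graph is not `k`-colourable. -/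
def IsJump {n : ℕ} (k : ℕ) (ω : Ordr (Pr n)) (τ : ℕ) : Prop :=
  ¬ (gr (pre ω τ)).Colorable k ∧ ∀ t < τ, (gr (pre ω t)).Colorable k

end

end Pool.Agent.Work.MP_73831e_pr
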