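import Pool.Agent.Work.MP_73831e_pr.Basic

/-!
MODULE Edges.  A uniquely `k`-colourable `(H, W)` with `k ≥ 3`, `|W| ≥ 4` has at least `5|W|/4` edges.

Proof.  Fix a proper colouring `f` of `H`; `V_i = {w ∈ W : f w = i}`.
(1) Kempe: for `i ≠ j` with `V_i ∪ V_j` nonempty, the graph `H` induced on `V_i ∪ V_j` is connected:
otherwise `V_i ∪ V_j = A ⊔ B` with `A, B ≠ ∅` and no `H`-edge between; interchange colours `i, j` on
`A` only, giving a proper colouring `g`; `g = π ∘ f` on `W`.  Say `b ∈ B` has colour `i` (the other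
case is symmetric): `π i = i`.  For `a ∈ A`: if `f a = i` then `π i = g a = j`, contradiction; if
`f a = j` then `π j = g a = i = π i`, contradiction.
So `H` has at least `|V_i| + |V_j| - 1` edges between `V_i` and `V_j`
(`SimpleGraph.Connected.card_vert_le_card_edgeSet_add_one` for the induced graph).
(2) Let `q` = number of nonempty classes and sum over the pairs of nonempty classes (these edge sets
are disjoint): `|E(H)| ≥ (q-1)|W| - q(q-1)/2`.
(3) If some class `V_j` is empty then every class has at most one element (recolour one vertex of a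
class with two elements to `j`: the two colourings do not differ by a permutation); then `q = |W| ≥ 4`.
If no class is empty `q = k ≥ 3`, `|W| ≥ q`.  In both cases `3 ≤ q ≤ |W|`, and
`(q-1)|W| - q(q-1)/2 = (q-1)(|W| - q/2)` is `≥ 2|W| - 3` (it is increasing in `q ≤ |W|`), and
`2|W| - 3 ≥ 5|W|/4` for `|W| ≥ 4`.

`sparse_um`: if `H ≤ G`, `UQ k H W`, `4 ≤ |W| ≤ L+1` then all edges of `H` are inside `W`, so
`spn G W ≥ |E(H)| ≥ 5|W|/4`, contradicting `Sparse L G`; so `|W| ≥ L+2`.

`um_card`: the edges of `H ≤ gr E` are at most `|E|`, so `|E| ≥ 5|W|/4 ≥ |W| ≥ M`.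
-/

open Finset
open scoped Classical Nat

namespace Pool.Agent.Work.MP_73831e_pr

/-- Kempe connectivity of two colour classes. -/
private theorem edges_kempe {V : Type} {k : ℕ} {H : SimpleGraph V} {W : Finset V}
    (h : UQ k H W) {f : V → Fin k} (hf : PC k H f) {i j : Fin k} (hij : i ≠ j) :
    (H.induce {w | w ∈ W ∧ (f w = i ∨ f w = j)}).Preconnected := by
  obtain ⟨hW, -, huniq⟩ := h
  set S : Set V := {w | w ∈ W ∧ (f w = i ∨ f w = j)} with hS
  intro a b
  by_contra hab
  set A : Set V := {v | ∃ hv : v ∈ S, (H.induce S).Reachable a ⟨v, hv⟩} with hA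
  have haA : (a : V) ∈ A := ⟨a.2, SimpleGraph.Reachable.refl _⟩
  have hbA : (b : V) ∉ A := fun ⟨_, hr⟩ => hab hr
  let g : V → Fin k := fun v => if v ∈ A then Equiv.swap i j (f v) else f v
  have hsw : ∀ c : Fin k, (c = i ∨ c = j) → (Equiv.swap i j c = i ∨ Equiv.swap i j c = j) := by
    rintro c (rfl | rfl)
    · right; simp
    · left; simp
  have hmix : ∀ u v, H.Adj u v → u ∈ A → v ∉ A → g u ≠ g v := by
    intro u v huv hu hv
    obtain ⟨huS, hur⟩ := hu
    have hvW := (hW u v huv).2
    have hvc : ¬ (f v = i ∨ f v = j) := by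
      intro hc
      have hvS : v ∈ S := ⟨hvW, hc⟩
      apply hv
      refine ⟨hvS, hur.trans ?_⟩
      apply SimpleGraph.Adj.reachable
      exact huv
    have hu' : u ∈ A := ⟨huS, hur⟩
    simp only [g, if_pos hu', if_neg hv]
    intro he
    apply hvc
    rw [← he]
    exact hsw _ huS.2
  have hg : PC k H g := by
    intro u v huv
    by_cases hu : u ∈ A <;> by_cases hv : v ∈ A
    · simp only [g, if_pos hu, if_pos hv]
      intro he
      exact hf u v huv ((Equiv.swap i j).injective he)
    · exact hmix u v huv hu hv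
    · exact (hmix v u huv.symm hv hu).symm
    · simp only [g, if_neg hu, if_neg hv]
      exact hf u v huv
  obtain ⟨π, hπ⟩ := huniq f g hf hg
  have h1 := hπ a a.2.1
  have h2 := hπ b b.2.1
  simp only [g, if_pos haA] at h1
  simp only [g, if_neg hbA] at h2
  have ha := a.2.2
  have hb := b.2.2
  have hinj := π.injective
  rcases ha with ha | ha <;> rcases hb with hb | hb
  · rw [ha, Equiv.swap_apply_left] at h1; rw [hb] at h2
    exact hij (h2.trans h1.symm)
  · rw [ha, Equiv.swap_apply_left] at h1; rw [hb] at h2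
    exact hij (hinj (h1.symm.trans h2))
  · rw [ha, Equiv.swap_apply_right] at h1; rw [hb] at h2
    exact hij (hinj (h2.symm.trans h1))
  · rw [ha, Equiv.swap_apply_right] at h1; rw [hb] at h2
    exact hij (h1.trans h2.symm)

/-- the darts between two colour classes -/
private theorem edges_pair {V : Type} [Fintype V] {k : ℕ} {H : SimpleGraph V} {W : Finset V}
    (h : UQ k H W) {f : V → Fin k} (hf : PC k H f) {i j : Fin k} (hij : i ≠ j)
    (hne : ∃ w ∈ W, f w = i) :
    (W.filter (fun w => f w = i)).card + (W.filter (fun w => f w = j)).card ≤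
      (univ.filter (fun z : V × V => H.Adj z.1 z.2 ∧ f z.1 = i ∧ f z.2 = j)).card + 1 := by
  have hpre := edges_kempe h hf hij
  set S : Set V := {w | w ∈ W ∧ (f w = i ∨ f w = j)} with hS
  have hcon : (H.induce S).Connected := by
    obtain ⟨w, hw, hwi⟩ := hne
    exact { preconnected := hpre, nonempty := ⟨⟨w, hw, Or.inl hwi⟩⟩ }
  have h1 := hcon.card_vert_le_card_edgeSet_add_one
  have h2 : Nat.card S = (W.filter (fun w => f w = i)).card + (W.filter (fun w => f w = j)).card := by
    rw [← card_union_of_disjoint]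
    · rw [Nat.card_coe_set_eq, ← Set.ncard_coe_finset]
      congr 1
      ext w
      simp only [hS, Set.mem_setOf_eq, coe_union, coe_filter, Set.mem_union]
      tauto
    · rw [disjoint_left]
      intro w hw hw'
      rw [mem_filter] at hw hw'
      exact hij (hw.2.symm.trans hw'.2)
  have h3 : Nat.card (H.induce S).edgeSet ≤
      (univ.filter (fun z : V × V => H.Adj z.1 z.2 ∧ f z.1 = i ∧ f z.2 = j)).card := by
    obtain ⟨D, hD⟩ : ∃ D, D = univ.filter (fun z : V × V => H.Adj z.1 z.2 ∧ f z.1 = i ∧ f z.2 = j) :=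
      ⟨_, rfl⟩
    rw [← hD]
    have hDm : ∀ z : D, H.Adj z.1.1 z.1.2 ∧ f z.1.1 = i ∧ f z.1.2 = j := by
      intro z
      have h5 := z.2
      simp only [hD, mem_filter, mem_univ, true_and] at h5
      exact h5
    have hSm : ∀ z : D, z.1.1 ∈ S ∧ z.1.2 ∈ S := fun z =>
      ⟨⟨(h.1 _ _ (hDm z).1).1, Or.inl (hDm z).2.1⟩, ⟨(h.1 _ _ (hDm z).1).2, Or.inr (hDm z).2.2⟩⟩
    have e : D.card = Nat.card D := by rw [Nat.card_eq_fintype_card, Fintype.card_coe]
    rw [e]
    refine Nat.card_le_card_of_surjective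
      (fun z => (⟨s(⟨z.1.1, (hSm z).1⟩, ⟨z.1.2, (hSm z).2⟩), (hDm z).1⟩ : (H.induce S).edgeSet)) ?_
    rintro ⟨e, he⟩
    induction e using Sym2.ind with
    | _ u v =>
      have hadj : H.Adj (u : V) v := he
      have hne := hf _ _ hadj
      rcases u.2.2 with hu | hu
      · have hv : f v = j := by
          rcases v.2.2 with hv | hv
          · exact absurd (hu.trans hv.symm) hne
          · exact hv
        refine ⟨⟨((u : V), (v : V)), ?_⟩, ?_⟩
        · rw [hD, mem_filter]
          exact ⟨mem_univ _, hadj, hu, hv⟩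
        · rfl
      · have hv : f v = i := by
          rcases v.2.2 with hv | hv
          · exact hv
          · exact absurd (hu.trans hv.symm) hne
        refine ⟨⟨((v : V), (u : V)), ?_⟩, ?_⟩
        · rw [hD, mem_filter]
          exact ⟨mem_univ _, hadj.symm, hv, hu⟩
        · apply Subtype.ext
          exact Sym2.eq_swap
  omega

/-- number of colours -/
private theorem edges_q {V : Type} [Fintype V] {k : ℕ} (hk : 3 ≤ k) {H : SimpleGraph V} {W : Finset V}
    (h : UQ k H W) {f : V → Fin k} (hf : PC k H f) (hW : 4 ≤ W.card) :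
    3 ≤ (W.image f).card ∧ (W.image f).card ≤ W.card := by
  refine ⟨?_, card_image_le⟩
  by_cases hinj : Set.InjOn f W
  · rw [card_image_of_injOn hinj]; omega
  · have hall : W.image f = univ := by
      by_contra hne
      obtain ⟨j, hj⟩ : ∃ j, j ∉ W.image f := by
        by_contra hc
        push Not at hc
        exact hne (eq_univ_iff_forall.2 hc)
      have hj' : ∀ w ∈ W, f w ≠ j := fun w hw he => hj (mem_image.2 ⟨w, hw, he⟩)
      apply hinj
      intro u hu v hv huv
      by_contra huv'
      let g : V → Fin k := fun x => if x = u then j else f x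
      have hg : PC k H g := by
        intro x y hxy
        have hxW := (h.1 _ _ hxy).1
        have hyW := (h.1 _ _ hxy).2
        by_cases hx : x = u <;> by_cases hy : y = u
        · exact absurd (hx.trans hy.symm) hxy.ne
        · simp only [g, if_pos hx, if_neg hy]
          exact (hj' y hyW).symm
        · simp only [g, if_neg hx, if_pos hy]
          exact hj' x hxW
        · simp only [g, if_neg hx, if_neg hy]
          exact hf x y hxy
      obtain ⟨π, hπ⟩ := h.2.2 f g hf hg
      have h1 := hπ u hu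
      have h2 := hπ v hv
      simp only [g, if_true] at h1
      simp only [g, if_neg (Ne.symm huv')] at h2
      rw [← huv, ← h1] at h2
      exact hj' u hu h2
    rw [hall, card_univ, Fintype.card_fin]
    exact hk

theorem uq_edges {V : Type} [Finite V] {k : ℕ} (hk : 3 ≤ k) {H : SimpleGraph V} {W : Finset V}
    (h : UQ k H W) (hW : 4 ≤ W.card) : 5 * W.card ≤ 4 * H.edgeSet.ncard := by
  classical
  have := Fintype.ofFinite V
  obtain ⟨f, hf⟩ := h.2.1
  obtain ⟨hq3, hqW⟩ := edges_q hk h hf hW
  set Q := W.image f with hQ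
  set a : Fin k → ℕ := fun i => (W.filter (fun w => f w = i)).card with ha
  set d : Fin k → Fin k → ℕ := fun i j =>
    (univ.filter (fun z : V × V => H.Adj z.1 z.2 ∧ f z.1 = i ∧ f z.2 = j)).card with hd
  have hsum : ∑ i ∈ Q, a i = W.card := by
    rw [ha]
    exact (Finset.card_eq_sum_card_image f W).symm
  have hpair : ∀ i ∈ Q, ∀ j ∈ Q, i ≠ j → a i + a j ≤ d i j + 1 := by
    intro i hi j hj hij
    refine edges_pair h hf hij ?_
    obtain ⟨w, hw, hwi⟩ := mem_image.1 hi
    exact ⟨w, hw, hwi⟩
  have hD : ∑ z ∈ Q.offDiag, d z.1 z.2 ≤ 2 * H.edgeSet.ncard := by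
    have h1 : (univ.filter (fun z : V × V => H.Adj z.1 z.2)).card = 2 * H.edgeSet.ncard := by
      have h2 := H.dart_card_eq_twice_card_edges
      have h3 : H.edgeSet.ncard = H.edgeFinset.card := by
        rw [← SimpleGraph.coe_edgeFinset, Set.ncard_coe_finset]
      rw [h3, ← h2, ← Fintype.card_subtype]
      exact Fintype.card_congr ⟨fun z => ⟨z.1, z.2⟩, fun z => ⟨z.1, z.2⟩, fun z => rfl, fun z => rfl⟩
    rw [← h1, Finset.card_eq_sum_card_fiberwise (f := fun z : V × V => (f z.1, f z.2))
      (t := univ) (fun _ _ => by simp)]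
    calc ∑ z ∈ Q.offDiag, d z.1 z.2 ≤ ∑ z ∈ (univ : Finset (Fin k × Fin k)), d z.1 z.2 :=
          sum_le_sum_of_subset (subset_univ _)
      _ = _ := by
          refine sum_congr rfl fun z _ => ?_
          simp only [hd]
          congr 1
          ext x
          simp only [mem_filter, mem_univ, true_and, Prod.ext_iff]
  have hT : 2 * (Q.card - 1) * W.card ≤ ∑ z ∈ Q.offDiag, d z.1 z.2 + Q.card * (Q.card - 1) := by
    have h1 : ∑ z ∈ Q.offDiag, (a z.1 + a z.2) = 2 * (Q.card - 1) * W.card := by
      have h2 : ∑ z ∈ Q ×ˢ Q, (a z.1 + a z.2) = 2 * Q.card * W.card := by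
        rw [sum_product]
        simp only [sum_add_distrib, sum_const, hsum, smul_eq_mul]
        rw [← mul_sum, hsum]
        ring
      have h3 : ∑ z ∈ Q.diag, (a z.1 + a z.2) = 2 * W.card := by
        rw [sum_diag]
        simp only [sum_add_distrib, hsum]
        ring
      have h4 : ∑ z ∈ Q.diag, (a z.1 + a z.2) + ∑ z ∈ Q.offDiag, (a z.1 + a z.2) =
          ∑ z ∈ Q ×ˢ Q, (a z.1 + a z.2) := by
        rw [← diag_union_offDiag, sum_union (disjoint_diag_offDiag Q)]
      have h5 : 2 * (Q.card - 1) * W.card + 2 * W.card = 2 * Q.card * W.card := by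
        obtain ⟨r, hr⟩ : ∃ r, Q.card = r + 1 := ⟨Q.card - 1, by omega⟩
        rw [hr]; simp; ring
      omega
    rw [← h1]
    have h6 : Q.card * (Q.card - 1) = Q.offDiag.card := by
      rw [offDiag_card, Nat.mul_sub, mul_one]
    rw [h6, card_eq_sum_ones, ← sum_add_distrib]
    refine sum_le_sum fun z hz => ?_
    rw [mem_offDiag] at hz
    exact hpair z.1 hz.1 z.2 hz.2.1 hz.2.2
  obtain ⟨r, hr⟩ : ∃ r, Q.card = r + 1 := ⟨Q.card - 1, by omega⟩
  rw [hr] at hT hq3 hqW
  simp only [Nat.add_sub_cancel] at hT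
  have hfin : 2 * r * W.card ≤ 2 * H.edgeSet.ncard + (r + 1) * r := hT.trans (by gcongr)
  rcases Nat.lt_or_ge r 3 with h3 | h3
  · have : r = 2 := by omega
    subst this
    omega
  · nlinarith

theorem sparse_um {V : Type} [Finite V] {k L : ℕ} (hk : 3 ≤ k) {G : SimpleGraph V}
    (hG : Sparse L G) (h : Um k 4 G) : Um k (L + 2) G := by
  obtain ⟨H, hH, W, hW, hU⟩ := h
  refine ⟨H, hH, W, ?_, hU⟩
  by_contra hc
  push Not at hc
  have h1 := hG W hW (by omega)
  have h2 := uq_edges hk hU hW
  have h3 : H.edgeSet.ncard ≤ spn G W := by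
    unfold spn
    apply Set.ncard_le_ncard _ (Set.toFinite _)
    intro e he
    refine ⟨SimpleGraph.edgeSet_subset_edgeSet.mpr hH he, ?_⟩
    induction e using Sym2.ind with
    | _ u v =>
      intro w hw
      have := hU.1 u v he
      rcases Sym2.mem_iff.1 hw with rfl | rfl
      · exact this.1
      · exact this.2
  omega

theorem um_card {n k M : ℕ} (hk : 3 ≤ k) (hM : 4 ≤ M) {E : Finset (Pr n)}
    (h : Um k M (gr E)) : M ≤ E.card := by
  obtain ⟨H, hH, W, hW, hU⟩ := h
  have h2 := uq_edges hk hU (hM.trans hW)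
  have h3 : H.edgeSet.ncard ≤ E.card := by
    calc H.edgeSet.ncard ≤ (Subtype.val '' (E : Set (Pr n))).ncard := by
          apply Set.ncard_le_ncard _ (Set.toFinite _)
          intro e he
          have := SimpleGraph.edgeSet_subset_edgeSet.mpr hH he
          rw [mem_edgeSet_gr] at this
          obtain ⟨x, hx, rfl⟩ := this
          exact ⟨x, hx, rfl⟩
      _ ≤ (E : Set (Pr n)).ncard := Set.ncard_image_le (Set.toFinite _)
      _ = E.card := Set.ncard_coe_finset _
  omega

end Pool.Agent.Work.MP_73831e_pr
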