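import Pool.Agent.Work.MP_73831e_pr.Basic

/-!
MODULE Nbr.

`uq_nbr`: if `UQ k H W`, `k ≤ |W|`, `f` a proper `k`-colouring of `H`, then every `w ∈ W` has an
`H`-neighbour in `W` of each colour `j ≠ f w`.
Proof.  (a) Every colour is used on `W`: otherwise some colour `j` is not used on `W`; as
`|W| ≥ k > k-1` two vertices `u ≠ u'` of `W` have the same colour; recolour `u` with `j`: this is
proper for `H` (no edge of `H` leads from `u` to a vertex coloured `j`, the edges of `H` being inside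
`W`), and the permutation `π` would satisfy `π (f u) = j` and `π (f u') = f u'`, contradiction.
(b) If `w` has no neighbour of colour `j ≠ f w` (neighbours are in `W`), recolour `w` with `j`:
proper; with `v ∈ W` of colour `j` (by (a)), `v ≠ w`: `π j = j` and `π (f w) = j`, so `f w = j`,
contradiction.

`classes`: `k = m+1`, `G'` alive and `Um (m+1) (L+2) G'` with `L = n / K₁`; take `H, W, f` and
`C i = {w ∈ W : f w = i}` for `i < m`.  Disjoint; each vertex has a neighbour (`uq_nbr`, `m ≥ 2`);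
any proper colouring `g` of `G'` is proper for `H`, so `g = π ∘ f` on `W`.
Size: if `K₃ |C i| < n` then `DegOK (2 K₁) K₃ G'` gives `2 K₁ tch G' (C i) < n`.  But every
`w ∈ W \ C i` has an `H`-neighbour in `C i` and these edges are distinct for distinct `w`, so
`tch G' (C i) ≥ |W| - |C i|`, and
`2 K₁ (|W| - |C i|) ≥ 2 K₁ (n/K₁ + 2) - 2 K₁ |C i| > 2n - K₃ |C i| > n`, contradiction.
(`hf : f` is a proper colouring of `G'`, restricted to `H`.)
-/

open Finset
open scoped Classical Nat

namespace Pool.Agent.Work.MP_73831e_pr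

theorem Nbr_recol {V : Type} {k : ℕ} {H : SimpleGraph V} {f : V → Fin k} (hf : PC k H f)
    (u : V) (j : Fin k) (hj : ∀ v, H.Adj u v → f v ≠ j) : PC k H (Function.update f u j) := by
  intro x y hxy
  by_cases hx : x = u
  · subst hx
    have hy : y ≠ x := fun h => hxy.ne h.symm
    rw [Function.update_self, Function.update_of_ne hy]
    exact (hj y hxy).symm
  · by_cases hy : y = u
    · subst hy
      rw [Function.update_self, Function.update_of_ne hx]
      exact hj x hxy.symm
    · rw [Function.update_of_ne hx, Function.update_of_ne hy]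
      exact hf x y hxy

theorem Nbr_used {V : Type} {k : ℕ} {H : SimpleGraph V} {W : Finset V}
    (h : UQ k H W) (hW : k ≤ W.card) {f : V → Fin k} (hf : PC k H f) (j : Fin k) :
    ∃ w ∈ W, f w = j := by
  by_contra hcon
  push Not at hcon
  have hk : 0 < k := lt_of_le_of_lt (Nat.zero_le _) j.2
  obtain ⟨u, hu, u', hu', huu, hff⟩ := Finset.exists_ne_map_eq_of_card_lt_of_maps_to
    (s := W) (t := Finset.univ.erase j) (f := f)
    (by rw [card_erase_of_mem (mem_univ _), card_univ, Fintype.card_fin]; omega)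
    (fun w hw => by
      simp only [coe_erase, coe_univ, Set.mem_sdiff, Set.mem_univ, Set.mem_singleton_iff, true_and]
      exact hcon w hw)
  have hg := Nbr_recol hf u j (fun v hv => hcon v (h.1 u v hv).2)
  obtain ⟨π, hπ⟩ := h.2.2 f _ hf hg
  have h1 := hπ u hu
  have h2 := hπ u' hu'
  rw [Function.update_self] at h1
  rw [Function.update_of_ne huu.symm] at h2
  rw [← hff, ← h1] at h2
  exact hcon u hu h2

theorem uq_nbr {V : Type} {k : ℕ} {H : SimpleGraph V} {W : Finset V}
    (h : UQ k H W) (hW : k ≤ W.card) {f : V → Fin k} (hf : PC k H f) :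
    ∀ w ∈ W, ∀ j, j ≠ f w → ∃ v ∈ W, H.Adj w v ∧ f v = j := by
  intro w hw j hj
  by_contra hcon
  push Not at hcon
  have hg := Nbr_recol hf w j (fun v hv => hcon v (h.1 w v hv).2 hv)
  obtain ⟨π, hπ⟩ := h.2.2 f _ hf hg
  obtain ⟨v, hv, hvj⟩ := Nbr_used h hW hf j
  have hvw : v ≠ w := by rintro rfl; exact hj hvj.symm
  have h1 := hπ w hw
  have h2 := hπ v hv
  rw [Function.update_self] at h1
  rw [Function.update_of_ne hvw, hvj] at h2
  exact hj (π.injective (h2.symm.trans h1))

theorem Nbr_tch {n : ℕ} {G : SimpleGraph (Fin n)} (W T : Finset (Fin n))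
    (h : ∀ w ∈ W, w ∉ T → ∃ v ∈ T, G.Adj w v) : W.card ≤ tch G T + T.card := by
  have h1 : W.card ≤ (W \ T).card + T.card := by
    have := card_le_card (show W ⊆ (W \ T) ∪ T by
      intro x hx; by_cases hxT : x ∈ T <;> simp [hx, hxT])
    exact this.trans (card_union_le _ _)
  have h' : ∀ w : Fin n, ∃ v, w ∈ W → w ∉ T → v ∈ T ∧ G.Adj w v := by
    intro w
    by_cases hw : w ∈ W ∧ w ∉ T
    · obtain ⟨v, hv, hv'⟩ := h w hw.1 hw.2
      exact ⟨v, fun _ _ => ⟨hv, hv'⟩⟩
    · exact ⟨w, fun h1 h2 => absurd ⟨h1, h2⟩ hw⟩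
  choose v hv using h'
  have h2 : (W \ T).card ≤ tch G T := by
    have hinj : Set.InjOn (fun w => s(w, v w)) ((W \ T : Finset (Fin n)) : Set (Fin n)) := by
      intro a ha b hb hab
      rw [mem_coe, mem_sdiff] at ha hb
      rcases Sym2.eq_iff.mp hab with ⟨h3, _⟩ | ⟨h3, _⟩
      · exact h3
      · exact absurd (h3 ▸ (hv b hb.1 hb.2).1) ha.2
    rw [← Finset.card_image_of_injOn hinj, ← Set.ncard_coe_finset]
    unfold tch
    apply Set.ncard_le_ncard _ (Set.toFinite _)
    intro e he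
    rw [mem_coe, mem_image] at he
    obtain ⟨w, hw, rfl⟩ := he
    rw [mem_sdiff] at hw
    obtain ⟨h4, h5⟩ := hv w hw.1 hw.2
    exact ⟨h5, v w, Sym2.mem_mk_right _ _, h4⟩
  omega

theorem classes {n m K₁ K₃ : ℕ} (hm : 2 ≤ m) (hK1 : 1 ≤ K₁) (hK : 2 * K₁ ≤ K₃)
    (hL : m + 1 ≤ n / K₁ + 2) {G' : SimpleGraph (Fin n)} (hU : Um (m + 1) (n / K₁ + 2) G')
    (hal : Alive (m + 1) G') (hdeg : DegOK (2 * K₁) K₃ G') :
    ∃ C : Fin m → Finset (Fin n), IsCl K₃ G' C := by
  obtain ⟨H, hH, W, hW, hUQ⟩ := hU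
  obtain ⟨f, hf⟩ := hal
  have hfH : PC (m + 1) H f := hf.anti hH
  have hnbr := uq_nbr hUQ (hL.trans hW) hfH
  refine ⟨fun i => W.filter (fun w => f w = i.castSucc), ?_, ?_, ?_, ?_⟩
  · intro i j hij
    rw [disjoint_left]
    intro w hw hw'
    simp only [mem_filter] at hw hw'
    exact hij (Fin.castSucc_injective m (hw.2.symm.trans hw'.2))
  · intro i
    by_contra hcon
    push Not at hcon
    have h1 := hdeg (W.filter (fun w => f w = i.castSucc)) (by
      rw [Nat.card_eq_fintype_card, Fintype.card_fin]; exact hcon.le)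
    rw [Nat.card_eq_fintype_card, Fintype.card_fin] at h1
    have h2 := Nbr_tch (G := G') W (W.filter (fun w => f w = i.castSucc)) (by
      intro w hw hwT
      have hfw : i.castSucc ≠ f w := by
        intro h; exact hwT (mem_filter.mpr ⟨hw, h.symm⟩)
      obtain ⟨v, hv, hadj, hfv⟩ := hnbr w hw _ hfw
      exact ⟨v, mem_filter.mpr ⟨hv, hfv⟩, hH hadj⟩)
    have h3 : n < K₁ * (n / K₁ + 1) := Nat.lt_mul_div_succ n (by omega)
    have h4 : K₁ * (n / K₁ + 1) ≤ K₁ * W.card := Nat.mul_le_mul_left _ (by omega)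
    set t := tch G' (W.filter (fun w => f w = i.castSucc))
    set c := (W.filter (fun w => f w = i.castSucc)).card
    have h5 : 2 * K₁ * W.card ≤ 2 * K₁ * (t + c) := Nat.mul_le_mul_left _ h2
    have h6 : 2 * K₁ * c ≤ K₃ * c := Nat.mul_le_mul_right _ hK
    nlinarith
  · intro i v hv hiso
    rw [mem_filter] at hv
    have hne : Fin.last m ≠ f v := by
      rw [hv.2]; exact (Fin.castSucc_lt_last i).ne'
    obtain ⟨w, _, hadj, _⟩ := hnbr v hv.1 _ hne
    exact hiso w (hH hadj)
  · intro g hg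
    obtain ⟨π, hπ⟩ := hUQ.2.2 f g hfH (hg.anti hH)
    refine ⟨π, fun i v hv => ?_⟩
    rw [mem_filter] at hv
    rw [hπ v hv.1, hv.2]

end Pool.Agent.Work.MP_73831e_pr
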