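import Pool.Agent.Work.MP_73831e_pr.Basic

/-!
MODULE UCol.  `HasUC k G → Um k 4 G` for `k ≥ 3`.

Proof.  Let `H : G.Subgraph` with `H.coe` of chromatic number `k`, unique colouring, not a triangle.
Take the spanning graph `H.spanningCoe` (on `V`) and `W = H.verts` as a finset.  Its edges are inside
`W`; a proper `k`-colouring `V → Fin k` of it restricts to one of `H.coe`, so any two differ by a
permutation on `W`; and a colouring of `H.coe` extends to `V` (arbitrarily, `k > 0`), so it is alive.
It remains to see `|W| ≥ 4`.  `|W| ≥ χ = k ≥ 3` (a graph with `< k` vertices is `(k-1)`-colourable).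
If `|W| ≥ 4` fine.  Otherwise `|W| = 3 = k`, and all three vertices are pairwise adjacent (two
nonadjacent vertices could get the same colour, giving a `2`-colouring), so `H.coe` is complete on `3`
vertices, i.e. isomorphic to `⊤ : SimpleGraph (Fin 3)`: excluded.
-/

open Finset
open scoped Classical Nat

namespace Pool.Agent.Work.MP_73831e_pr

theorem UCol_card {W : Type} [Finite W] {k : ℕ} (hk : 3 ≤ k) (H : SimpleGraph W)
    (hchi : H.chromaticNumber = (k : ℕ∞))
    (hnt : ¬ Nonempty (H ≃g (⊤ : SimpleGraph (Fin 3)))) : 4 ≤ Nat.card W := by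
  have := Fintype.ofFinite W
  rw [Nat.card_eq_fintype_card]
  by_contra hcon
  have hnc : ∀ j, j < k → ¬ H.Colorable j := by
    intro j hj hc
    have := SimpleGraph.chromaticNumber_le_iff_colorable.mpr hc
    rw [hchi] at this
    have : k ≤ j := by exact_mod_cast this
    omega
  have hkc : k ≤ Fintype.card W := by
    by_contra h
    exact hnc _ (not_le.mp h) H.colorable_of_fintype
  have hc3 : Fintype.card W = 3 := by omega
  have hk3 : k = 3 := by omega
  apply hnt
  have htop : H = ⊤ := by
    ext u v
    rw [SimpleGraph.top_adj]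
    constructor
    · intro h; exact h.ne
    · intro huv
      by_contra hadj
      apply hnc 2 (by omega)
      refine ⟨SimpleGraph.Coloring.mk
        (fun w => if w = u ∨ w = v then (0 : Fin 2) else 1) ?_⟩
      intro a b hab
      by_cases ha : a = u ∨ a = v
      · by_cases hb : b = u ∨ b = v
        · exfalso
          rcases ha with rfl | rfl <;> rcases hb with rfl | rfl
          · exact hab.ne rfl
          · exact hadj hab
          · exact hadj hab.symm
          · exact hab.ne rfl
        · simp [ha, hb]
      · by_cases hb : b = u ∨ b = v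
        · simp [ha, hb]
        · exfalso
          push Not at ha hb
          have h4 : ({a, b, u, v} : Finset W).card = 4 := by
            rw [card_insert_of_notMem, card_insert_of_notMem, card_insert_of_notMem, card_singleton]
            · simpa using huv
            · simp [hb.1, hb.2]
            · simp [ha.1, ha.2, hab.ne]
          have h5 := card_le_univ ({a, b, u, v} : Finset W)
          omega
  subst htop
  have e : W ≃ Fin 3 := Fintype.equivFinOfCardEq hc3
  exact ⟨⟨e, by intro a b; simp⟩⟩

theorem hasUC_um {V : Type} [Finite V] {k : ℕ} (hk : 3 ≤ k) {G : SimpleGraph V}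
    (h : HasUC k G) : Um k 4 G := by
  obtain ⟨H, ⟨hchi, huniq⟩, hnt⟩ := h
  have hcard := UCol_card hk H.coe hchi hnt
  have hcol : H.coe.Colorable k :=
    SimpleGraph.chromaticNumber_le_iff_colorable.mp hchi.le
  refine ⟨H.spanningCoe, H.spanningCoe_le, H.verts.toFinite.toFinset, ?_, ?_, ?_, ?_⟩
  · rw [← Set.ncard_eq_toFinset_card]
    exact hcard
  · intro u v huv
    rw [Set.Finite.mem_toFinset, Set.Finite.mem_toFinset]
    exact ⟨H.edge_vert huv, H.edge_vert (H.adj_symm huv)⟩
  · obtain ⟨c⟩ := hcol
    refine ⟨fun v => if h : v ∈ H.verts then c ⟨v, h⟩ else ⟨0, by omega⟩, ?_⟩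
    intro u v huv
    have hu : u ∈ H.verts := H.edge_vert huv
    have hv : v ∈ H.verts := H.edge_vert (H.adj_symm huv)
    simp only [hu, hv, dif_pos]
    apply c.valid
    exact huv
  · intro f g hf hg
    obtain ⟨π, hπ⟩ := huniq
      (SimpleGraph.Coloring.mk (fun w : H.verts => f w.1) (fun {a b} hab => hf a.1 b.1 hab))
      (SimpleGraph.Coloring.mk (fun w : H.verts => g w.1) (fun {a b} hab => hg a.1 b.1 hab))
    refine ⟨π, fun w hw => ?_⟩
    rw [Set.Finite.mem_toFinset] at hw
    exact hπ ⟨w, hw⟩

end Pool.Agent.Work.MP_73831e_pr
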