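import Pool.Agent.Work.MP_73831e_pr.Basic
import Pool.Agent.Work.MP_73831e_pr.D1
import Pool.Agent.Work.MP_73831e_pr.D2
import Pool.Agent.Work.MP_73831e_pr.D3
import Pool.Agent.Work.MP_73831e_pr.D4
import Pool.Agent.Work.MP_73831e_pr.D5
import Pool.Agent.Work.MP_73831e_pr.BadFrac
import Pool.Agent.Work.MP_73831e_pr.ConfBad
import Pool.Agent.Work.MP_73831e_pr.Edges
import Pool.Agent.Work.MP_73831e_pr.Nbr
import Pool.Agent.Work.MP_73831e_pr.UCol
import Pool.Agent.Work.MP_73831e_pr.Typ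

/-! Final assembly. -/

open Finset
open scoped Classical Nat

namespace Pool.Agent.Work.MP_73831e_pr

/-- The regular births. -/
def Bth (n m C K₁ K₃ K₄ : ℕ) (E : Finset (Pr n)) (x : Pr n) : Prop :=
  ¬ Um (m + 1) (n / K₁ + 2) (gr E) ∧ Um (m + 1) (n / K₁ + 2) (gr (insert x E)) ∧
    Alive (m + 1) (gr (insert x E)) ∧
    (Sparse (n / K₁) (gr (insert x E)) ∧ DegOK (2 * K₁) K₃ (gr (insert x E)) ∧
      ManyIso K₄ (gr (insert x E))) ∧ E.card + 1 ≤ C * n

theorem Wsum_split {P : Type} [Fintype P] (B D : Finset P → P → Prop) :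
    Wsum B ≤ Wsum (fun E x => B E x ∧ D E x) + Wsum (fun E x => B E x ∧ ¬ D E x) := by
  unfold Wsum
  rw [← sum_add_distrib]
  apply sum_le_sum
  intro E _
  rw [← sum_union]
  · apply sum_le_sum_of_subset
    intro x hx
    simp only [mem_union, mem_filter, mem_univ, true_and] at hx ⊢
    tauto
  · rw [disjoint_left]
    intro x hx hx'
    simp only [mem_filter, mem_univ, true_and] at hx hx'
    tauto

theorem births_upper {n m C K₁ K₃ K₄ : ℕ} (hm : 2 ≤ m) (hK1 : 1 ≤ K₁)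
    (hK13 : 2 * K₁ ≤ K₃)
    (hn4 : 2 * K₄ ≤ n) (hnc : 2 * ZZ m * K₃ ^ 2 < n) (hL4 : 4 ≤ n / K₁) (hLm : m + 1 ≤ n / K₁ + 2)
    (hN : 2 * (C * n + 2 * m) ≤ NN n) :
    Wsum (fun E x => Bth n m C K₁ K₃ K₄ E x ∧ ¬ (NN n ≤ (2 * ZZ m * K₃ ^ 2) * Nm m E)) ≤
      (6 * (K₁ ^ (2 * m + 1) * K₃ ^ (2 * m) * (2 * K₄ ^ 2)) * ZZ m * (C + 2 * m)) *
        Qd n m (n / K₁) := by
  set L := n / K₁ with hL
  set K₆ := K₁ ^ (2 * m + 1) * K₃ ^ (2 * m) * (2 * K₄ ^ 2) with hK6
  have hn0 : 0 < n := by omega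
  obtain ⟨B, hBd⟩ : ∃ B : Finset (Pr n) → Pr n → Prop, ∀ E x, B E x ↔
    Bth n m C K₁ K₃ K₄ E x ∧ ¬ (NN n ≤ (2 * ZZ m * K₃ ^ 2) * Nm m E) :=
    ⟨fun E x => Bth n m C K₁ K₃ K₄ E x ∧ ¬ (NN n ≤ (2 * ZZ m * K₃ ^ 2) * Nm m E),
      fun _ _ => Iff.rfl⟩
  have hBeq : (fun E x => Bth n m C K₁ K₃ K₄ E x ∧ ¬ (NN n ≤ (2 * ZZ m * K₃ ^ 2) * Nm m E)) = B := by
    funext E x; exact propext (hBd E x).symm
  rw [hBeq]
  -- classes
  have hcl : ∀ (E : Finset (Pr n)) (x : Pr n), ∃ Cl : Fin m → Finset (Fin n),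
      B E x → IsCl K₃ (gr (insert x E)) Cl := by
    intro E x
    by_cases h : B E x
    · obtain ⟨⟨h1, h2, h3, ⟨h4, h5, h6⟩, h7⟩, h8⟩ := (hBd E x).mp h
      obtain ⟨Cl, hCl⟩ := classes hm hK1 hK13 (by rw [← hL]; exact hLm) h2 h3 h5
      exact ⟨Cl, fun _ => hCl⟩
    · exact ⟨fun _ => ∅, fun h' => absurd h' h⟩
  choose Cl hCl using hcl
  have hkey : ∀ (E : Finset (Pr n)) (x : Pr n), B E x →
      Alive (m + 1) (gr E) ∧ ¬ Um (m + 1) L (gr E) := by
    intro E x hB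
    obtain ⟨⟨h1, h2, h3, ⟨h4, h5, h6⟩, h7⟩, h8⟩ := (hBd E x).mp hB
    have hle : gr E ≤ gr (insert x E) := gr_mono (subset_insert _ _)
    refine ⟨h3.anti hle, fun h => h1 ?_⟩
    exact sparse_um (by omega) (h4.anti hle) (h.of_le hL4)
  -- pointwise bound
  have hpt : ∀ (E : Finset (Pr n)) (x : Pr n), x ∉ E → B E x →
      n * wt E ≤ K₆ * (ZZ m *
      (∑ c ∈ (Conf (gr (insert x E)) (Cl E x)).filter (fun c =>
          Alive (m + 1) (gr (gadC E c)) ∧ ¬ Um (m + 1) (L + 2) (gr (gadC E c))), wt (gadC E c)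
       + ∑ c ∈ (Conf (gr (insert x E)) (Cl E x)).filter (fun c =>
          ¬ Alive (m + 1) (gr (gadC E c))), wt (gadC E c))) := by
    intro E x hx hB
    obtain ⟨⟨h1, h2, h3, ⟨h4, h5, h6⟩, h7⟩, h8⟩ := (hBd E x).mp hB
    have hcard : L + 2 ≤ (insert x E).card := um_card (by omega) (by omega) h2
    rw [card_insert_of_notMem hx] at hcard
    have hE : n ≤ K₁ * (E.card + 1) := by
      have h9 : n < K₁ * (n / K₁ + 1) := Nat.lt_mul_div_succ n (by omega)
      have h10 : K₁ * (n / K₁ + 1) ≤ K₁ * (E.card + 1) := Nat.mul_le_mul_left _ (by omega)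
      omega
    refine (conf_lower (hCl E x hB) h6 hE hn4 hn0 (by omega)).trans ?_
    rw [← hK6]
    apply Nat.mul_le_mul_left
    exact conf_bad hm (hCl E x hB) (hkey E x hB).1 (hkey E x hB).2 h8 hnc
  have h4 := bad_alive (m := m) (L := L) (C := C) (K₃ := K₃) B Cl
    (fun E x _ hB => ⟨hCl E x hB, ((hBd E x).mp hB).1.2.2.2.2⟩)
  have h5 := bad_dead (m := m) (L := L) (C := C) (K₃ := K₃) B Cl hN
    (fun E x _ hB => ⟨hCl E x hB, ((hBd E x).mp hB).1.2.2.2.2, hkey E x hB⟩)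
  have hsum : n * Wsum B ≤ K₆ * (ZZ m * (2 * (C * n + 2 * m) * Qd n m L +
      4 * (C * n + 2 * m) * Qd n m L)) := by
    calc n * Wsum B
        = ∑ E : Finset (Pr n), ∑ x ∈ univ.filter (fun x => x ∉ E ∧ B E x), n * wt E := by
          unfold Wsum; rw [mul_sum]; apply sum_congr rfl; intro E _; rw [mul_sum]
          apply sum_congr
          · ext x; simp
          · intro x _; rfl
      _ ≤ ∑ E : Finset (Pr n), ∑ x ∈ univ.filter (fun x => x ∉ E ∧ B E x), K₆ * (ZZ m *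
          (∑ c ∈ (Conf (gr (insert x E)) (Cl E x)).filter (fun c =>
            Alive (m + 1) (gr (gadC E c)) ∧ ¬ Um (m + 1) (L + 2) (gr (gadC E c))), wt (gadC E c)
           + ∑ c ∈ (Conf (gr (insert x E)) (Cl E x)).filter (fun c =>
            ¬ Alive (m + 1) (gr (gadC E c))), wt (gadC E c))) := by
          apply sum_le_sum; intro E _; apply sum_le_sum; intro x hx
          simp only [mem_filter, mem_univ, true_and] at hx
          exact hpt E x hx.1 hx.2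
      _ = K₆ * (ZZ m * ((∑ E : Finset (Pr n), ∑ x ∈ univ.filter (fun x => x ∉ E ∧ B E x),
          ∑ c ∈ (Conf (gr (insert x E)) (Cl E x)).filter (fun c =>
            Alive (m + 1) (gr (gadC E c)) ∧ ¬ Um (m + 1) (L + 2) (gr (gadC E c))), wt (gadC E c))
           + ∑ E : Finset (Pr n), ∑ x ∈ univ.filter (fun x => x ∉ E ∧ B E x),
            ∑ c ∈ (Conf (gr (insert x E)) (Cl E x)).filter (fun c =>
            ¬ Alive (m + 1) (gr (gadC E c))), wt (gadC E c))) := by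
          rw [← sum_add_distrib, mul_sum, mul_sum]
          apply sum_congr rfl; intro E _
          rw [← sum_add_distrib, mul_sum, mul_sum]
      _ ≤ _ := by
          apply Nat.mul_le_mul_left
          apply Nat.mul_le_mul_left
          exact Nat.add_le_add h4 h5
  have h6 : n * Wsum B ≤ n * ((6 * K₆ * ZZ m * (C + 2 * m)) * Qd n m L) := by
    refine hsum.trans ?_
    have : C * n + 2 * m ≤ (C + 2 * m) * n := by nlinarith
    calc K₆ * (ZZ m * (2 * (C * n + 2 * m) * Qd n m L + 4 * (C * n + 2 * m) * Qd n m L))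
        = 6 * K₆ * ZZ m * Qd n m L * (C * n + 2 * m) := by ring
      _ ≤ 6 * K₆ * ZZ m * Qd n m L * ((C + 2 * m) * n) := Nat.mul_le_mul_left _ this
      _ = _ := by ring
  exact Nat.le_of_mul_le_mul_left h6 hn0

theorem main (k : ℕ) (hk : 3 ≤ k) : ∃ δ : ℝ, 0 < δ ∧ ∃ n₀ : ℕ, ∀ n ≥ n₀,
    δ * (Nat.card (Ordr (Pr n)) : ℝ) ≤
      (Nat.card {ω : Ordr (Pr n) // ∃ τ, IsJump k ω τ ∧
        ∀ t < τ, ¬ HasUC k (gr (pre ω t))} : ℝ) := by
  obtain ⟨m, rfl⟩ : ∃ m, k = m + 1 := ⟨k - 1, by omega⟩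
  have hm : 2 ≤ m := by omega
  obtain ⟨C, K₁, K₃, K₄, hC, hK1, hK13, hK4, htyp⟩ := typical (m + 1) (by omega)
  set c₅ := 2 * ZZ m * K₃ ^ 2 with hc5
  set K₆ := K₁ ^ (2 * m + 1) * K₃ ^ (2 * m) * (2 * K₄ ^ 2) with hK6
  set Kt := 6 * K₆ * ZZ m * (C + 2 * m) + c₅ + 1 with hKt
  obtain ⟨n₀, hn₀⟩ := htyp (4 * Kt)
  refine ⟨1 / (2 * Kt), by positivity, n₀ + 2 * K₄ + c₅ + 1 + K₁ * (m + 4) + (4 * C + 8 * m + 1),
    fun n hn => ?_⟩
  have hn1 : n₀ ≤ n := by omega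
  obtain ⟨hCn, ha⟩ := hn₀ n hn1
  set L := n / K₁ with hL
  have hL4 : m + 4 ≤ L := by
    rw [hL, Nat.le_div_iff_mul_le (by omega)]
    rw [Nat.mul_comm]; omega
  have hN : 2 * (C * n + 2 * m) ≤ NN n := by
    have h1 := two_NN n
    have h2 : 4 * C + 8 * m ≤ n - 1 := by omega
    have h3 : n * (4 * C + 8 * m) ≤ n * (n - 1) := Nat.mul_le_mul_left _ h2
    have h4 : 1 ≤ n := by omega
    nlinarith
  set a := Nat.card {ω : Ordr (Pr n) // ¬ (¬ Alive (m + 1) (gr (pre ω (C * n))) ∧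
        (Sparse L (gr (pre ω (C * n))) ∧ DegOK (2 * K₁) K₃ (gr (pre ω (C * n))) ∧
          ManyIso K₄ (gr (pre ω (C * n)))))} with ha'
  set q := Qd n m L with hq
  have hUm0 : ¬ Um (m + 1) (L + 2) (gr (∅ : Finset (Pr n))) := by
    intro h
    have := um_card (by omega) (by omega) h
    simp at this
  have hlow : (NN n)! ≤ Wsum (Bth n m C K₁ K₃ K₄) + q + a := by
    have := births_lower (P := Pr n) (fun E => Um (m + 1) (L + 2) (gr E))
      (fun E => Alive (m + 1) (gr E))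
      (fun E => Sparse L (gr E) ∧ DegOK (2 * K₁) K₃ (gr E) ∧ ManyIso K₄ (gr E))
      (fun E F h hE => hE.mono (gr_mono h)) (fun E F h hF => hF.anti (gr_mono h))
      (fun E F h hF => ⟨hF.1.anti (gr_mono h), hF.2.1.anti (gr_mono h), hF.2.2.anti (gr_mono h)⟩)
      hUm0 (by rw [gr_empty]; exact alive_bot (by omega)) (C * n) hCn
    exact this
  have hup1 : Wsum (fun E x => Bth n m C K₁ K₃ K₄ E x ∧ NN n ≤ c₅ * Nm m E) ≤ c₅ * q := by
    apply frozen_births
    rintro E x hx ⟨h1, h2, h3, h4, h5⟩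
    exact ⟨h3.anti (gr_mono (subset_insert _ _)), h1⟩
  have hup2 := births_upper (n := n) (m := m) (C := C) (K₁ := K₁) (K₃ := K₃) (K₄ := K₄) hm hK1
    hK13 (by omega) (by omega) (by omega) (by omega) hN
  have hup : Wsum (Bth n m C K₁ K₃ K₄) ≤ c₅ * q +
      (6 * K₆ * ZZ m * (C + 2 * m)) * q :=
    (Wsum_split _ (fun E _ => NN n ≤ c₅ * Nm m E)).trans (Nat.add_le_add hup1 hup2)
  have hmain : (NN n)! ≤ Kt * q + a := by
    calc (NN n)! ≤ _ := hlow
      _ ≤ (c₅ * q + (6 * K₆ * ZZ m * (C + 2 * m)) * q) + q + a := by omega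
      _ = Kt * q + a := by rw [hKt]; ring
  -- deaths
  have hdeath := deaths_upper (P := Pr n) (fun E => Um (m + 1) (L + 2) (gr E))
      (fun E => Alive (m + 1) (gr E)) (fun E F h hF => hF.anti (gr_mono h))
  set g := Nat.card {ω : Ordr (Pr n) // ∃ τ, IsJump (m + 1) ω τ ∧
        ∀ t < τ, ¬ HasUC (m + 1) (gr (pre ω t))} with hg
  have hcover : q ≤ g + a := by
    refine (le_of_eq ?_ : q ≤ _).trans (hdeath.trans ?_)
    · rw [hq]; unfold Qd; rfl
    · rw [hg, ha']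
      simp only [Nat.card_eq_fintype_card, Fintype.card_subtype]
      rw [← Fintype.card_subtype, ← Fintype.card_subtype, ← Fintype.card_subtype]
      simp only [Fintype.card_subtype]
      refine (card_le_card ?_).trans (card_union_le _ _)
      intro ω hω
      simp only [mem_filter, mem_univ, true_and, mem_union] at hω ⊢
      obtain ⟨t, ht, h1, h2, h3⟩ := hω
      by_cases hT : ¬ (¬ Alive (m + 1) (gr (pre ω (C * n))) ∧
        (Sparse L (gr (pre ω (C * n))) ∧ DegOK (2 * K₁) K₃ (gr (pre ω (C * n))) ∧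
          ManyIso K₄ (gr (pre ω (C * n)))))
      · exact Or.inr hT
      · left
        rw [not_not] at hT
        obtain ⟨hd, hS, _, _⟩ := hT
        have htC : t < C * n := by
          by_contra hcon
          exact hd (h1.anti (gr_mono (pre_mono ω (by omega))))
        refine ⟨t + 1, ⟨fun h => h2 (alive_iff_colorable.mpr h), fun t' ht' => ?_⟩,
          fun t' ht' hu => ?_⟩
        · exact alive_iff_colorable.mp (h1.anti (gr_mono (pre_mono ω (by omega))))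
        · apply h3
          have h5 : Sparse L (gr (pre ω t')) := hS.anti (gr_mono (pre_mono ω (by omega)))
          have h6 := sparse_um (by omega) h5 (hasUC_um (by omega) hu)
          exact h6.mono (gr_mono (pre_mono ω (by omega)))
  have hcardO : Nat.card (Ordr (Pr n)) = (NN n)! := by
    rw [Nat.card_eq_fintype_card, Fintype.card_equiv (Fintype.equivFin (Pr n)).symm,
      Fintype.card_fin]
    rfl
  rw [hcardO]
  have hKt1 : (1 : ℝ) ≤ (Kt : ℝ) := by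
    have : 1 ≤ Kt := by rw [hKt]; omega
    exact_mod_cast this
  have hm' : ((NN n)! : ℝ) ≤ Kt * q + a := by exact_mod_cast hmain
  have ha2 : (4 * Kt : ℝ) * a ≤ ((NN n)! : ℝ) := by exact_mod_cast ha
  have hc' : (q : ℝ) ≤ g + a := by exact_mod_cast hcover
  have ha0 : (0 : ℝ) ≤ a := by positivity
  have h7 : ((NN n)! : ℝ) ≤ Kt * g + 2 * Kt * a := by nlinarith
  rw [div_mul_eq_mul_div, one_mul, div_le_iff₀ (by positivity)]
  nlinarith

end Pool.Agent.Work.MP_73831e_pr
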