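import Pool.Agent.Work.MP_73831e_pr.Basic
import Pool.Agent.Work.MP_73831e_pr.Transfer
import Pool.Agent.Work.MP_73831e_pr.B1
import Pool.Agent.Work.MP_73831e_pr.B2
import Pool.Agent.Work.MP_73831e_pr.B3
import Pool.Agent.Work.MP_73831e_pr.B4

/-!
MODULE Typ.  Combine `B1`-`B4` with `transfer`.

Choose `C` from `B1`, `K₁` from `B2`, `K₃` from `B3 C (2 K₁) (2 K₁)`, `K₄` from `B4`.  By `transfer`
(for `n` large, `C n ≤ NN n`, `Fintype.card (Pr n) = NN n`), the proportion of `ω` such that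
`pre ω (C n)` is alive or not `Sparse`, or not `DegOK`, or not `ManyIso` is at most
`2^{-n} + K/n + 2^{-n} + K'/n`, which is `≤ 1/W` for `n` large.
-/

open Finset
open scoped Classical Nat

namespace Pool.Agent.Work.MP_73831e_pr

theorem typical (k : ℕ) (hk : 1 ≤ k) : ∃ C K₁ K₃ K₄ : ℕ, 1 ≤ C ∧ 1 ≤ K₁ ∧ 2 * K₁ ≤ K₃ ∧ 1 ≤ K₄ ∧
    ∀ W : ℕ, ∃ n₀ : ℕ, ∀ n ≥ n₀, C * n ≤ NN n ∧
      W * Nat.card {ω : Ordr (Pr n) // ¬ (¬ Alive k (gr (pre ω (C * n))) ∧
        (Sparse (n / K₁) (gr (pre ω (C * n))) ∧ DegOK (2 * K₁) K₃ (gr (pre ω (C * n))) ∧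
          ManyIso K₄ (gr (pre ω (C * n)))))} ≤ (NN n)! := by
  obtain ⟨C, hC, n1, h1⟩ := B1 k hk
  obtain ⟨K₁, hK1, Ka, n2, h2⟩ := B2 C hC
  obtain ⟨K₃, hK3, n3, h3⟩ := B3 C (2 * K₁) (2 * K₁) hC (by omega)
  obtain ⟨K₄, hK4, Kb, n4, h4⟩ := B4 C hC
  refine ⟨C, K₁, K₃, K₄, hC, hK1, hK3, hK4, fun W => ?_⟩
  refine ⟨n1 + n2 + n3 + n4 + (2 * C + 1) + W * (2 + Ka + Kb) + 1, fun n hn => ?_⟩
  have hNN : C * n ≤ NN n := by
    rw [NN_eq, Nat.choose_two_right, Nat.le_div_iff_mul_le (by norm_num)]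
    have : 2 * C ≤ n - 1 := by omega
    calc C * n * 2 = n * (2 * C) := by ring
      _ ≤ n * (n - 1) := Nat.mul_le_mul_left _ this
  refine ⟨hNN, ?_⟩
  have g1 := h1 n (by omega)
  have g2 := h2 n (by omega)
  have g3 := h3 n (by omega)
  have g4 := h4 n (by omega)
  have ht := transfer (fun E : Finset (Pr n) => ¬ (¬ Alive k (gr E) ∧
    (Sparse (n / K₁) (gr E) ∧ DegOK (2 * K₁) K₃ (gr E) ∧ ManyIso K₄ (gr E)))) (C * n) hNN
  have hb : (univ.filter (fun E : Finset (Pr n) => E.card = C * n ∧ ¬ (¬ Alive k (gr E) ∧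
      (Sparse (n / K₁) (gr E) ∧ DegOK (2 * K₁) K₃ (gr E) ∧ ManyIso K₄ (gr E))))).card ≤
      (univ.filter (fun E : Finset (Pr n) => E.card = C * n ∧ Alive k (gr E))).card +
      (univ.filter (fun E : Finset (Pr n) => E.card = C * n ∧ ¬ Sparse (n / K₁) (gr E))).card +
      (univ.filter (fun E : Finset (Pr n) => E.card = C * n ∧ ¬ DegOK (2 * K₁) K₃ (gr E))).card +
      (univ.filter (fun E : Finset (Pr n) => E.card = C * n ∧ ¬ ManyIso K₄ (gr E))).card := by
    refine le_trans (card_le_card (t :=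
      (((univ.filter (fun E : Finset (Pr n) => E.card = C * n ∧ Alive k (gr E))) ∪
      (univ.filter (fun E : Finset (Pr n) => E.card = C * n ∧ ¬ Sparse (n / K₁) (gr E)))) ∪
      (univ.filter (fun E : Finset (Pr n) => E.card = C * n ∧ ¬ DegOK (2 * K₁) K₃ (gr E)))) ∪
      (univ.filter (fun E : Finset (Pr n) => E.card = C * n ∧ ¬ ManyIso K₄ (gr E)))) ?_) ?_
    · intro E hE
      simp only [mem_union, mem_filter, mem_univ, true_and] at hE ⊢
      tauto
    · exact (card_union_le _ _).trans (Nat.add_le_add_right ((card_union_le _ _).trans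
        (Nat.add_le_add_right (card_union_le _ _) _)) _)
  set a1 := (univ.filter (fun E : Finset (Pr n) => E.card = C * n ∧ Alive k (gr E))).card
  set a2 := (univ.filter
    (fun E : Finset (Pr n) => E.card = C * n ∧ ¬ Sparse (n / K₁) (gr E))).card
  set a3 := (univ.filter
    (fun E : Finset (Pr n) => E.card = C * n ∧ ¬ DegOK (2 * K₁) K₃ (gr E))).card
  set a4 := (univ.filter (fun E : Finset (Pr n) => E.card = C * n ∧ ¬ ManyIso K₄ (gr E))).card
  change _ * (NN n).choose (C * n) = _ * (NN n)! at ht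
  have hTpos : 0 < (NN n).choose (C * n) := Nat.choose_pos hNN
  set T := (NN n).choose (C * n)
  set bad := (univ.filter (fun E : Finset (Pr n) => E.card = C * n ∧ ¬ (¬ Alive k (gr E) ∧
      (Sparse (n / K₁) (gr E) ∧ DegOK (2 * K₁) K₃ (gr E) ∧ ManyIso K₄ (gr E))))).card
  have hn2 : n ≤ 2 ^ n := Nat.lt_two_pow_self.le
  have e1 : a1 * n ≤ T := (Nat.mul_le_mul_left _ hn2).trans g1
  have e3 : a3 * n ≤ T := (Nat.mul_le_mul_left _ hn2).trans g3
  have e5 : bad * n ≤ (2 + Ka + Kb) * T := by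
    calc bad * n ≤ (a1 + a2 + a3 + a4) * n := Nat.mul_le_mul_right _ hb
      _ = a1 * n + a2 * n + a3 * n + a4 * n := by ring
      _ ≤ T + Ka * T + T + Kb * T := by omega
      _ = (2 + Ka + Kb) * T := by ring
  have hn0 : 0 < n := by omega
  have e6 : W * bad ≤ T := by
    apply Nat.le_of_mul_le_mul_right _ hn0
    calc W * bad * n = W * (bad * n) := by ring
      _ ≤ W * ((2 + Ka + Kb) * T) := Nat.mul_le_mul_left _ e5
      _ = W * (2 + Ka + Kb) * T := by ring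
      _ ≤ n * T := Nat.mul_le_mul_right _ (by omega)
      _ = T * n := by ring
  apply Nat.le_of_mul_le_mul_right _ hTpos
  rw [mul_assoc, ht]
  have hbad : ∀ t : ℕ, t = bad → W * (t * (NN n)!) ≤ (NN n)! * T := by
    rintro t rfl
    calc W * (bad * (NN n)!) = W * bad * (NN n)! := by ring
      _ ≤ T * (NN n)! := Nat.mul_le_mul_right _ e6
      _ = (NN n)! * T := by ring
  apply hbad
  congr!

end Pool.Agent.Work.MP_73831e_pr
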